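import Mathlib

/-!
Constant-depth circuits with unbounded fan-in AND, OR and MOD_p gates, and
three-literal CNF formulas given by their clause indicators.
-/

namespace Pool.Agent.Lib20

/-- The source of a wire: a constant, an input bit, or an earlier gate. -/
inductive Src (ι : Type) where
  | const (b : Bool) : Src ι
  | input (i : ι) : Src ι
  | gate (k : ℕ) : Src ι

/-- Kinds of gates; every gate has unbounded fan-in. -/
inductive Kind where
  | and : Kind
  | or : Kind
  | mod : Kind

/-- A gate: its kind and its list of incoming wires. A wire is a source together with a flag;
the flag `true` means that the wire is negated. -/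
structure Gate (ι : Type) where
  kind : Kind
  wires : List (Bool × Src ι)

/-- A circuit over input bits indexed by `ι`: the list of its gates, newest gate first.
In a circuit `g :: C`, the source `Src.gate k` of a wire of `g` is the gate at position `k`
of `C` (position `0` is the gate added just before `g`). The output is the newest gate. -/
abbrev Circuit (ι : Type) := List (Gate ι)

/-- Value of a source, given the input `x` and the values `vs` of the earlier gates. -/
def Src.val {ι : Type} (x : ι → Bool) (vs : List Bool) : Src ι → Bool
  | .const b => b
  | .input i => x i
  | .gate k => vs.getD k false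

/-- Value of a (possibly negated) wire. -/
def wireVal {ι : Type} (x : ι → Bool) (vs : List Bool) (w : Bool × Src ι) : Bool :=
  xor w.1 (w.2.val x vs)

/-- Value of a gate. A `mod` gate outputs `true` when the number of its true
incoming wires is divisible by `p`. -/
def Gate.val {ι : Type} (p : ℕ) (x : ι → Bool) (vs : List Bool) (g : Gate ι) : Bool :=
  match g.kind with
  | .and => g.wires.all (wireVal x vs)
  | .or => g.wires.any (wireVal x vs)
  | .mod => decide (p ∣ g.wires.countP (wireVal x vs))

/-- Values of all gates of a circuit. -/
def Circuit.vals {ι : Type} (p : ℕ) (x : ι → Bool) : Circuit ι → List Bool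
  | [] => []
  | g :: C => g.val p x (Circuit.vals p x C) :: Circuit.vals p x C

/-- The Boolean function computed by a circuit: the value of its newest gate. -/
def Circuit.eval {ι : Type} (p : ℕ) (C : Circuit ι) (x : ι → Bool) : Bool :=
  (Circuit.vals p x C).headD false

/-- Depth of a source, given the depths `ds` of the earlier gates. -/
def Src.depth {ι : Type} (ds : List ℕ) : Src ι → ℕ
  | .gate k => ds.getD k 0
  | _ => 0

/-- Depths of all gates: one more than the largest depth of an incoming wire. -/
def Circuit.depths {ι : Type} : Circuit ι → List ℕ
  | [] => []
  | g :: C => ((g.wires.map fun w => w.2.depth (Circuit.depths C)).foldr max 0 + 1) ::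
      Circuit.depths C

/-- Depth of a circuit: the largest depth of a gate. -/
def Circuit.depth {ι : Type} (C : Circuit ι) : ℕ := (Circuit.depths C).foldr max 0

/-- Size of a circuit: its number of gates. -/
def Circuit.size {ι : Type} (C : Circuit ι) : ℕ := List.length C

/-- A clause on `v` variables: three literals (repetitions allowed), each a variable and the
truth value that satisfies the literal. -/
abbrev Clause (v : ℕ) := Fin 3 → Fin v × Bool

/-- An input to the problem: for each `j < t` a set of clauses on the same `v` variables,
given by its indicator bits. It stands for the formula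
`F 0 ∨ F 1 ∨ ... ∨ F (t-1)`, each `F j` being the conjunction of the clauses of its set. -/
abbrev DisjOfCNF (t v : ℕ) := Fin t × Clause v → Bool

/-- The assignment `α` satisfies the formula `φ`: for some `j` it satisfies
every clause of the `j`-th set. -/
def Satisfies {t v : ℕ} (φ : DisjOfCNF t v) (α : Fin v → Bool) : Prop :=
  ∃ j, ∀ c : Clause v, φ (j, c) = true → ∃ i, α (c i).1 = (c i).2

/-- The formula is unsatisfiable. -/
def Unsat {t v : ℕ} (φ : DisjOfCNF t v) : Prop := ¬ ∃ α, Satisfies φ α

end Pool.Agent.Lib20
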