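import Pool.Agent.Lib_helper20.Rank

namespace Pool.Agent.Lib20

open Finset

/-- One-sided amplification: from a weighted family of degree-`D` functions, each point of `G`
being in the support with weight at least `7/12` and each point of `Z` with weight at most
`5/12`, one gets products of `ℓ` of them whose support ratio is `(5/6)^ℓ`. -/
lemma amplify {F : Type} [Field F] {ι : Type} [Fintype ι] [DecidableEq ι] {J : Type} [Fintype J]
    (μ : J → ℚ) (hμ : ∀ j, 0 ≤ μ j) (P : J → (ι → Bool) → F) {D : ℕ} (hP : ∀ j, P j ∈ LD F ι D)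
    (G Z : Finset (ι → Bool)) (hG0 : G.Nonempty) [DecidableEq F]
    (hG : ∀ x ∈ G, 7 / 12 ≤ ∑ j, μ j * (if P j x ≠ 0 then 1 else 0))
    (hZ : ∀ x ∈ Z, ∑ j, μ j * (if P j x ≠ 0 then 1 else 0) ≤ 5 / 12) (ℓ : ℕ) :
    ∃ q ∈ LD F ι (ℓ * D), 0 < (G.filter fun x => q x ≠ 0).card ∧
      (Z.filter fun x => q x ≠ 0).card * 6 ^ ℓ * G.card ≤
        (G.filter fun x => q x ≠ 0).card * 5 ^ ℓ * Z.card := by
  classical
  induction ℓ with
  | zero =>
    refine ⟨1, one_mem_LD _, ?_, ?_⟩
    · simp only [Pi.one_apply, ne_eq, one_ne_zero, not_false_eq_true, Finset.filter_true]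
      exact Finset.card_pos.mpr hG0
    · simp [Nat.mul_comm]
  | succ ℓ ih =>
    obtain ⟨q, hq, ha, hb⟩ := ih
    set A := G.filter fun x => q x ≠ 0 with hA
    set B := Z.filter fun x => q x ≠ 0 with hB
    -- expectations
    have hA' : ∀ j, ((A.filter fun x => P j x ≠ 0).card : ℚ) = ∑ x ∈ A, (if P j x ≠ 0 then (1:ℚ) else 0) := by
      intro j; rw [Finset.sum_boole]
    have hB' : ∀ j, ((B.filter fun x => P j x ≠ 0).card : ℚ) = ∑ x ∈ B, (if P j x ≠ 0 then (1:ℚ) else 0) := by
      intro j; rw [Finset.sum_boole]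
    have eA : (7 / 12 : ℚ) * A.card ≤ ∑ j, μ j * ((A.filter fun x => P j x ≠ 0).card : ℚ) := by
      simp only [hA', Finset.mul_sum]
      rw [Finset.sum_comm]
      calc (7 / 12 : ℚ) * A.card = ∑ x ∈ A, (7 / 12 : ℚ) := by
            rw [Finset.sum_const, nsmul_eq_mul, mul_comm]
        _ ≤ _ := Finset.sum_le_sum fun x hx => hG x (Finset.mem_filter.mp hx).1
    have eB : ∑ j, μ j * ((B.filter fun x => P j x ≠ 0).card : ℚ) ≤ (5 / 12 : ℚ) * B.card := by
      simp only [hB', Finset.mul_sum]
      rw [Finset.sum_comm]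
      calc _ ≤ ∑ x ∈ B, (5 / 12 : ℚ) := Finset.sum_le_sum fun x hx => hZ x (Finset.mem_filter.mp hx).1
        _ = (5 / 12 : ℚ) * B.card := by
            rw [Finset.sum_const, nsmul_eq_mul, mul_comm]
    have haQ : (0 : ℚ) < A.card := by exact_mod_cast ha
    have hex : ∃ j, 0 < (A.filter fun x => P j x ≠ 0).card ∧
        6 * A.card * (B.filter fun x => P j x ≠ 0).card ≤
          5 * B.card * (A.filter fun x => P j x ≠ 0).card := by
      by_cases hb0 : B.card = 0
      · have hBe : B = ∅ := Finset.card_eq_zero.mp hb0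
        by_contra hno
        push Not at hno
        have hz : ∀ j, (A.filter fun x => P j x ≠ 0).card = 0 := by
          intro j
          by_contra hj
          have h1 := hno j (Nat.pos_of_ne_zero hj)
          rw [hb0, hBe] at h1
          simp at h1
        have : (7 / 12 : ℚ) * A.card ≤ 0 := by
          refine eA.trans ?_
          apply Finset.sum_nonpos
          intro j _
          rw [hz j]; simp
        linarith
      · have hbQ : (0 : ℚ) < B.card := by
          have : 0 < B.card := Nat.pos_of_ne_zero hb0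
          exact_mod_cast this
        have hpos : 0 < ∑ j, μ j * (5 * (B.card : ℚ) * (A.filter fun x => P j x ≠ 0).card -
            6 * (A.card : ℚ) * (B.filter fun x => P j x ≠ 0).card) := by
          have : ∑ j, μ j * (5 * (B.card : ℚ) * (A.filter fun x => P j x ≠ 0).card -
            6 * (A.card : ℚ) * (B.filter fun x => P j x ≠ 0).card) =
            5 * (B.card : ℚ) * ∑ j, μ j * ((A.filter fun x => P j x ≠ 0).card : ℚ) -
            6 * (A.card : ℚ) * ∑ j, μ j * ((B.filter fun x => P j x ≠ 0).card : ℚ) := by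
            rw [Finset.mul_sum, Finset.mul_sum, ← Finset.sum_sub_distrib]
            apply Finset.sum_congr rfl
            intro j _
            ring
          rw [this]
          have h1 : 5 * (B.card : ℚ) * ((7 / 12 : ℚ) * A.card) ≤
              5 * (B.card : ℚ) * ∑ j, μ j * ((A.filter fun x => P j x ≠ 0).card : ℚ) :=
            mul_le_mul_of_nonneg_left eA (by positivity)
          have h2 : 6 * (A.card : ℚ) * ∑ j, μ j * ((B.filter fun x => P j x ≠ 0).card : ℚ) ≤
              6 * (A.card : ℚ) * ((5 / 12 : ℚ) * B.card) :=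
            mul_le_mul_of_nonneg_left eB (by positivity)
          have h3 : 0 < (A.card : ℚ) * B.card := mul_pos haQ hbQ
          nlinarith
        obtain ⟨j, _, hj⟩ := Finset.exists_lt_of_sum_lt (s := Finset.univ) (f := fun _ : J => (0:ℚ)) (by simpa using hpos)
        have hj2 : 0 < 5 * (B.card : ℚ) * (A.filter fun x => P j x ≠ 0).card -
            6 * (A.card : ℚ) * (B.filter fun x => P j x ≠ 0).card := by
          by_contra hneg
          rw [not_lt] at hneg
          have := mul_nonpos_of_nonneg_of_nonpos (hμ j) hneg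
          linarith
        have hj3 : 6 * (A.card : ℚ) * (B.filter fun x => P j x ≠ 0).card <
            5 * (B.card : ℚ) * (A.filter fun x => P j x ≠ 0).card := by linarith
        have hj4 : 6 * A.card * (B.filter fun x => P j x ≠ 0).card <
            5 * B.card * (A.filter fun x => P j x ≠ 0).card := by exact_mod_cast hj3
        refine ⟨j, ?_, hj4.le⟩
        by_contra h0
        have h00 : (A.filter fun x => P j x ≠ 0).card = 0 := by omega
        rw [h00] at hj4
        simp at hj4
    obtain ⟨j, hj1, hj2⟩ := hex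
    have fA : (G.filter fun x => (q * P j) x ≠ 0) = A.filter fun x => P j x ≠ 0 := by
      ext x
      simp only [hA, Finset.mem_filter, Pi.mul_apply, ne_eq, mul_eq_zero, not_or, and_assoc]
    have fB : (Z.filter fun x => (q * P j) x ≠ 0) = B.filter fun x => P j x ≠ 0 := by
      ext x
      simp only [hB, Finset.mem_filter, Pi.mul_apply, ne_eq, mul_eq_zero, not_or, and_assoc]
    refine ⟨q * P j, ?_, ?_, ?_⟩
    · rw [Nat.succ_mul]
      exact mul_mem_LD hq (hP j)
    · rw [fA]; exact hj1
    · rw [fA, fB]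
      set a' := (A.filter fun x => P j x ≠ 0).card
      set b' := (B.filter fun x => P j x ≠ 0).card
      have h1 : A.card * (b' * 6 ^ (ℓ + 1) * G.card) ≤ A.card * (a' * 5 ^ (ℓ + 1) * Z.card) := by
        calc A.card * (b' * 6 ^ (ℓ + 1) * G.card) = (6 * A.card * b') * (6 ^ ℓ * G.card) := by ring
          _ ≤ (5 * B.card * a') * (6 ^ ℓ * G.card) := Nat.mul_le_mul_right _ hj2
          _ = (5 * a') * (B.card * 6 ^ ℓ * G.card) := by ring
          _ ≤ (5 * a') * (A.card * 5 ^ ℓ * Z.card) := Nat.mul_le_mul_left _ hb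
          _ = A.card * (a' * 5 ^ (ℓ + 1) * Z.card) := by ring
      exact Nat.le_of_mul_le_mul_left h1 ha

/-- Consequence: if every point outside `Z` has weight at least `κ` and
`2κ > card ι + 2 ℓ D`, then `6^ℓ |G| ≤ (card ι + 1) 5^ℓ |Z|`. -/
lemma core {F : Type} [Field F] {ι : Type} [Fintype ι] [DecidableEq ι] {J : Type} [Fintype J]
    (μ : J → ℚ) (hμ : ∀ j, 0 ≤ μ j) (P : J → (ι → Bool) → F) {D : ℕ} (hP : ∀ j, P j ∈ LD F ι D)
    (G Z : Finset (ι → Bool)) (hGZ : Disjoint G Z) [DecidableEq F]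
    (hG : ∀ x ∈ G, 7 / 12 ≤ ∑ j, μ j * (if P j x ≠ 0 then 1 else 0))
    (hZ : ∀ x ∈ Z, ∑ j, μ j * (if P j x ≠ 0 then 1 else 0) ≤ 5 / 12) (ℓ κ : ℕ)
    (hZκ : ∀ x, x ∉ Z → κ ≤ wt x) (hκ : Fintype.card ι + 2 * (ℓ * D) < 2 * κ) :
    6 ^ ℓ * G.card ≤ (Fintype.card ι + 1) * (5 ^ ℓ * Z.card) := by
  classical
  by_cases hG0 : G.Nonempty
  · obtain ⟨q, hq, ha, hb⟩ := amplify μ hμ P hP G Z hG0 hG hZ ℓ
    have hrob := robust Z hZκ q hq hκ (Finset.univ.filter fun x => q x ≠ 0) (by simp)
    have h1 : (Finset.univ.filter fun x => q x ≠ 0) ∩ Z = Z.filter fun x => q x ≠ 0 := by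
      ext x
      simp only [Finset.mem_inter, Finset.mem_filter, Finset.mem_univ, true_and]
      tauto
    rw [h1] at hrob
    have h2 : (G.filter fun x => q x ≠ 0).card ≤ (Finset.univ.filter fun x => q x ≠ 0).card :=
      Finset.card_le_card (Finset.filter_subset_filter _ (Finset.subset_univ _))
    set a := (G.filter fun x => q x ≠ 0).card
    set b := (Z.filter fun x => q x ≠ 0).card
    have h3 : a ≤ (Fintype.card ι + 1) * b := h2.trans hrob
    have h4 : a * (6 ^ ℓ * G.card) ≤ a * ((Fintype.card ι + 1) * (5 ^ ℓ * Z.card)) := by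
      calc a * (6 ^ ℓ * G.card) ≤ ((Fintype.card ι + 1) * b) * (6 ^ ℓ * G.card) :=
            Nat.mul_le_mul_right _ h3
        _ = (Fintype.card ι + 1) * (b * 6 ^ ℓ * G.card) := by ring
        _ ≤ (Fintype.card ι + 1) * (a * 5 ^ ℓ * Z.card) := Nat.mul_le_mul_left _ hb
        _ = a * ((Fintype.card ι + 1) * (5 ^ ℓ * Z.card)) := by ring
    exact Nat.le_of_mul_le_mul_left h4 ha
  · rw [Finset.not_nonempty_iff_eq_empty] at hG0
    subst hG0
    simp

end Pool.Agent.Lib20
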