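import Pool.Agent.Lib_helper20.Family

namespace Pool.Agent.Lib20

open Finset

/-- Number of points of the cube of weight at least `k`. -/
lemma choose_le_card (n k : ℕ) :
    n.choose k ≤ (Finset.univ.filter fun y : Fin n → Bool => k ≤ wt y).card := by
  classical
  have h : (Finset.powersetCard k (Finset.univ : Finset (Fin n))).card = n.choose k := by
    rw [Finset.card_powersetCard, Finset.card_univ, Fintype.card_fin]
  rw [← h]
  apply Finset.card_le_card_of_injOn (fun T => fun i => decide (i ∈ T))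
  · intro T hT
    have hT' : T.card = k := (Finset.mem_powersetCard.mp hT).2
    simp only [Finset.coe_filter, Finset.mem_univ, true_and, Set.mem_ofPred_eq]
    have : wt (fun i => decide (i ∈ T)) = k := by
      rw [wt, ← hT']
      congr 1
      ext i; simp
    omega
  · intro S _ T _ hST
    ext i
    have := congrFun hST i
    simpa using this

/-- Block thresholds: every block of `x` has weight at least `k`. -/
def Good {t n : ℕ} (k : ℕ) (x : Fin t × Fin n → Bool) : Prop := ∀ j, k ≤ wt (fun i => x (j, i))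

lemma good_wt {t n : ℕ} (k : ℕ) (x : Fin t × Fin n → Bool) (h : Good k x) : t * k ≤ wt x := by
  classical
  have h1 : wt x = ∑ j : Fin t, wt (fun i => x (j, i)) := by
    simp only [wt, Finset.card_filter]
    rw [Fintype.sum_prod_type]
  rw [h1]
  calc t * k = ∑ _j : Fin t, k := by simp
    _ ≤ _ := Finset.sum_le_sum fun j _ => h j

lemma card_good (t n k : ℕ) :
    (n.choose k) ^ t ≤ Nat.card {x : Fin t × Fin n → Bool // Good k x} := by
  classical
  rw [Nat.card_eq_fintype_card, Fintype.card_subtype]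
  calc (n.choose k) ^ t ≤ ((Finset.univ.filter fun y : Fin n → Bool => k ≤ wt y).card) ^ t :=
        Nat.pow_le_pow_left (choose_le_card n k) t
    _ = (Fintype.piFinset (fun _ : Fin t => Finset.univ.filter fun y : Fin n → Bool => k ≤ wt y)).card := by
        rw [Fintype.card_piFinset_const]
    _ ≤ _ := by
        apply Finset.card_le_card_of_injOn (fun f => fun ji => f ji.1 ji.2)
        · intro f hf
          rw [Finset.mem_coe, Fintype.mem_piFinset] at hf
          simp only [Finset.coe_filter, Finset.mem_univ, true_and, Set.mem_ofPred_eq]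
          intro j
          exact (Finset.mem_filter.mp (hf j)).2
        · intro f _ g _ hfg
          funext j i
          exact congrFun hfg (j, i)

variable {p : ℕ} [hp : Fact p.Prime]

/-- Main combinatorial bound for witnesses of block thresholds. -/
lemma block_bound {t h τ m d s k0 ℓ : ℕ} (hk0 : 1 ≤ k0) (hsk : 12 * s ≤ 2 ^ k0)
    {W Ω : Type} [Fintype W] [Fintype Ω] [Nonempty Ω] (hW : Fintype.card W ≤ 2 ^ m)
    (V : W → Ω → Circuit (Fin t × Fin (2 * h)))
    (hs : ∀ w ω, Circuit.size (V w ω) ≤ s) (hd : ∀ w ω, Circuit.depth (V w ω) ≤ d)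
    (hcomp : ∀ x, Good (h + τ) x → ∃ w, 2 * Fintype.card Ω ≤
      3 * Nat.card {ω : Ω // Circuit.eval p (V w ω) x = true})
    (hsound : ∀ x, ¬ Good (h + τ) x → ∀ w,
      3 * Nat.card {ω : Ω // Circuit.eval p (V w ω) x = true} ≤ Fintype.card Ω)
    (hℓ : ℓ * ((p - 1) * k0) ^ d < t * τ) :
    6 ^ ℓ * ((2 * h).choose (h + τ)) ^ t ≤ (2 * h * t + 1) * (5 ^ ℓ * 2 ^ (2 * h * t + m)) := by
  classical
  set H : Finset (Fin t × Fin (2 * h) → Bool) := Finset.univ.filter fun x => Good (h + τ) x with hH
  have hHcard : ((2 * h).choose (h + τ)) ^ t ≤ H.card := by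
    have := card_good t (2 * h) (h + τ)
    rwa [Nat.card_eq_fintype_card, Fintype.card_subtype] at this
  let Gw : W → Finset (Fin t × Fin (2 * h) → Bool) := fun w => H.filter fun x =>
    2 * Fintype.card Ω ≤ 3 * Nat.card {ω : Ω // Circuit.eval p (V w ω) x = true}
  have hGw : ∀ w, 6 ^ ℓ * (Gw w).card ≤ (2 * h * t + 1) * (5 ^ ℓ * 2 ^ (2 * h * t)) := by
    intro w
    obtain ⟨J, hJ, μ, P, hμ, hP, hP1, hP2⟩ := family (p := p) (V w) (hs w) (hd w) k0 hk0 hsk
    have hcore := core μ hμ P hP (Gw w) Hᶜ (by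
        rw [Finset.disjoint_left]
        intro x hx hx'
        exact (Finset.mem_compl.mp hx') (Finset.mem_filter.mp hx).1)
      (fun x hx => hP1 x (Finset.mem_filter.mp hx).2)
      (fun x hx => hP2 x (hsound x (fun hg => (Finset.mem_compl.mp hx) (by simp [hH, hg])) w))
      ℓ (t * (h + τ))
      (fun x hx => by
        apply good_wt
        rw [Finset.mem_compl, not_not] at hx
        exact (Finset.mem_filter.mp hx).2)
      (by
        rw [Fintype.card_prod, Fintype.card_fin, Fintype.card_fin]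
        nlinarith)
    rw [Fintype.card_prod, Fintype.card_fin, Fintype.card_fin] at hcore
    have hcompl : (Hᶜ).card ≤ 2 ^ (2 * h * t) := by
      calc (Hᶜ).card ≤ Fintype.card (Fin t × Fin (2 * h) → Bool) := Finset.card_le_univ _
        _ = 2 ^ (2 * h * t) := by
          rw [Fintype.card_fun, Fintype.card_bool, Fintype.card_prod, Fintype.card_fin, Fintype.card_fin, mul_comm t]
    calc 6 ^ ℓ * (Gw w).card ≤ (t * (2 * h) + 1) * (5 ^ ℓ * (Hᶜ).card) := hcore
      _ ≤ (t * (2 * h) + 1) * (5 ^ ℓ * 2 ^ (2 * h * t)) := by gcongr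
      _ = _ := by rw [mul_comm t]
  have hcover : H.card ≤ ∑ w, (Gw w).card := by
    calc H.card ≤ (Finset.univ.biUnion Gw).card := by
          apply Finset.card_le_card
          intro x hx
          rw [Finset.mem_biUnion]
          obtain ⟨w, hw⟩ := hcomp x (Finset.mem_filter.mp hx).2
          exact ⟨w, Finset.mem_univ _, Finset.mem_filter.mpr ⟨hx, hw⟩⟩
      _ ≤ _ := Finset.card_biUnion_le
  calc 6 ^ ℓ * ((2 * h).choose (h + τ)) ^ t ≤ 6 ^ ℓ * ∑ w, (Gw w).card :=
        Nat.mul_le_mul_left _ (hHcard.trans hcover)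
    _ = ∑ w, 6 ^ ℓ * (Gw w).card := Finset.mul_sum _ _ _
    _ ≤ ∑ _w : W, (2 * h * t + 1) * (5 ^ ℓ * 2 ^ (2 * h * t)) := Finset.sum_le_sum fun w _ => hGw w
    _ = Fintype.card W * ((2 * h * t + 1) * (5 ^ ℓ * 2 ^ (2 * h * t))) := by simp
    _ ≤ 2 ^ m * ((2 * h * t + 1) * (5 ^ ℓ * 2 ^ (2 * h * t))) := Nat.mul_le_mul_right _ hW
    _ = _ := by rw [pow_add]; ring

end Pool.Agent.Lib20
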