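import Pool.Agent.Lib_helper20.RS

namespace Pool.Agent.Lib20

open Finset

variable {p : ℕ} [hp : Fact p.Prime] {ι : Type} [Fintype ι] [DecidableEq ι]

omit [Fintype ι] [DecidableEq ι] in
lemma depths_le {C : Circuit ι} {d : ℕ} (h : Circuit.depth C ≤ d) : ∀ e ∈ Circuit.depths C, e ≤ d := by
  intro e he
  have : e ≤ (Circuit.depths C).foldr max 0 := by
    have := foldr_max_le (fun a : ℕ => a) (Circuit.depths C) e he
    simpa using this
  exact this.trans h

lemma approx_eval (C : Circuit ι) {s d : ℕ} (hs : Circuit.size C ≤ s) (hd : Circuit.depth C ≤ d)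
    (k0 : ℕ) (hk0 : 1 ≤ k0) (hsk : 12 * s ≤ 2 ^ k0) :
    ∃ (I : Type) (_ : Fintype I) (_ : Nonempty I) (P : I → (ι → Bool) → ZMod p),
      (∀ i, P i ∈ LD (ZMod p) ι (((p - 1) * k0) ^ d)) ∧
      (∀ x : ι → Bool, 12 * Nat.card {i : I // ¬ P i x = toF p (Circuit.eval p C x)} ≤ Fintype.card I) := by
  classical
  have hB : 1 ≤ (p - 1) * k0 := by
    have := hp.out.two_le
    exact Nat.mul_pos (by omega) hk0
  obtain ⟨I, hI1, hI2, P, hP1, hP2⟩ := approx_circuit (p := p) C k0 hk0
  refine ⟨I, hI1, hI2, fun i => (P i).headD 0, ?_, ?_⟩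
  · intro i
    show (P i).headD 0 ∈ _
    have h := hP1 i
    cases C with
    | nil =>
      simp only [Circuit.depths] at h
      have h2 : P i = [] := by
        generalize P i = l at h
        cases h
        rfl
      rw [h2]
      exact Submodule.zero_mem _
    | cons g C =>
      have hdd := depths_le hd
      simp only [Circuit.depths] at h hdd
      generalize P i = l at h ⊢
      cases h with
      | cons h1 h2 =>
        simp only [List.headD_cons]
        exact LD_mono (Nat.pow_le_pow_right hB (hdd _ (List.mem_cons_self))) h1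
  · intro x
    have h := hP2 x
    have hle : Nat.card {i : I // ¬ (P i).headD 0 x = toF p (Circuit.eval p C x)} ≤
        Nat.card {i : I // ¬ (P i).map (fun f => f x) = (Circuit.vals p x C).map (toF p)} := by
      rw [Nat.card_eq_fintype_card, Nat.card_eq_fintype_card, Fintype.card_subtype, Fintype.card_subtype]
      apply Finset.card_le_card
      intro i
      simp only [Finset.mem_filter, Finset.mem_univ, true_and]
      intro hi hcon
      apply hi
      cases hl : P i with
      | nil =>
        rw [hl] at hcon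
        simp only [List.map_nil] at hcon
        have h3 : Circuit.vals p x C = [] := List.map_eq_nil_iff.mp hcon.symm
        simp [Circuit.eval, h3, toF]
      | cons f l =>
        rw [hl] at hcon
        simp only [List.map_cons] at hcon
        cases hv : Circuit.vals p x C with
        | nil => rw [hv] at hcon; simp at hcon
        | cons b vs =>
          rw [hv] at hcon
          simp only [List.map_cons, List.cons.injEq] at hcon
          simp [Circuit.eval, hv, hcon.1]
    have hs' : C.length ≤ s := hs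
    have h2 : 2 ^ k0 * (12 * Nat.card {i : I // ¬ (P i).headD 0 x = toF p (Circuit.eval p C x)}) ≤
        2 ^ k0 * Fintype.card I := by
      calc 2 ^ k0 * (12 * Nat.card {i : I // ¬ (P i).headD 0 x = toF p (Circuit.eval p C x)})
          ≤ 2 ^ k0 * (12 * Nat.card {i : I // ¬ (P i).map (fun f => f x) = (Circuit.vals p x C).map (toF p)}) :=
            Nat.mul_le_mul_left _ (Nat.mul_le_mul_left _ hle)
        _ = 12 * (2 ^ k0 * Nat.card {i : I // ¬ (P i).map (fun f => f x) = (Circuit.vals p x C).map (toF p)}) := by ring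
        _ ≤ 12 * (C.length * Fintype.card I) := Nat.mul_le_mul_left _ h
        _ ≤ 12 * (s * Fintype.card I) := Nat.mul_le_mul_left _ (Nat.mul_le_mul_right _ hs')
        _ = (12 * s) * Fintype.card I := by ring
        _ ≤ 2 ^ k0 * Fintype.card I := Nat.mul_le_mul_right _ hsk
    exact Nat.le_of_mul_le_mul_left h2 (by positivity)

/-- A randomised circuit yields a weighted family of low-degree functions. -/
lemma family {Ω : Type} [Fintype Ω] [Nonempty Ω] (V : Ω → Circuit ι) {s d : ℕ}
    (hs : ∀ ω, Circuit.size (V ω) ≤ s) (hd : ∀ ω, Circuit.depth (V ω) ≤ d)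
    (k0 : ℕ) (hk0 : 1 ≤ k0) (hsk : 12 * s ≤ 2 ^ k0) :
    ∃ (J : Type) (_ : Fintype J) (μ : J → ℚ) (P : J → (ι → Bool) → ZMod p),
      (∀ j, 0 ≤ μ j) ∧ (∀ j, P j ∈ LD (ZMod p) ι (((p - 1) * k0) ^ d)) ∧
      (∀ x : ι → Bool, 2 * Fintype.card Ω ≤ 3 * Nat.card {ω : Ω // Circuit.eval p (V ω) x = true} →
        7 / 12 ≤ ∑ j, μ j * (if P j x ≠ 0 then 1 else 0)) ∧
      (∀ x : ι → Bool, 3 * Nat.card {ω : Ω // Circuit.eval p (V ω) x = true} ≤ Fintype.card Ω →
        ∑ j, μ j * (if P j x ≠ 0 then 1 else 0) ≤ 5 / 12) := by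
  classical
  choose I hI1 hI2 P hP1 hP2 using fun ω => approx_eval (p := p) (V ω) (hs ω) (hd ω) k0 hk0 hsk
  obtain ⟨n, hndef⟩ : ∃ n : ℚ, n = (Fintype.card Ω : ℚ) := ⟨_, rfl⟩
  have hn : 0 < n := by
    have : 0 < Fintype.card Ω := Fintype.card_pos
    rw [hndef]
    exact_mod_cast this
  -- acceptance weight given ω
  let a : Ω → (ι → Bool) → ℚ := fun ω x => ∑ i : I ω, (1 / (Fintype.card (I ω) : ℚ)) * (if P ω i x ≠ 0 then 1 else 0)
  have hsum : ∀ x, ∑ j : (Σ ω, I ω), (1 / n * (1 / (Fintype.card (I j.1) : ℚ))) * (if P j.1 j.2 x ≠ 0 then 1 else 0) =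
      1 / n * ∑ ω, a ω x := by
    intro x
    rw [Fintype.sum_sigma, Finset.mul_sum]
    apply Finset.sum_congr rfl
    intro ω _
    simp only [a, Finset.mul_sum, mul_assoc]
  have hacard : ∀ ω x, a ω x = (1 / (Fintype.card (I ω) : ℚ)) * ((Finset.univ.filter fun i => P ω i x ≠ 0).card : ℚ) := by
    intro ω x
    simp only [a]
    rw [← Finset.mul_sum, Finset.sum_boole]
  have hIpos : ∀ ω, (0 : ℚ) < Fintype.card (I ω) := by
    intro ω
    have : 0 < Fintype.card (I ω) := Fintype.card_pos
    exact_mod_cast this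
  have ha0 : ∀ ω x, 0 ≤ a ω x := by
    intro ω x
    rw [hacard]
    have := hIpos ω
    positivity
  have ha1 : ∀ ω x, a ω x ≤ 1 := by
    intro ω x
    rw [hacard, one_div, inv_mul_le_iff₀ (hIpos ω), mul_one]
    have : (Finset.univ.filter fun i => P ω i x ≠ 0).card ≤ Fintype.card (I ω) := Finset.card_le_univ _
    exact_mod_cast this
  have hbad : ∀ ω x, 12 * (Finset.univ.filter fun i => ¬ P ω i x = toF p (Circuit.eval p (V ω) x)).card ≤ Fintype.card (I ω) := by
    intro ω x
    have := hP2 ω x
    rw [Nat.card_eq_fintype_card, Fintype.card_subtype] at this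
    exact this
  have hat : ∀ ω x, Circuit.eval p (V ω) x = true → 11 / 12 ≤ a ω x := by
    intro ω x h
    have h1 := hbad ω x
    have h2 : (Finset.univ.filter fun i => ¬ P ω i x ≠ 0).card ≤
        (Finset.univ.filter fun i => ¬ P ω i x = toF p (Circuit.eval p (V ω) x)).card := by
      apply Finset.card_le_card
      intro i
      simp only [Finset.mem_filter, Finset.mem_univ, true_and, ne_eq, not_not]
      intro hi
      rw [hi, h]
      simp [toF]
    have h3 := Finset.card_filter_add_card_filter_not (s := (Finset.univ : Finset (I ω))) (fun i => P ω i x ≠ 0)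
    rw [Finset.card_univ] at h3
    have h4 : 11 * Fintype.card (I ω) ≤ 12 * (Finset.univ.filter fun i => P ω i x ≠ 0).card := by omega
    have h5 : (11 : ℚ) * Fintype.card (I ω) ≤ 12 * ((Finset.univ.filter fun i => P ω i x ≠ 0).card : ℚ) := by
      exact_mod_cast h4
    rw [hacard, one_div, le_inv_mul_iff₀ (hIpos ω)]
    linarith
  have haf : ∀ ω x, Circuit.eval p (V ω) x = false → a ω x ≤ 1 / 12 := by
    intro ω x h
    have h1 := hbad ω x
    have h2 : (Finset.univ.filter fun i => P ω i x ≠ 0).card ≤
        (Finset.univ.filter fun i => ¬ P ω i x = toF p (Circuit.eval p (V ω) x)).card := by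
      apply Finset.card_le_card
      intro i
      simp only [Finset.mem_filter, Finset.mem_univ, true_and, ne_eq]
      intro hi
      rw [h]
      simpa [toF] using hi
    have h4 : 12 * (Finset.univ.filter fun i => P ω i x ≠ 0).card ≤ Fintype.card (I ω) := by omega
    have h5 : (12 : ℚ) * ((Finset.univ.filter fun i => P ω i x ≠ 0).card : ℚ) ≤ Fintype.card (I ω) := by
      exact_mod_cast h4
    rw [hacard, one_div, inv_mul_le_iff₀ (hIpos ω)]
    linarith
  refine ⟨Σ ω, I ω, inferInstance, fun j => 1 / n * (1 / (Fintype.card (I j.1) : ℚ)), fun j => P j.1 j.2, ?_, ?_, ?_, ?_⟩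
  · intro j
    have := hIpos j.1
    positivity
  · intro j
    exact hP1 j.1 j.2
  · intro x hx
    rw [hsum, one_div, le_inv_mul_iff₀ hn]
    rw [Nat.card_eq_fintype_card, Fintype.card_subtype] at hx
    set T := Finset.univ.filter fun ω => Circuit.eval p (V ω) x = true with hT
    have h1 : (11 / 12 : ℚ) * T.card ≤ ∑ ω, a ω x := by
      calc (11 / 12 : ℚ) * T.card = ∑ ω ∈ T, (11 / 12 : ℚ) := by
            rw [Finset.sum_const, nsmul_eq_mul, mul_comm]
        _ ≤ ∑ ω ∈ T, a ω x := Finset.sum_le_sum fun ω hω => hat ω x (Finset.mem_filter.mp hω).2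
        _ ≤ ∑ ω, a ω x := Finset.sum_le_sum_of_subset_of_nonneg (Finset.filter_subset _ _) fun ω _ _ => ha0 ω x
    have h2 : (2 : ℚ) * n ≤ 3 * T.card := by rw [hndef]; exact_mod_cast hx
    linarith
  · intro x hx
    rw [hsum, one_div, inv_mul_le_iff₀ hn]
    rw [Nat.card_eq_fintype_card, Fintype.card_subtype] at hx
    set T := Finset.univ.filter fun ω => Circuit.eval p (V ω) x = true with hT
    have h1 : ∑ ω, a ω x ≤ T.card + (1 / 12 : ℚ) * n := by
      have hsplit := Finset.sum_filter_add_sum_filter_not (Finset.univ : Finset Ω) (fun ω => Circuit.eval p (V ω) x = true) (fun ω => a ω x)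
      rw [← hsplit]
      apply add_le_add
      · calc ∑ ω ∈ T, a ω x ≤ ∑ ω ∈ T, (1 : ℚ) := Finset.sum_le_sum fun ω _ => ha1 ω x
          _ = T.card := by simp
      · calc ∑ ω ∈ Finset.univ.filter (fun ω => ¬ Circuit.eval p (V ω) x = true), a ω x
            ≤ ∑ ω ∈ Finset.univ.filter (fun ω => ¬ Circuit.eval p (V ω) x = true), (1 / 12 : ℚ) := by
              apply Finset.sum_le_sum
              intro ω hω
              apply haf
              have := (Finset.mem_filter.mp hω).2
              simpa using this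
          _ = (1 / 12 : ℚ) * (Finset.univ.filter (fun ω => ¬ Circuit.eval p (V ω) x = true)).card := by
              rw [Finset.sum_const, nsmul_eq_mul, mul_comm]
          _ ≤ (1 / 12 : ℚ) * n := by
              apply mul_le_mul_of_nonneg_left _ (by norm_num)
              have : (Finset.univ.filter (fun ω => ¬ Circuit.eval p (V ω) x = true)).card ≤ Fintype.card Ω := Finset.card_le_univ _
              rw [hndef]
              exact_mod_cast this
    have h2 : (3 : ℚ) * T.card ≤ n := by rw [hndef]; exact_mod_cast hx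
    linarith

end Pool.Agent.Lib20
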