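import Pool.Agent.Lib_helper20.FormDefs

/-!
Eliminating witness bits that are read at most once.
-/

namespace Pool.Agent.Lib20

open Finset

namespace Form

variable {ι κ : Type} [DecidableEq κ]

/-- The value depends only on the witness bits that occur. -/
lemma eval_congr (p : ℕ) (x : ι → Bool) (y z : κ → Bool) (φ : Form ι κ)
    (h : ∀ k, reads k φ ≠ 0 → y k = z k) : eval p x y φ = eval p x z φ := by
  induction φ with
  | const b => rfl
  | inp i => rfl
  | wit k =>
    simp only [eval]
    apply h
    simp [reads]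
  | neg f ih =>
    simp only [eval]
    rw [ih h]
  | and n f ih =>
    have : ∀ i, eval p x y (f i) = eval p x z (f i) := fun i => ih i fun k hk => h k (by
      simp only [reads]
      intro h0
      exact hk (Finset.sum_eq_zero_iff.mp h0 i (Finset.mem_univ i)))
    simp only [eval, this]
  | or n f ih =>
    have : ∀ i, eval p x y (f i) = eval p x z (f i) := fun i => ih i fun k hk => h k (by
      simp only [reads]
      intro h0
      exact hk (Finset.sum_eq_zero_iff.mp h0 i (Finset.mem_univ i)))
    simp only [eval, this]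
  | mod n f ih =>
    have : ∀ i, eval p x y (f i) = eval p x z (f i) := fun i => ih i fun k hk => h k (by
      simp only [reads]
      intro h0
      exact hk (Finset.sum_eq_zero_iff.mp h0 i (Finset.mem_univ i)))
    simp only [eval, this]

/-- The value `b` is achieved by some setting of the witness bits extending `w` on `R`. -/
def Can (p : ℕ) (R : Finset κ) (w : R → Bool) (x : ι → Bool) (φ : Form ι κ) (b : Bool) : Prop :=
  ∃ y : κ → Bool, (∀ k : R, y k.1 = w k) ∧ eval p x y φ = b

/-- Children sharing no free witness bit can be set independently. -/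
lemma glue (p : ℕ) (R : Finset κ) (w : R → Bool) (x : ι → Bool) {n : ℕ} (f : Fin n → Form ι κ)
    (h1 : ∀ k, k ∉ R → ∑ i, reads k (f i) ≤ 1) (v : Fin n → Bool)
    (hv : ∀ i, Can p R w x (f i) (v i)) :
    ∃ y : κ → Bool, (∀ k : R, y k.1 = w k) ∧ ∀ i, eval p x y (f i) = v i := by
  classical
  choose y hy1 hy2 using hv
  refine ⟨fun k => if hk : k ∈ R then w ⟨k, hk⟩ else
    if h : ∃ i, reads k (f i) ≠ 0 then y h.choose k else false, ?_, ?_⟩
  · intro k
    simp only [k.2, dif_pos]
  · intro i
    rw [← hy2 i]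
    apply eval_congr
    intro k hk
    by_cases hkR : k ∈ R
    · rw [dif_pos hkR]
      exact (hy1 i ⟨k, hkR⟩).symm
    · rw [dif_neg hkR]
      have hex : ∃ i, reads k (f i) ≠ 0 := ⟨i, hk⟩
      rw [dif_pos hex]
      have heq : hex.choose = i := by
        by_contra hne
        have hs := hex.choose_spec
        have h2 := h1 k hkR
        have h3 : reads k (f hex.choose) + reads k (f i) ≤ ∑ j, reads k (f j) := by
          rw [← Finset.sum_pair (f := fun j => reads k (f j)) hne]
          exact Finset.sum_le_sum_of_subset (Finset.subset_univ _)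
        omega
      rw [heq]

section rules

variable (p : ℕ) (R : Finset κ) (w : R → Bool) (x : ι → Bool)

/-- Some extension of `w` exists. -/
lemma exists_ext : ∃ y : κ → Bool, ∀ k : R, y k.1 = w k := by
  classical
  exact ⟨fun k => if hk : k ∈ R then w ⟨k, hk⟩ else false, fun k => by simp only [k.2, dif_pos]⟩

lemma can_some (φ : Form ι κ) : ∃ b, Can p R w x φ b := by
  obtain ⟨y, hy⟩ := exists_ext R w
  exact ⟨_, y, hy, rfl⟩

lemma can_const (b c : Bool) : Can p R w x (const b : Form ι κ) c ↔ b = c := by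
  constructor
  · rintro ⟨y, _, h⟩; exact h
  · intro h
    obtain ⟨y, hy⟩ := exists_ext R w
    exact ⟨y, hy, h⟩

lemma can_inp (i : ι) (c : Bool) : Can p R w x (inp i : Form ι κ) c ↔ x i = c := by
  constructor
  · rintro ⟨y, _, h⟩; exact h
  · intro h
    obtain ⟨y, hy⟩ := exists_ext R w
    exact ⟨y, hy, h⟩

lemma can_wit_mem (k : κ) (hk : k ∈ R) (c : Bool) :
    Can p R w x (wit k : Form ι κ) c ↔ w ⟨k, hk⟩ = c := by
  constructor
  · rintro ⟨y, hy, h⟩; rw [← hy ⟨k, hk⟩]; exact h
  · intro h
    obtain ⟨y, hy⟩ := exists_ext R w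
    exact ⟨y, hy, by rw [← h, ← hy ⟨k, hk⟩]; rfl⟩

lemma can_wit_not_mem (k : κ) (hk : k ∉ R) (c : Bool) :
    Can p R w x (wit k : Form ι κ) c := by
  obtain ⟨y, hy⟩ := exists_ext R w
  refine ⟨Function.update y k c, ?_, ?_⟩
  · intro j
    rw [Function.update_of_ne]
    · exact hy j
    · intro h; exact hk (h ▸ j.2)
  · simp [eval]

lemma can_neg (f : Form ι κ) (c : Bool) : Can p R w x (neg f) c ↔ Can p R w x f (!c) := by
  constructor
  · rintro ⟨y, hy, h⟩
    refine ⟨y, hy, ?_⟩
    simp only [eval] at h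
    rw [← h, Bool.not_not]
  · rintro ⟨y, hy, h⟩
    refine ⟨y, hy, ?_⟩
    simp only [eval]
    rw [h, Bool.not_not]

variable {n : ℕ} (f : Fin n → Form ι κ)

lemma can_and_true (h1 : ∀ k, k ∉ R → ∑ i, reads k (f i) ≤ 1) :
    Can p R w x (and n f) true ↔ ∀ i, Can p R w x (f i) true := by
  constructor
  · rintro ⟨y, hy, h⟩ i
    simp only [eval, decide_eq_true_eq] at h
    exact ⟨y, hy, h i⟩
  · intro h
    obtain ⟨y, hy, h2⟩ := glue p R w x f h1 (fun _ => true) h
    exact ⟨y, hy, by simp only [eval, h2, implies_true, decide_true]⟩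

lemma can_and_false :
    Can p R w x (and n f) false ↔ ∃ i, Can p R w x (f i) false := by
  constructor
  · rintro ⟨y, hy, h⟩
    simp only [eval, decide_eq_false_iff_not, not_forall, Bool.not_eq_true] at h
    obtain ⟨i, hi⟩ := h
    exact ⟨i, y, hy, hi⟩
  · rintro ⟨i, y, hy, hi⟩
    refine ⟨y, hy, ?_⟩
    simp only [eval, decide_eq_false_iff_not, not_forall, Bool.not_eq_true]
    exact ⟨i, hi⟩

lemma can_or_false (h1 : ∀ k, k ∉ R → ∑ i, reads k (f i) ≤ 1) :
    Can p R w x (or n f) false ↔ ∀ i, Can p R w x (f i) false := by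
  constructor
  · rintro ⟨y, hy, h⟩ i
    simp only [eval, decide_eq_false_iff_not, not_exists, Bool.not_eq_true] at h
    exact ⟨y, hy, h i⟩
  · intro h
    obtain ⟨y, hy, h2⟩ := glue p R w x f h1 (fun _ => false) h
    exact ⟨y, hy, by simp [eval, h2]⟩

lemma can_or_true :
    Can p R w x (or n f) true ↔ ∃ i, Can p R w x (f i) true := by
  constructor
  · rintro ⟨y, hy, h⟩
    simp only [eval, decide_eq_true_eq] at h
    obtain ⟨i, hi⟩ := h
    exact ⟨i, y, hy, hi⟩
  · rintro ⟨i, y, hy, hi⟩
    refine ⟨y, hy, ?_⟩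
    simp only [eval, decide_eq_true_eq]
    exact ⟨i, hi⟩

open Classical in
/-- Possible values of a modular gate. `A` counts the children forced to be true,
the flexible children can be set at will. -/
lemma can_mod (h1 : ∀ k, k ∉ R → ∑ i, reads k (f i) ≤ 1) (c : Bool) :
    Can p R w x (mod n f) c ↔
      ∃ j, (∃ S : Finset (Fin n), S.card = j ∧ ∀ i ∈ S, Can p R w x (f i) true ∧ Can p R w x (f i) false) ∧
        decide (p ∣ (Finset.univ.filter fun i => Can p R w x (f i) true ∧
          ¬ Can p R w x (f i) false).card + j) = c := by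
  set A := Finset.univ.filter fun i => Can p R w x (f i) true ∧ ¬ Can p R w x (f i) false with hA
  constructor
  · rintro ⟨y, hy, h⟩
    set U := Finset.univ.filter fun i => eval p x y (f i) = true with hU
    have hsub : A ⊆ U := by
      intro i hi
      simp only [hA, hU, Finset.mem_filter, Finset.mem_univ, true_and] at hi ⊢
      by_contra hne
      rw [Bool.not_eq_true] at hne
      exact hi.2 ⟨y, hy, hne⟩
    refine ⟨(U \ A).card, ⟨U \ A, rfl, ?_⟩, ?_⟩
    · intro i hi
      simp only [hA, hU, Finset.mem_sdiff, Finset.mem_filter, Finset.mem_univ, true_and, not_and,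
        not_not] at hi
      have h2 : Can p R w x (f i) true := ⟨y, hy, hi.1⟩
      exact ⟨h2, hi.2 h2⟩
    · rw [Finset.card_sdiff_of_subset hsub, Nat.add_sub_cancel' (Finset.card_le_card hsub)]
      exact h
  · rintro ⟨j, ⟨S, hS, hflex⟩, hj⟩
    have hdisj : Disjoint A S := by
      rw [Finset.disjoint_left]
      intro i hi hiS
      exact (Finset.mem_filter.mp hi).2.2 (hflex i hiS).2
    obtain ⟨y, hy, h2⟩ := glue p R w x f h1 (fun i => decide (i ∈ A ∪ S)) (by
      intro i
      by_cases hi : i ∈ A ∪ S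
      · rw [decide_eq_true hi]
        rcases Finset.mem_union.mp hi with h | h
        · exact (Finset.mem_filter.mp h).2.1
        · exact (hflex i h).1
      · rw [decide_eq_false hi]
        obtain ⟨b, hb⟩ := can_some p R w x (f i)
        cases b
        · exact hb
        · by_contra hno
          apply hi
          apply Finset.mem_union_left
          simp only [hA, Finset.mem_filter, Finset.mem_univ, true_and]
          exact ⟨hb, hno⟩)
    refine ⟨y, hy, ?_⟩
    simp only [eval, h2, decide_eq_true_eq]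
    have : (Finset.univ.filter fun i => i ∈ A ∪ S) = A ∪ S := by
      ext i; simp
    rw [this, Finset.card_union_of_disjoint hdisj, hS]
    exact hj

/-- At least `j` children are flexible. -/
def Flex (j : ℕ) : Prop :=
  ∃ S : Finset (Fin n), S.card = j ∧ ∀ i ∈ S, Can p R w x (f i) true ∧ Can p R w x (f i) false

open Classical in
/-- Number of children forced to be true. -/
noncomputable def forced : ℕ := (Finset.univ.filter fun i => Can p R w x (f i) true ∧
  ¬ Can p R w x (f i) false).card

lemma can_mod' (h1 : ∀ k, k ∉ R → ∑ i, reads k (f i) ≤ 1) (c : Bool) :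
    Can p R w x (mod n f) c ↔
      ∃ j, Flex p R w x f j ∧ decide (p ∣ forced p R w x f + j) = c :=
  can_mod p R w x f h1 c

lemma flex_zero : Flex p R w x f 0 := ⟨∅, rfl, by simp⟩

lemma Flex.mono {i j : ℕ} (hij : i ≤ j) (h : Flex p R w x f j) : Flex p R w x f i := by
  obtain ⟨S, hS, h2⟩ := h
  obtain ⟨T, hT, hTc⟩ := Finset.exists_subset_card_eq (show i ≤ S.card by omega)
  exact ⟨T, hTc, fun i hi => h2 i (hT hi)⟩

lemma can_mod_true (hp : 2 ≤ p) (h1 : ∀ k, k ∉ R → ∑ i, reads k (f i) ≤ 1) :
    Can p R w x (mod n f) true ↔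
      ∃ j : Fin p, Flex p R w x f j ∧ p ∣ forced p R w x f + j := by
  rw [can_mod' p R w x f h1]
  simp only [decide_eq_true_eq]
  constructor
  · rintro ⟨j, hj, hd⟩
    refine ⟨⟨j % p, Nat.mod_lt _ (by omega)⟩, hj.mono _ _ _ _ _ (Nat.mod_le _ _), ?_⟩
    simp only
    rw [Nat.dvd_iff_mod_eq_zero] at hd ⊢
    rw [← hd]
    simp
  · rintro ⟨j, hj, hd⟩
    exact ⟨j, hj, hd⟩

lemma can_mod_false (hp : 2 ≤ p) (h1 : ∀ k, k ∉ R → ∑ i, reads k (f i) ≤ 1) :
    Can p R w x (mod n f) false ↔
      ¬ (¬ Flex p R w x f 1 ∧ p ∣ forced p R w x f) := by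
  rw [can_mod' p R w x f h1]
  simp only [decide_eq_false_iff_not]
  constructor
  · rintro ⟨j, hj, hd⟩ ⟨h2, h3⟩
    rcases Nat.eq_zero_or_pos j with h0 | h0
    · subst h0; exact hd h3
    · exact h2 (hj.mono _ _ _ _ _ h0)
  · intro h
    by_cases hd : p ∣ forced p R w x f
    · have h2 : Flex p R w x f 1 := by
        by_contra h3
        exact h ⟨h3, hd⟩
      refine ⟨1, h2, ?_⟩
      intro h3
      have h4 := (Nat.dvd_add_right hd).mp h3
      have := Nat.le_of_dvd one_pos h4
      omega
    · exact ⟨0, flex_zero p R w x f, hd⟩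

end rules

end Form

end Pool.Agent.Lib20
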