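import Pool.Agent.Lib_helper20.RS
import Pool.Agent.Lib_helper20.FormCan

/-!
Low-degree approximation of the functions stating that the formula can take the value `b`.
-/

namespace Pool.Agent.Lib20

open Finset

section counting

/-- Union bound over a product. -/
lemma pi_bad {A : Type} [Fintype A] [DecidableEq A] (I : A → Type) [∀ a, Fintype (I a)]
    (bad : ∀ a, I a → Prop) (N : ℕ) (c : A → ℕ)
    (h : ∀ a, N * Nat.card {i : I a // bad a i} ≤ c a * Fintype.card (I a)) :
    N * Nat.card {f : ∀ a, I a // ∃ a, bad a (f a)} ≤ (∑ a, c a) * Fintype.card (∀ a, I a) := by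
  classical
  have h1 : ∀ a, N * (Finset.univ.filter fun f : ∀ a, I a => bad a (f a)).card ≤
      c a * Fintype.card (∀ a, I a) := by
    intro a
    have e := Equiv.piSplitAt a I
    have c1 : (Finset.univ.filter fun f : ∀ a, I a => bad a (f a)).card =
        Nat.card {i : I a // bad a i} * Fintype.card (∀ j : {j // j ≠ a}, I j) := by
      rw [← Nat.card_eq_fintype_card (α := ∀ j : {j // j ≠ a}, I j), ← Nat.card_prod,
        ← Fintype.card_subtype, ← Nat.card_eq_fintype_card]
      apply Nat.card_congr
      refine ⟨fun f => (⟨f.1 a, f.2⟩, fun j => f.1 j.1), fun q =>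
        ⟨(Equiv.piSplitAt a I).symm (q.1.1, q.2), ?_⟩, ?_, ?_⟩
      · have : ((Equiv.piSplitAt a I).symm (q.1.1, q.2)) a = q.1.1 := by
          simp [Equiv.piSplitAt]
        rw [this]
        exact q.1.2
      · intro f
        apply Subtype.ext
        funext b
        by_cases hb : b = a
        · subst hb
          simp [Equiv.piSplitAt]
        · simp [Equiv.piSplitAt, hb]
      · intro q
        apply Prod.ext
        · apply Subtype.ext
          simp [Equiv.piSplitAt]
        · funext j
          simp [Equiv.piSplitAt, j.2]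
    have c2 : Fintype.card (∀ a, I a) = Fintype.card (I a) * Fintype.card (∀ j : {j // j ≠ a}, I j) := by
      rw [← Fintype.card_prod]
      exact Fintype.card_congr (Equiv.piSplitAt a I)
    rw [c1, c2, ← mul_assoc, ← mul_assoc]
    exact Nat.mul_le_mul_right _ (h a)
  rw [Nat.card_eq_fintype_card, Fintype.card_subtype]
  have hsub : (Finset.univ.filter fun f : ∀ a, I a => ∃ a, bad a (f a)) ⊆
      Finset.univ.biUnion fun a => Finset.univ.filter fun f : ∀ a, I a => bad a (f a) := by
    intro f hf
    simpa using hf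
  calc _ ≤ N * ∑ a, (Finset.univ.filter fun f : ∀ a, I a => bad a (f a)).card :=
        Nat.mul_le_mul_left _ ((Finset.card_le_card hsub).trans Finset.card_biUnion_le)
    _ = ∑ a, N * (Finset.univ.filter fun f : ∀ a, I a => bad a (f a)).card := Finset.mul_sum _ _ _
    _ ≤ ∑ a, c a * Fintype.card (∀ a, I a) := Finset.sum_le_sum fun a _ => h1 a
    _ = _ := (Finset.sum_mul _ _ _).symm

lemma prod_bad {A B : Type} [Fintype A] [Fintype B] (P : A → Prop) (Q : B → Prop) (N a b : ℕ)
    (hP : N * Nat.card {i : A // P i} ≤ a * Fintype.card A)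
    (hQ : N * Nat.card {i : B // Q i} ≤ b * Fintype.card B) :
    N * Nat.card {i : A × B // P i.1 ∨ Q i.2} ≤ (a + b) * Fintype.card (A × B) := by
  classical
  rw [Nat.card_eq_fintype_card, Fintype.card_subtype] at hP hQ ⊢
  have hsub : (Finset.univ.filter fun i : A × B => P i.1 ∨ Q i.2) ⊆
      ((Finset.univ.filter fun i : A => P i) ×ˢ (Finset.univ : Finset B)) ∪
        ((Finset.univ : Finset A) ×ˢ (Finset.univ.filter fun i : B => Q i)) := by
    intro i hi
    simpa using hi
  have hc := (Finset.card_le_card hsub).trans (Finset.card_union_le _ _)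
  rw [Finset.card_product, Finset.card_product, Finset.card_univ, Finset.card_univ] at hc
  rw [Fintype.card_prod]
  calc _ ≤ N * ((Finset.univ.filter fun i : A => P i).card * Fintype.card B +
        Fintype.card A * (Finset.univ.filter fun i : B => Q i).card) := Nat.mul_le_mul_left _ hc
    _ = (N * (Finset.univ.filter fun i : A => P i).card) * Fintype.card B +
        Fintype.card A * (N * (Finset.univ.filter fun i : B => Q i).card) := by ring
    _ ≤ (a * Fintype.card A) * Fintype.card B + Fintype.card A * (b * Fintype.card B) :=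
        Nat.add_le_add (Nat.mul_le_mul_right _ hP) (Nat.mul_le_mul_left _ hQ)
    _ = _ := by ring

variable {p : ℕ} [hp : Fact p.Prime]

lemma half' {T : Type} [Fintype T] [DecidableEq T] (z : T → ZMod p) (i0 : T) (h : z i0 = 1) :
    2 * (Finset.univ.filter fun r : T → ZMod p => ∑ i, r i * z i = 0).card ≤
      Fintype.card (T → ZMod p) := by
  classical
  set A := Finset.univ.filter fun r : T → ZMod p => ∑ i, r i * z i = 0 with hA
  set B := Finset.univ.filter fun r : T → ZMod p => ¬ ∑ i, r i * z i = 0 with hB
  have h1 : A.card + B.card = Fintype.card (T → ZMod p) := by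
    rw [← Finset.card_univ]
    exact Finset.card_filter_add_card_filter_not _
  have h2 : A.card ≤ B.card := by
    apply Finset.card_le_card_of_injOn (fun r => r + Pi.single i0 1)
    · intro r hr
      have hr' : ∑ i, r i * z i = 0 := by simpa [hA] using hr
      have : ∑ i, (r + Pi.single i0 1 : T → ZMod p) i * z i = 1 := by
        simp only [Pi.add_apply, add_mul, Finset.sum_add_distrib, hr', zero_add]
        rw [Finset.sum_eq_single i0]
        · simp [h]
        · intro j _ hj
          simp [Pi.single_eq_of_ne hj]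
        · intro h; exact absurd (Finset.mem_univ _) h
      simp only [hB, Finset.coe_filter, Finset.mem_univ, true_and, Set.mem_ofPred_eq]
      rw [this]
      exact one_ne_zero
    · intro a _ b _ hab
      exact add_right_cancel hab
  omega

lemma half_pow' {T : Type} [Fintype T] [DecidableEq T] (z : T → ZMod p) (i0 : T) (h : z i0 = 1)
    (k : ℕ) :
    2 ^ k * (Finset.univ.filter fun r : Fin k → T → ZMod p => ∀ a, ∑ i, r a i * z i = 0).card ≤
      Fintype.card (Fin k → T → ZMod p) := by
  classical
  have h1 : (Finset.univ.filter fun r : Fin k → T → ZMod p => ∀ a, ∑ i, r a i * z i = 0) =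
      Fintype.piFinset (fun _ : Fin k => Finset.univ.filter fun r : T → ZMod p => ∑ i, r i * z i = 0) := by
    ext r
    simp [Fintype.mem_piFinset]
  rw [h1, Fintype.card_piFinset_const, Fintype.card_pi_const, ← mul_pow]
  exact Nat.pow_le_pow_left (half' z i0 h) k

/-- The coefficients `r` miss a true disjunction. -/
def Miss {T : Type} [Fintype T] {k : ℕ} (q : T → Bool) (r : Fin k → T → ZMod p) : Prop :=
  (∃ t, q t = true) ∧ ∀ a, ∑ t, r a t * toF p (q t) = 0

lemma miss_card {T : Type} [Fintype T] [DecidableEq T] (k : ℕ) (q : T → Bool) :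
    2 ^ k * Nat.card {r : Fin k → T → ZMod p // Miss q r} ≤ 1 * Fintype.card (Fin k → T → ZMod p) := by
  classical
  rw [Nat.card_eq_fintype_card, Fintype.card_subtype, one_mul]
  by_cases h : ∃ t, q t = true
  · obtain ⟨t, ht⟩ := h
    have := half_pow' (p := p) (fun t => toF p (q t)) t (by simp [ht, toF]) k
    refine le_trans ?_ this
    apply Nat.mul_le_mul_left
    apply Finset.card_le_card
    intro r hr
    simp only [Finset.mem_filter, Finset.mem_univ, true_and] at hr ⊢
    exact hr.2
  · have : (Finset.univ.filter fun r : Fin k → T → ZMod p => Miss q r) = ∅ := by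
      rw [Finset.filter_eq_empty_iff]
      intro r _ hr
      exact h hr.1
    rw [this]
    simp

end counting

section approx

variable {p : ℕ} [hp : Fact p.Prime] {ι : Type} [Fintype ι] [DecidableEq ι]

/-- Random approximation of a disjunction. -/
def orA (p : ℕ) {X T : Type} [Fintype T] {k : ℕ} (Q : T → X → ZMod p) (r : Fin k → T → ZMod p) :
    X → ZMod p :=
  1 - ∏ a, (1 - (∑ i, r a i • Q i) ^ (p - 1))

lemma orA_mem {T : Type} [Fintype T] {k D : ℕ} (Q : T → (ι → Bool) → ZMod p)
    (hQ : ∀ i, Q i ∈ LD (ZMod p) ι D) (r : Fin k → T → ZMod p) :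
    orA p Q r ∈ LD (ZMod p) ι (((p - 1) * k) * D) := by
  apply Submodule.sub_mem _ (one_mem_LD _)
  have h := prod_mem_LD (F := ZMod p) (Finset.univ : Finset (Fin k)) (a := (p - 1) * D)
    (fun a => (1 - (∑ i, r a i • Q i) ^ (p - 1) : (ι → Bool) → ZMod p)) (fun a _ => by
      apply Submodule.sub_mem _ (one_mem_LD _)
      apply pow_mem_LD
      exact Submodule.sum_mem _ fun i _ => Submodule.smul_mem _ _ (hQ i))
  have e : (Finset.univ : Finset (Fin k)).card * ((p - 1) * D) = ((p - 1) * k) * D := by
    rw [Finset.card_univ, Fintype.card_fin]; ring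
  rw [e] at h
  exact h

omit [Fintype ι] [DecidableEq ι] in
lemma orA_val {T : Type} [Fintype T] {k : ℕ} (Q : T → (ι → Bool) → ZMod p)
    (r : Fin k → T → ZMod p) (x : ι → Bool) (q : T → Bool) (hq : ∀ t, Q t x = toF p (q t))
    (hr : ¬ Miss q r) : orA p Q r x = toF p (decide (∃ t, q t = true)) := by
  have e : orA p Q r x = 1 - ∏ a, (1 - (∑ i, r a i * Q i x) ^ (p - 1)) := by
    simp [orA, Finset.prod_apply, Finset.sum_apply]
  rw [e]
  by_cases h : ∃ t, q t = true
  · rw [decide_eq_true h]
    have h2 : ∃ a, ∑ t, r a t * toF p (q t) ≠ 0 := by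
      by_contra hno
      push Not at hno
      exact hr ⟨h, hno⟩
    obtain ⟨a, ha⟩ := h2
    have : ∏ a, (1 - (∑ i, r a i * Q i x) ^ (p - 1)) = 0 := by
      apply Finset.prod_eq_zero (Finset.mem_univ a)
      have e2 : ∑ i, r a i * Q i x = ∑ t, r a t * toF p (q t) := by
        apply Finset.sum_congr rfl
        intro t _
        rw [hq]
      rw [e2, ZMod.pow_card_sub_one_eq_one ha, sub_self]
    rw [this]
    simp [toF]
  · rw [decide_eq_false h]
    have h0 : ∀ t, Q t x = 0 := by
      intro t
      rw [hq]
      have : q t = false := by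
        cases hqt : q t
        · rfl
        · exact absurd ⟨t, hqt⟩ h
      rw [this]
      simp [toF]
    have hp1 : p - 1 ≠ 0 := by
      have := hp.out.two_le
      omega
    simp [h0, zero_pow hp1, toF]

/-- Approximation of a pair of Boolean functions by random functions of degree at most `D`,
with pointwise error at most `c / 2 ^ k0`. -/
def App (p k0 D c : ℕ) {ι : Type} [Fintype ι] [DecidableEq ι] [Fact p.Prime]
    (g : Bool → (ι → Bool) → Bool) : Prop :=
  ∃ (I : Type) (_ : Fintype I) (_ : Nonempty I) (P : I → Bool → (ι → Bool) → ZMod p),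
    (∀ i b, P i b ∈ LD (ZMod p) ι D) ∧
    ∀ x, 2 ^ k0 * Nat.card {i : I // ¬ ∀ b, P i b x = toF p (g b x)} ≤ c * Fintype.card I

lemma App.exact {k0 D c : ℕ} (g : Bool → (ι → Bool) → Bool)
    (h : ∀ b, (fun x => toF p (g b x)) ∈ LD (ZMod p) ι D) : App p k0 D c g := by
  refine ⟨Unit, inferInstance, inferInstance, fun _ b x => toF p (g b x), fun _ b => h b, ?_⟩
  intro x
  have : IsEmpty {i : Unit // ¬ ∀ b, toF p (g b x) = toF p (g b x)} := ⟨fun i => i.2 fun _ => rfl⟩
  rw [Nat.card_of_isEmpty]
  simp

/-- General step: from approximations of the children, first approximate finitely many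
disjunctions of low-degree terms in the children, then apply an exact low-degree map. -/
lemma App.step {k0 D D1 D' n : ℕ} (c : Fin n → ℕ) (g : Fin n → Bool → (ι → Bool) → Bool)
    (hch : ∀ a, App p k0 D (c a) (g a))
    (B T : Type) [Fintype B] [Fintype T] [DecidableEq B] [DecidableEq T]
    (term : B → T → (Fin n → Bool → (ι → Bool) → ZMod p) → (ι → Bool) → ZMod p)
    (hdeg : ∀ P, (∀ a b, P a b ∈ LD (ZMod p) ι D) → ∀ b t, term b t P ∈ LD (ZMod p) ι D1)
    (q : B → T → (ι → Bool) → Bool)
    (hval : ∀ P x, (∀ a b, P a b x = toF p (g a b x)) → ∀ b t, term b t P x = toF p (q b t x))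
    (out : (Fin n → Bool → (ι → Bool) → ZMod p) → (B → (ι → Bool) → ZMod p) → Bool →
      (ι → Bool) → ZMod p)
    (hout : ∀ P Q, (∀ a b, P a b ∈ LD (ZMod p) ι D) →
      (∀ b, Q b ∈ LD (ZMod p) ι (((p - 1) * k0) * D1)) → ∀ b, out P Q b ∈ LD (ZMod p) ι D')
    (res : Bool → (ι → Bool) → Bool)
    (hres : ∀ P Q x, (∀ a b, P a b x = toF p (g a b x)) →
      (∀ b, Q b x = toF p (decide (∃ t, q b t x = true))) → ∀ b, out P Q b x = toF p (res b x)) :
    App p k0 D' (∑ a, c a + Fintype.card B) res := by
  classical
  choose I hI1 hI2 P hP1 hP2 using hch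
  refine ⟨(∀ a, I a) × (B → Fin k0 → T → ZMod p), inferInstance, inferInstance,
    fun i => out (fun a => P a (i.1 a)) (fun b => orA p (fun t => term b t (fun a => P a (i.1 a))) (i.2 b)),
    ?_, ?_⟩
  · intro i b
    apply hout
    · intro a b
      exact hP1 a _ b
    · intro b
      apply orA_mem
      intro t
      exact hdeg _ (fun a b => hP1 a _ b) b t
  · intro x
    have h1 := pi_bad I (fun a i => ¬ ∀ b, P a i b x = toF p (g a b x)) (2 ^ k0) c (fun a => hP2 a x)
    have h2 := pi_bad (fun _ : B => Fin k0 → T → ZMod p) (fun b r => Miss (fun t => q b t x) r)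
      (2 ^ k0) (fun _ => 1) (fun b => miss_card k0 (fun t => q b t x))
    have h3 := prod_bad (A := ∀ a, I a) (B := B → Fin k0 → T → ZMod p)
      (fun f => ∃ a, ¬ ∀ b, P a (f a) b x = toF p (g a b x))
      (fun r => ∃ b, Miss (fun t => q b t x) (r b)) _ _ _ h1 h2
    rw [Finset.sum_const, Finset.card_univ, smul_eq_mul, mul_one] at h3
    refine le_trans (Nat.mul_le_mul_left _ ?_) h3
    apply Nat.card_le_card_of_injective
      (f := fun i : {i : (∀ a, I a) × (B → Fin k0 → T → ZMod p) // ¬ ∀ b, out (fun a => P a (i.1 a))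
        (fun b => orA p (fun t => term b t (fun a => P a (i.1 a))) (i.2 b)) b x = toF p (res b x)} =>
        (⟨i.1, by
          by_contra hno
          rw [not_or] at hno
          obtain ⟨hn1, hn2⟩ := hno
          push Not at hn1 hn2
          apply i.2
          apply hres
          · exact hn1
          · intro b
            exact orA_val (fun t => term b t (fun a => P a (i.1.1 a))) (i.1.2 b) x (fun t => q b t x)
              (fun t => hval _ x hn1 b t) (hn2 b)⟩ :
          {i : (∀ a, I a) × (B → Fin k0 → T → ZMod p) //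
            (∃ a, ¬ ∀ b, P a (i.1 a) b x = toF p (g a b x)) ∨ ∃ b, Miss (fun t => q b t x) (i.2 b)}))
    intro i j hij
    have := congrArg Subtype.val hij
    exact Subtype.ext this

end approx

end Pool.Agent.Lib20
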