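import Pool.Agent.Lib_helper20.Block

namespace Pool.Agent.Lib20

open Finset

lemma choose_ratio (h τ : ℕ) (hτ : τ ≤ h) (j : ℕ) (hj : j ≤ τ) :
    (2 * h).choose h * (h - τ) ^ j ≤ (2 * h).choose (h + j) * (h + τ) ^ j := by
  induction j with
  | zero => simp
  | succ j ih =>
    have ih' := ih (by omega)
    have h1 : (2 * h).choose (h + j + 1) * (h + j + 1) = (2 * h).choose (h + j) * (2 * h - (h + j)) :=
      Nat.choose_succ_right_eq _ _
    have h2 : 2 * h - (h + j) = h - j := by omega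
    rw [h2] at h1
    calc (2 * h).choose h * (h - τ) ^ (j + 1) = ((2 * h).choose h * (h - τ) ^ j) * (h - τ) := by ring
      _ ≤ ((2 * h).choose (h + j) * (h + τ) ^ j) * (h - τ) := Nat.mul_le_mul_right _ ih'
      _ ≤ ((2 * h).choose (h + j) * (h + τ) ^ j) * (h - j) := Nat.mul_le_mul_left _ (by omega)
      _ = ((2 * h).choose (h + j) * (h - j)) * (h + τ) ^ j := by ring
      _ = ((2 * h).choose (h + j + 1) * (h + j + 1)) * (h + τ) ^ j := by rw [h1]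
      _ ≤ ((2 * h).choose (h + j + 1) * (h + τ)) * (h + τ) ^ j :=
          Nat.mul_le_mul_right _ (Nat.mul_le_mul_left _ (by omega))
      _ = (2 * h).choose (h + (j + 1)) * (h + τ) ^ (j + 1) := by rw [← add_assoc]; ring

lemma ratio_pow (Q : ℕ) (hQ : 2 ≤ Q) : (Q + 1) ^ Q ≤ 64 * (Q - 1) ^ Q := by
  have hreal : ((Q : ℝ) + 1) ^ Q ≤ 64 * ((Q : ℝ) - 1) ^ Q := by
    have hQ' : (2 : ℝ) ≤ Q := by exact_mod_cast hQ
    have hpos : (0 : ℝ) < (Q : ℝ) - 1 := by linarith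
    have e1 : (Q : ℝ) + 1 = ((Q : ℝ) - 1) * (1 + 2 / ((Q : ℝ) - 1)) := by
      field_simp
      ring
    have e2 : (1 + 2 / ((Q : ℝ) - 1)) ^ Q ≤ 64 := by
      have h1 : 1 + 2 / ((Q : ℝ) - 1) ≤ Real.exp (2 / ((Q : ℝ) - 1)) := by
        have := Real.add_one_le_exp (2 / ((Q : ℝ) - 1))
        linarith
      have h2 : (1 + 2 / ((Q : ℝ) - 1)) ^ Q ≤ (Real.exp (2 / ((Q : ℝ) - 1))) ^ Q :=
        pow_le_pow_left₀ (by positivity) h1 Q
      have h3 : (Real.exp (2 / ((Q : ℝ) - 1))) ^ Q = Real.exp (Q * (2 / ((Q : ℝ) - 1))) := by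
        rw [← Real.exp_nat_mul]
      have h4 : (Q : ℝ) * (2 / ((Q : ℝ) - 1)) ≤ 4 := by
        rw [mul_div_assoc', div_le_iff₀ hpos]
        linarith
      have h5 : Real.exp 4 ≤ 64 := by
        have h6 : Real.exp 4 = (Real.exp 1) ^ 4 := by
          rw [← Real.exp_nat_mul]; norm_num
        rw [h6]
        have h7 := Real.exp_one_lt_d9
        have h8 : (Real.exp 1) ^ 4 ≤ (2.7182818286 : ℝ) ^ 4 :=
          pow_le_pow_left₀ (Real.exp_pos 1).le h7.le 4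
        refine h8.trans ?_
        norm_num
      calc _ ≤ _ := h2
        _ = _ := h3
        _ ≤ Real.exp 4 := Real.exp_le_exp.mpr h4
        _ ≤ 64 := h5
    rw [e1, mul_pow, mul_comm]
    exact mul_le_mul_of_nonneg_right e2 (by positivity)
  have hcast : ((Q - 1 : ℕ) : ℝ) = (Q : ℝ) - 1 := by
    rw [Nat.cast_sub (by omega)]; simp
  rw [← hcast] at hreal
  exact_mod_cast hreal

lemma choose_lower (Q u : ℕ) (hQ : 2 ≤ Q) :
    4 ^ (Q * Q * u) ≤ (2 * (Q * Q * u) + 1) * 64 ^ u * (2 * (Q * Q * u)).choose (Q * Q * u + Q * u) := by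
  set h := Q * Q * u with hh
  set τ := Q * u with hτ
  have hQτ : h = Q * τ := by rw [hh, hτ]; ring
  have hτh : τ ≤ h := by
    rw [hQτ]; exact Nat.le_mul_of_pos_left _ (by omega)
  have h1 : 4 ^ h ≤ (2 * h + 1) * (2 * h).choose h := by
    have := Nat.four_pow_le_two_mul_add_one_mul_central_binom h
    exact this
  have h2 := choose_ratio h τ hτh τ le_rfl
  have h3 : (h + τ) ^ τ ≤ 64 ^ u * (h - τ) ^ τ := by
    have e1 : h + τ = (Q + 1) * τ := by rw [hQτ]; ring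
    have e2 : h - τ = (Q - 1) * τ := by rw [hQτ, Nat.sub_mul, one_mul]
    rw [e1, e2, mul_pow (Q + 1) τ, mul_pow (Q - 1) τ, ← mul_assoc]
    apply Nat.mul_le_mul_right
    rw [hτ, pow_mul (Q + 1), pow_mul (Q - 1), ← mul_pow]
    exact Nat.pow_le_pow_left (ratio_pow Q hQ) u
  have hpos : 0 < (h - τ) ^ τ := by
    rcases Nat.eq_zero_or_pos τ with h0 | h0
    · rw [h0]; simp
    · apply Nat.pow_pos
      have : τ < h := by rw [hQτ]; nlinarith
      omega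
  have h4 : (2 * h).choose h ≤ 64 ^ u * (2 * h).choose (h + τ) := by
    apply Nat.le_of_mul_le_mul_right _ hpos
    calc (2 * h).choose h * (h - τ) ^ τ ≤ (2 * h).choose (h + τ) * (h + τ) ^ τ := h2
      _ ≤ (2 * h).choose (h + τ) * (64 ^ u * (h - τ) ^ τ) := Nat.mul_le_mul_left _ h3
      _ = 64 ^ u * (2 * h).choose (h + τ) * (h - τ) ^ τ := by ring
  calc 4 ^ h ≤ (2 * h + 1) * (2 * h).choose h := h1
    _ ≤ (2 * h + 1) * (64 ^ u * (2 * h).choose (h + τ)) := Nat.mul_le_mul_left _ h4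
    _ = _ := by ring

/-- Arithmetic part: with the parameters chosen in terms of `L` and `u`, the bound of
`block_bound` forces `m` to be at least `7 t u`. -/
lemma numeric {t u L m : ℕ} (ht : 1 ≤ t) (hu : 1 ≤ u) (hL : 1 ≤ L)
    (hbig : 2 * ((64 * L) * (64 * L) * u) + 1 ≤ 2 ^ u)
    (H : 6 ^ (64 * t * u - 1) * ((2 * ((64 * L) * (64 * L) * u)).choose ((64 * L) * (64 * L) * u + (64 * L) * u)) ^ t ≤
      (2 * ((64 * L) * (64 * L) * u) * t + 1) * (5 ^ (64 * t * u - 1) * 2 ^ (2 * ((64 * L) * (64 * L) * u) * t + m))) :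
    7 * t * u ≤ m := by
  set h := (64 * L) * (64 * L) * u with hh
  set ch := (2 * h).choose (h + (64 * L) * u) with hch
  have hcl := choose_lower (64 * L) u (by omega)
  rw [← hh, ← hch] at hcl
  set ℓ := 64 * t * u - 1 with hℓ
  have htu : 1 ≤ t * u := Nat.mul_pos ht hu
  have hℓ1 : ℓ + 1 = 64 * (t * u) := by rw [hℓ, mul_assoc]; omega
  -- step 1
  have s1 : 6 ^ ℓ ≤ (2 * h * t + 1) * 5 ^ ℓ * 2 ^ m * ((2 * h + 1) * 64 ^ u) ^ t := by
    have e0 : 2 ^ (2 * h * t) = (4 ^ h) ^ t := by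
      rw [← pow_mul, show (4:ℕ) = 2 ^ 2 by norm_num, ← pow_mul]; congr 1; ring
    have e1 : 6 ^ ℓ * 2 ^ (2 * h * t) ≤
        ((2 * h * t + 1) * 5 ^ ℓ * 2 ^ m * ((2 * h + 1) * 64 ^ u) ^ t) * 2 ^ (2 * h * t) := by
      calc 6 ^ ℓ * 2 ^ (2 * h * t) = 6 ^ ℓ * (4 ^ h) ^ t := by rw [e0]
        _ ≤ 6 ^ ℓ * ((2 * h + 1) * 64 ^ u * ch) ^ t := Nat.mul_le_mul_left _ (Nat.pow_le_pow_left hcl t)
        _ = (6 ^ ℓ * ch ^ t) * ((2 * h + 1) * 64 ^ u) ^ t := by rw [mul_pow _ ch]; ring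
        _ ≤ ((2 * h * t + 1) * (5 ^ ℓ * 2 ^ (2 * h * t + m))) * ((2 * h + 1) * 64 ^ u) ^ t :=
            Nat.mul_le_mul_right _ H
        _ = _ := by rw [pow_add]; ring
    exact Nat.le_of_mul_le_mul_right e1 (by positivity)
  -- step 2 : powers of two
  have s2 : ((2 * h + 1) * 64 ^ u) ^ t ≤ 2 ^ (7 * (t * u)) := by
    calc ((2 * h + 1) * 64 ^ u) ^ t ≤ (2 ^ u * 64 ^ u) ^ t := Nat.pow_le_pow_left (Nat.mul_le_mul_right _ hbig) t
      _ = 2 ^ (7 * (t * u)) := by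
        rw [show (64:ℕ) = 2 ^ 6 by norm_num, ← pow_mul, ← pow_add, ← pow_mul]; congr 1; ring
  have s3 : 2 * h * t + 1 ≤ 2 ^ (u + t) := by
    calc 2 * h * t + 1 ≤ (2 * h + 1) * t := by nlinarith
      _ ≤ 2 ^ u * 2 ^ t := Nat.mul_le_mul hbig (Nat.lt_two_pow_self).le
      _ = _ := by rw [pow_add]
  have s4 : 2 ^ (16 * (t * u)) * (5 * 5 ^ ℓ) ≤ 6 * 6 ^ ℓ := by
    have e1 : 5 * 5 ^ ℓ = 5 ^ (64 * (t * u)) := by rw [← hℓ1, pow_succ]; ring
    have e2 : 6 * 6 ^ ℓ = 6 ^ (64 * (t * u)) := by rw [← hℓ1, pow_succ]; ring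
    rw [e1, e2]
    calc 2 ^ (16 * (t * u)) * 5 ^ (64 * (t * u)) = (2 * 5 ^ 4) ^ (16 * (t * u)) := by
          rw [mul_pow, ← pow_mul]; congr 2; ring
      _ ≤ (6 ^ 4) ^ (16 * (t * u)) := Nat.pow_le_pow_left (by norm_num) _
      _ = _ := by rw [← pow_mul]; congr 1; ring
  have s5 : 5 ^ ℓ * (5 * 2 ^ (16 * (t * u))) ≤ 5 ^ ℓ * (6 * 2 ^ (u + t + m + 7 * (t * u))) := by
    calc 5 ^ ℓ * (5 * 2 ^ (16 * (t * u))) = 2 ^ (16 * (t * u)) * (5 * 5 ^ ℓ) := by ring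
      _ ≤ 6 * 6 ^ ℓ := s4
      _ ≤ 6 * ((2 * h * t + 1) * 5 ^ ℓ * 2 ^ m * ((2 * h + 1) * 64 ^ u) ^ t) := Nat.mul_le_mul_left _ s1
      _ ≤ 6 * (2 ^ (u + t) * 5 ^ ℓ * 2 ^ m * 2 ^ (7 * (t * u))) := by
          apply Nat.mul_le_mul_left
          apply Nat.mul_le_mul _ s2
          apply Nat.mul_le_mul_right
          exact Nat.mul_le_mul_right _ s3
      _ = 5 ^ ℓ * (6 * 2 ^ (u + t + m + 7 * (t * u))) := by
          rw [pow_add, pow_add]; ring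
  have s6 : 5 * 2 ^ (16 * (t * u)) ≤ 6 * 2 ^ (u + t + m + 7 * (t * u)) :=
    Nat.le_of_mul_le_mul_left s5 (by positivity)
  have s7 : 2 ^ (16 * (t * u)) < 2 ^ (u + t + m + 7 * (t * u) + 1) := by
    rw [pow_succ]
    have : 0 < 2 ^ (u + t + m + 7 * (t * u)) := by positivity
    omega
  have s8 := (Nat.pow_lt_pow_iff_right (by norm_num : 1 < 2)).mp s7
  have htu2 : u ≤ t * u := Nat.le_mul_of_pos_left _ ht
  have htu3 : t ≤ t * u := Nat.le_mul_of_pos_right _ hu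
  have : 7 * t * u = 7 * (t * u) := by ring
  omega

end Pool.Agent.Lib20
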