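import Mathlib

namespace Pool.Agent.Lib20

/-- Arithmetic of the choice of parameters. -/
lemma parameters (p d v : ℕ) (hp : 2 ≤ p) (lam L : ℕ) (hlam : 1 ≤ lam)
    (hL1 : 1 ≤ L) (hL : L ≤ (6 * p * lam) ^ d)
    (hv : (6144 * p * lam) ^ (2 * d + 2) ≤ v) :
    1 ≤ v / (98304 * L ^ 2 * lam) ∧
    2 * ((64 * L) * (64 * L) * (v / (98304 * L ^ 2 * lam))) + 1 ≤ 2 ^ (v / (98304 * L ^ 2 * lam)) ∧
    98304 * L ^ 2 * lam ≤ (6144 * p * lam) ^ (2 * d + 2) := by
  set A := 6 * p * lam with hA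
  set M := 98304 * L ^ 2 * lam with hM
  have hA1 : 1 ≤ A := by
    have : 0 < 6 * p * lam := by positivity
    exact this
  have hMpos : 0 < M := by positivity
  have hL2 : L ^ 2 ≤ A ^ (2 * d) := by
    calc L ^ 2 ≤ (A ^ d) ^ 2 := Nat.pow_le_pow_left hL 2
      _ = _ := by rw [← pow_mul]; congr 1; ring
  have hK : 6144 * p * lam = 1024 * A := by rw [hA]; ring
  set X := 384 * (p * p) * lam * 2 ^ (20 * d) with hX
  have hKX : M * X ≤ (6144 * p * lam) ^ (2 * d + 2) := by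
    rw [hK, mul_pow]
    have e1 : (1024 : ℕ) ^ (2 * d + 2) = 2 ^ (20 * d) * 2 ^ 20 := by
      rw [show (1024 : ℕ) = 2 ^ 10 by norm_num, ← pow_mul, ← pow_add]; congr 1; ring
    have e2 : A ^ (2 * d + 2) = A ^ (2 * d) * ((6 * p * lam) * (6 * p * lam)) := by
      rw [pow_add, pow_two]
    rw [e1, e2]
    calc M * X = L ^ 2 * (2 ^ (20 * d) * (98304 * 384 * (p * p) * (lam * lam))) := by
          rw [hM, hX]; ring
      _ ≤ A ^ (2 * d) * (2 ^ (20 * d) * (98304 * 384 * (p * p) * (lam * lam))) :=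
          Nat.mul_le_mul_right _ hL2
      _ = _ := by ring
  have hX1 : 20 * d + 1 ≤ 2 ^ (20 * d) := Nat.lt_two_pow_self
  have hXbig : 384 * (p * p) * lam * (20 * d + 1) ≤ X := Nat.mul_le_mul_left _ hX1
  have hpl : 2 ≤ p * lam := by nlinarith
  have hXbig2 : 30 + 4 * (d * A) ≤ X := by
    refine le_trans ?_ hXbig
    rw [hA]
    have h1 : 384 * (p * p) * lam * (20 * d + 1) = 384 * p * (p * lam) * (20 * d + 1) := by ring
    rw [h1]
    have h2 : 384 * 2 * (p * lam) * (20 * d + 1) ≤ 384 * p * (p * lam) * (20 * d + 1) := by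
      apply Nat.mul_le_mul_right
      apply Nat.mul_le_mul_right
      omega
    refine le_trans ?_ h2
    have h3 : d * (6 * p * lam) = 6 * (d * (p * lam)) := by ring
    have h4 : 384 * 2 * (p * lam) * (20 * d + 1) = 15360 * (d * (p * lam)) + 768 * (p * lam) := by ring
    rw [h3, h4]
    omega
  set u := v / M with hu
  have hXu : X ≤ u := by
    rw [hu, Nat.le_div_iff_mul_le hMpos, mul_comm]
    exact hKX.trans hv
  have hXpos : 1 ≤ X := by omega
  refine ⟨by omega, ?_, ?_⟩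
  · have h1 : u ≤ 2 ^ (u / 2 + 1) := by
      have h2 : u / 2 + 1 ≤ 2 ^ (u / 2) := Nat.lt_two_pow_self
      rw [pow_succ]
      omega
    have h3 : A ^ (2 * d) ≤ 2 ^ (2 * (d * A)) := by
      calc A ^ (2 * d) ≤ (2 ^ A) ^ (2 * d) := Nat.pow_le_pow_left (Nat.lt_two_pow_self).le _
        _ = _ := by rw [← pow_mul]; congr 1; ring
    have hu1 : 1 ≤ u := by omega
    calc 2 * ((64 * L) * (64 * L) * u) + 1 = 8192 * (L ^ 2 * u) + 1 := by ring
      _ ≤ 8192 * (A ^ (2 * d) * u) + 1 := by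
          apply Nat.add_le_add_right
          apply Nat.mul_le_mul_left
          exact Nat.mul_le_mul_right _ hL2
      _ ≤ 16384 * (A ^ (2 * d) * u) := by
          have : 1 ≤ A ^ (2 * d) * u := Nat.mul_pos (Nat.pow_pos hA1) hu1
          omega
      _ ≤ 2 ^ 14 * (2 ^ (2 * (d * A)) * 2 ^ (u / 2 + 1)) := by
          apply Nat.mul_le_mul (by norm_num)
          exact Nat.mul_le_mul h3 h1
      _ = 2 ^ (14 + (2 * (d * A) + (u / 2 + 1))) := by rw [← pow_add, ← pow_add]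
      _ ≤ 2 ^ u := by
          apply Nat.pow_le_pow_right (by norm_num)
          omega
  · calc M = M * 1 := (mul_one _).symm
      _ ≤ M * X := Nat.mul_le_mul_left _ hXpos
      _ ≤ _ := hKX

end Pool.Agent.Lib20
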