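import Pool.Agent.Lib_helper20.AC0Defs

namespace Pool.Agent.Lib20

open Finset

section subst

variable {ι κ : Type}

def Src.subst (π : ι → Bool ⊕ κ) : Src ι → Src κ
  | .const b => .const b
  | .input i => match π i with
    | .inl b => .const b
    | .inr k => .input k
  | .gate k => .gate k

def Gate.subst (π : ι → Bool ⊕ κ) (g : Gate ι) : Gate κ :=
  ⟨g.kind, g.wires.map fun w => (w.1, w.2.subst π)⟩

lemma Src.val_subst (π : ι → Bool ⊕ κ) (x : κ → Bool) (vs : List Bool) (s : Src ι) :
    (s.subst π).val x vs = s.val (fun i => Sum.elim id x (π i)) vs := by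
  cases s with
  | const b => rfl
  | input i =>
    simp only [Src.subst, Src.val]
    cases π i <;> rfl
  | gate k => rfl

lemma wireVal_subst (π : ι → Bool ⊕ κ) (x : κ → Bool) (vs : List Bool) (w : Bool × Src ι) :
    wireVal x vs (w.1, w.2.subst π) = wireVal (fun i => Sum.elim id x (π i)) vs w := by
  simp only [wireVal, Src.val_subst]

lemma Gate.val_subst (p : ℕ) (π : ι → Bool ⊕ κ) (x : κ → Bool) (vs : List Bool) (g : Gate ι) :
    (g.subst π).val p x vs = g.val p (fun i => Sum.elim id x (π i)) vs := by
  have h : (wireVal x vs ∘ fun w : Bool × Src ι => (w.1, w.2.subst π)) =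
      wireVal (fun i => Sum.elim id x (π i)) vs := by
    funext w
    exact wireVal_subst π x vs w
  simp only [Gate.val, Gate.subst]
  cases g.kind
  · simp only [List.all_map, h]
  · simp only [List.any_map, h]
  · simp only [List.countP_map, h]

lemma vals_subst (p : ℕ) (π : ι → Bool ⊕ κ) (x : κ → Bool) (C : Circuit ι) :
    Circuit.vals p x (List.map (Gate.subst π) C) = Circuit.vals p (fun i => Sum.elim id x (π i)) C := by
  induction C with
  | nil => rfl
  | cons g C ih =>
    simp only [List.map_cons, Circuit.vals]
    rw [ih, Gate.val_subst]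

lemma eval_subst (p : ℕ) (π : ι → Bool ⊕ κ) (x : κ → Bool) (C : Circuit ι) :
    Circuit.eval p (List.map (Gate.subst π) C) x = Circuit.eval p C (fun i => Sum.elim id x (π i)) := by
  rw [Circuit.eval, Circuit.eval, vals_subst]

lemma Src.depth_subst (π : ι → Bool ⊕ κ) (ds : List ℕ) (s : Src ι) :
    (s.subst π).depth ds = s.depth ds := by
  cases s with
  | const b => rfl
  | input i =>
    simp only [Src.subst]
    cases π i <;> rfl
  | gate k => rfl

lemma depths_subst (π : ι → Bool ⊕ κ) (C : Circuit ι) :
    Circuit.depths (List.map (Gate.subst π) C) = Circuit.depths C := by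
  induction C with
  | nil => rfl
  | cons g C ih =>
    simp only [List.map_cons, Circuit.depths]
    rw [ih]
    congr 3
    simp only [Gate.subst, List.map_map]
    congr 1
    funext w
    simp only [Function.comp, Src.depth_subst]

lemma depth_subst (π : ι → Bool ⊕ κ) (C : Circuit ι) :
    Circuit.depth (List.map (Gate.subst π) C) = Circuit.depth C := by
  rw [Circuit.depth, Circuit.depth, depths_subst]

lemma size_subst (π : ι → Bool ⊕ κ) (C : Circuit ι) :
    Circuit.size (List.map (Gate.subst π) C) = Circuit.size C := by
  simp [Circuit.size]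

end subst

/-- Value of a row of bits. -/
def rv (r : ℕ) (R : ℕ → Bool) : ℕ := ∑ b ∈ Finset.range r, 2 ^ b * (R b).toNat

/-- Increment identity for a ripple-carry adder. -/
lemma rv_step (r : ℕ) (R R' cc : ℕ → Bool) (h1 : ∀ b < r, R' b = xor (R b) (cc b))
    (h2 : ∀ b < r, cc (b + 1) = (R b && cc b)) :
    rv r R' + 2 ^ r * (cc r).toNat = rv r R + (cc 0).toNat := by
  induction r with
  | zero => simp [rv]
  | succ r ih =>
    have ih' := ih (fun b hb => h1 b (by omega)) (fun b hb => h2 b (by omega))
    have e1 := h1 r (by omega)
    have e2 := h2 r (by omega)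
    simp only [rv, Finset.sum_range_succ] at ih' ⊢
    rw [e1, e2, pow_succ]
    cases hR : R r <;> cases hc : cc r <;> simp only [hc] at ih' <;> simp at ih' ⊢ <;> omega

lemma rv_lt (r : ℕ) (R : ℕ → Bool) : rv r R < 2 ^ r := by
  induction r with
  | zero => simp [rv]
  | succ r ih =>
    simp only [rv, Finset.sum_range_succ] at ih ⊢
    rw [pow_succ]
    cases R r <;> simp <;> omega

lemma rv_testBit (r n : ℕ) (h : n < 2 ^ r) : rv r (fun b => n.testBit b) = n := by
  induction r generalizing n with
  | zero =>
    simp only [pow_zero] at h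
    simp [rv]; omega
  | succ r ih =>
    simp only [rv]
    rw [Finset.sum_range_succ']
    have h1 : ∀ b, n.testBit (b + 1) = (n / 2).testBit b := by
      intro b; rw [Nat.testBit_succ]
    have h2 : n / 2 < 2 ^ r := by
      rw [pow_succ] at h; omega
    have h3 := ih (n / 2) h2
    simp only [rv] at h3
    have h4 : ∑ b ∈ Finset.range r, 2 ^ (b + 1) * (n.testBit (b + 1)).toNat = 2 * (n / 2) := by
      conv_rhs => rw [← h3]
      rw [Finset.mul_sum]
      apply Finset.sum_congr rfl
      intro b _
      rw [h1, pow_succ]; ring
    rw [h4]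
    simp only [pow_zero, one_mul, Nat.testBit_zero]
    have h5 := Nat.div_add_mod n 2
    rcases Nat.mod_two_eq_zero_or_one n with h6 | h6 <;> simp [h6] <;> omega

def carry (R : ℕ → Bool) (x0 : Bool) : ℕ → Bool
  | 0 => x0
  | b + 1 => R b && carry R x0 b

def row (start : ℕ) (xi : ℕ → Bool) : ℕ → ℕ → Bool
  | 0 => fun b => start.testBit b
  | i + 1 => fun b => xor (row start xi i b) (carry (row start xi i) (xi i) b)

lemma row_val (r start : ℕ) (xi : ℕ → Bool) (i : ℕ)
    (h : start + ∑ j ∈ Finset.range i, (xi j).toNat < 2 ^ r) :
    rv r (row start xi i) = start + ∑ j ∈ Finset.range i, (xi j).toNat := by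
  induction i with
  | zero =>
    simp only [Finset.range_zero, Finset.sum_empty, add_zero] at h ⊢
    exact rv_testBit r start h
  | succ i ih =>
    rw [Finset.sum_range_succ] at h ⊢
    have ih' := ih (by omega)
    have hs := rv_step r (row start xi i) (row start xi (i + 1)) (carry (row start xi i) (xi i))
      (fun b _ => rfl) (fun b _ => rfl)
    have h0 : carry (row start xi i) (xi i) 0 = xi i := rfl
    rw [h0, ih'] at hs
    cases hc : carry (row start xi i) (xi i) r
    · rw [hc] at hs
      simp only [Bool.toNat_false, mul_zero, add_zero] at hs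
      rw [hs]; ring
    · rw [hc] at hs
      simp only [Bool.toNat_true, mul_one] at hs
      omega

lemma carry_false (r start : ℕ) (xi : ℕ → Bool) (i : ℕ)
    (h : start + ∑ j ∈ Finset.range (i + 1), (xi j).toNat < 2 ^ r) :
    carry (row start xi i) (xi i) r = false := by
  have hs := rv_step r (row start xi i) (row start xi (i + 1)) (carry (row start xi i) (xi i))
      (fun b _ => rfl) (fun b _ => rfl)
  have h0 : carry (row start xi i) (xi i) 0 = xi i := rfl
  rw [Finset.sum_range_succ] at h
  rw [h0, row_val r start xi i (by omega)] at hs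
  by_contra hc
  rw [Bool.not_eq_false] at hc
  rw [hc] at hs
  simp only [Bool.toNat_true, mul_one] at hs
  omega

/-- Reduction: with `2 (n+1) (r+1)` variables, a fixed three-literal CNF whose unit clauses are
switched on by the bits of `x` is satisfiable exactly when `x` has weight less than `k`. -/
lemma reduction (n k r v : ℕ) (hk : 1 ≤ k) (hkr : k ≤ 2 ^ r) (hv : 2 * ((n + 1) * (r + 1)) ≤ v) :
    ∃ π : Clause v → Bool ⊕ Fin n, ∀ x : Fin n → Bool,
      (∃ α : Fin v → Bool, ∀ c : Clause v, Sum.elim id x (π c) = true → ∃ i, α (c i).1 = (c i).2) ↔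
        (Finset.univ.filter fun i => x i = true).card < k := by
  classical
  have hcard : Fintype.card (Bool × Fin (n + 1) × Fin (r + 1)) ≤ Fintype.card (Fin v) := by
    simp only [Fintype.card_prod, Fintype.card_bool, Fintype.card_fin]
    exact hv
  obtain ⟨e⟩ := Function.Embedding.nonempty_of_card_le hcard
  let S : ℕ → ℕ → Fin v := fun i b => e (false, Fin.ofNat (n + 1) i, Fin.ofNat (r + 1) b)
  let C : ℕ → ℕ → Fin v := fun i b => e (true, Fin.ofNat (n + 1) i, Fin.ofNat (r + 1) b)
  let G : (Fin v → Bool) → Prop := fun β =>
    (∀ b < r, β (S 0 b) = (2 ^ r - k).testBit b) ∧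
    (∀ i < n, ∀ b < r, β (S (i + 1) b) = xor (β (S i b)) (β (C i b))) ∧
    (∀ i < n, ∀ b < r, β (C i (b + 1)) = (β (S i b) && β (C i b))) ∧
    (∀ i < n, β (C i r) = false)
  let base : Clause v → Prop := fun c => ∀ β, G β → ∃ i, β (c i).1 = (c i).2
  -- a constraint on three variables implied by `G` holds for assignments satisfying all base clauses
  have local3 : ∀ (α : Fin v → Bool), (∀ c, base c → ∃ i, α (c i).1 = (c i).2) →
      ∀ (a b c : Fin v) (R : Bool → Bool → Bool → Prop), (∀ β, G β → R (β a) (β b) (β c)) →
        R (α a) (α b) (α c) := by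
    intro α hα a b c R hR
    by_contra hcon
    have hb : base ![(a, !α a), (b, !α b), (c, !α c)] := by
      intro β hβ
      by_contra hno
      push Not at hno
      have h0 := hno 0
      have h1 := hno 1
      have h2 := hno 2
      simp at h0 h1 h2
      apply hcon
      rw [← h0, ← h1, ← h2]
      exact hR β hβ
    obtain ⟨i, hi⟩ := hα _ hb
    fin_cases i <;> simp at hi
  have baseG : ∀ (α : Fin v → Bool), (∀ c, base c → ∃ i, α (c i).1 = (c i).2) → G α := by
    intro α hα
    refine ⟨?_, ?_, ?_, ?_⟩
    · intro b hb
      exact local3 α hα (S 0 b) (S 0 b) (S 0 b) (fun x _ _ => x = (2 ^ r - k).testBit b) (fun β hβ => hβ.1 b hb)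
    · intro i hi b hb
      exact local3 α hα (S (i + 1) b) (S i b) (C i b) (fun x y z => x = xor y z) (fun β hβ => hβ.2.1 i hi b hb)
    · intro i hi b hb
      exact local3 α hα (C i (b + 1)) (S i b) (C i b) (fun x y z => x = (y && z)) (fun β hβ => hβ.2.2.1 i hi b hb)
    · intro i hi
      exact local3 α hα (C i r) (C i r) (C i r) (fun x _ _ => x = false) (fun β hβ => hβ.2.2.2 i hi)
  let unit : Fin n → Clause v := fun i _ => (C i.val 0, true)
  have hunit : Function.Injective unit := by
    intro i j hij
    have h := congrFun hij 0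
    simp only [unit, Prod.mk.injEq, and_true] at h
    have h2 := e.injective h
    simp only [Prod.mk.injEq, true_and, and_true] at h2
    have h3 := congrArg Fin.val h2
    rw [Fin.val_ofNat, Fin.val_ofNat, Nat.mod_eq_of_lt (by omega), Nat.mod_eq_of_lt (by omega)] at h3
    exact Fin.ext h3
  refine ⟨fun c => if base c then .inl true else if h : ∃ i, c = unit i then .inr h.choose else .inl false, ?_⟩
  intro x
  let xi : ℕ → Bool := fun i => if h : i < n then x ⟨i, h⟩ else false
  have hxi : ∑ j ∈ Finset.range n, (xi j).toNat = (Finset.univ.filter fun i => x i = true).card := by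
    rw [Finset.card_filter, Finset.sum_range]
    apply Finset.sum_congr rfl
    intro i _
    simp only [xi, i.isLt, dif_pos, Fin.eta]
    cases x i <;> simp
  have hstart : 2 ^ r - k < 2 ^ r := by
    have := Nat.two_pow_pos r
    omega
  constructor
  · rintro ⟨α, hα⟩
    have hbase : ∀ c, base c → ∃ i, α (c i).1 = (c i).2 := by
      intro c hc
      apply hα
      simp only [if_pos hc, Sum.elim_inl, id]
    have hG := baseG α hbase
    have hx : ∀ i : Fin n, x i = true → α (C i.val 0) = true := by
      intro i hi
      have : ∃ a, α (unit i a).1 = (unit i a).2 := by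
        by_cases hb : base (unit i)
        · exact hbase _ hb
        · apply hα
          have hex : ∃ j, unit i = unit j := ⟨i, rfl⟩
          beta_reduce
          rw [if_neg hb, dif_pos hex]
          have : hex.choose = i := (hunit hex.choose_spec).symm
          rw [this]
          exact hi
      obtain ⟨a, ha⟩ := this
      exact ha
    have hstep : ∀ i ≤ n, 2 ^ r - k + ∑ j ∈ Finset.range i, (xi j).toNat ≤ rv r (fun b => α (S i b)) := by
      intro i
      induction i with
      | zero =>
        intro _
        have : rv r (fun b => α (S 0 b)) = rv r (fun b => (2 ^ r - k).testBit b) := by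
          simp only [rv]
          apply Finset.sum_congr rfl
          intro b hb
          rw [hG.1 b (Finset.mem_range.mp hb)]
        rw [this, rv_testBit r _ hstart]
        simp
      | succ i ih =>
        intro hi
        have ih' := ih (by omega)
        have hs := rv_step r (fun b => α (S i b)) (fun b => α (S (i + 1) b)) (fun b => α (C i b))
          (fun b hb => hG.2.1 i (by omega) b hb) (fun b hb => hG.2.2.1 i (by omega) b hb)
        simp only [hG.2.2.2 i (by omega), Bool.toNat_false, mul_zero, add_zero] at hs
        rw [Finset.sum_range_succ, hs]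
        have : (xi i).toNat ≤ (α (C i 0)).toNat := by
          have hi' : i < n := by omega
          simp only [xi, hi', dif_pos]
          cases hxx : x ⟨i, hi'⟩
          · simp
          · have := hx ⟨i, hi'⟩ hxx
            simp only at this
            rw [this]
        omega
    have h1 := hstep n le_rfl
    have h2 := rv_lt r (fun b => α (S n b))
    rw [hxi] at h1
    omega
  · intro hlt
    let val : Bool × Fin (n + 1) × Fin (r + 1) → Bool := fun q =>
      if q.1 = true then carry (row (2 ^ r - k) xi q.2.1.val) (xi q.2.1.val) q.2.2.val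
      else row (2 ^ r - k) xi q.2.1.val q.2.2.val
    let α : Fin v → Bool := Function.extend e val (fun _ => false)
    have hαe : ∀ q, α (e q) = val q := fun q => e.injective.extend_apply _ _ _
    have hαS : ∀ i ≤ n, ∀ b ≤ r, α (S i b) = row (2 ^ r - k) xi i b := by
      intro i hi b hb
      simp only [S]
      rw [hαe]
      simp only [val, Bool.false_eq_true, if_false]
      rw [Fin.val_ofNat, Fin.val_ofNat, Nat.mod_eq_of_lt (by omega), Nat.mod_eq_of_lt (by omega)]
    have hαC : ∀ i ≤ n, ∀ b ≤ r, α (C i b) = carry (row (2 ^ r - k) xi i) (xi i) b := by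
      intro i hi b hb
      simp only [C]
      rw [hαe]
      simp only [val, if_true]
      rw [Fin.val_ofNat, Fin.val_ofNat, Nat.mod_eq_of_lt (by omega), Nat.mod_eq_of_lt (by omega)]
    have hsum : ∀ i ≤ n, 2 ^ r - k + ∑ j ∈ Finset.range i, (xi j).toNat < 2 ^ r := by
      intro i hi
      have : ∑ j ∈ Finset.range i, (xi j).toNat ≤ ∑ j ∈ Finset.range n, (xi j).toNat :=
        Finset.sum_le_sum_of_subset (Finset.range_mono hi)
      rw [hxi] at this
      omega
    have hG : G α := by
      refine ⟨?_, ?_, ?_, ?_⟩
      · intro b hb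
        rw [hαS 0 (by omega) b (by omega)]
        rfl
      · intro i hi b hb
        have e1 := hαS (i + 1) (by omega) b (by omega)
        have e2 := hαS i (by omega) b (by omega)
        have e3 := hαC i (by omega) b (by omega)
        rw [e1, e2, e3]
        rfl
      · intro i hi b hb
        have e1 := hαC i (by omega) (b + 1) (by omega)
        have e2 := hαS i (by omega) b (by omega)
        have e3 := hαC i (by omega) b (by omega)
        rw [e1, e2, e3]
        rfl
      · intro i hi
        rw [hαC i (by omega) r le_rfl]
        exact carry_false r _ xi i (hsum (i + 1) (by omega))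
    refine ⟨α, ?_⟩
    intro c hc
    by_cases hb : base c
    · exact hb α hG
    · beta_reduce at hc
      rw [if_neg hb] at hc
      by_cases hu : ∃ i, c = unit i
      · rw [dif_pos hu] at hc
        have hxt : x hu.choose = true := hc
        have hcu : c = unit hu.choose := hu.choose_spec
        refine ⟨0, ?_⟩
        rw [hcu]
        simp only [unit]
        rw [hαC _ (by omega) 0 (by omega)]
        show xi (hu.choose).val = true
        simp only [xi, (hu.choose).isLt, dif_pos, Fin.eta]
        exact hxt
      · rw [dif_neg hu] at hc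
        simp at hc

end Pool.Agent.Lib20
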