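import Pool.Agent.Lib_helper20.FormMain
import Pool.Agent.Lib_helper20.Numeric
import Pool.Agent.Lib_helper20.Reduce
import Pool.Agent.Lib_helper20.Params

namespace Pool.Agent.Lib20

open Finset

variable {p : ℕ} [hp : Fact p.Prime]

/-- Block thresholds are not a union of few functions with low-degree approximations. -/
lemma block_bound2 {t h τ m D ℓ : ℕ} {W : Type} [Fintype W] (hW : Fintype.card W ≤ 2 ^ m)
    (g : W → (Fin t × Fin (2 * h) → Bool) → Bool)
    (happ : ∀ w, ∃ (I : Type) (_ : Fintype I) (_ : Nonempty I)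
      (P : I → (Fin t × Fin (2 * h) → Bool) → ZMod p),
      (∀ i, P i ∈ LD (ZMod p) (Fin t × Fin (2 * h)) D) ∧
      ∀ x, 12 * Nat.card {i : I // ¬ P i x = toF p (g w x)} ≤ Fintype.card I)
    (hg : ∀ x, Good (h + τ) x ↔ ∃ w, g w x = true)
    (hℓ : ℓ * D < t * τ) :
    6 ^ ℓ * ((2 * h).choose (h + τ)) ^ t ≤ (2 * h * t + 1) * (5 ^ ℓ * 2 ^ (2 * h * t + m)) := by
  classical
  set H : Finset (Fin t × Fin (2 * h) → Bool) := Finset.univ.filter fun x => Good (h + τ) x with hH
  have hHcard : ((2 * h).choose (h + τ)) ^ t ≤ H.card := by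
    have := card_good t (2 * h) (h + τ)
    rwa [Nat.card_eq_fintype_card, Fintype.card_subtype] at this
  let Gw : W → Finset (Fin t × Fin (2 * h) → Bool) := fun w => H.filter fun x => g w x = true
  have hGw : ∀ w, 6 ^ ℓ * (Gw w).card ≤ (2 * h * t + 1) * (5 ^ ℓ * 2 ^ (2 * h * t)) := by
    intro w
    obtain ⟨I, hI1, hI2, P, hP1, hP2⟩ := happ w
    have hIpos : (0 : ℚ) < Fintype.card I := by
      have : 0 < Fintype.card I := Fintype.card_pos
      exact_mod_cast this
    have hsum : ∀ x, ∑ i : I, (1 / (Fintype.card I : ℚ)) * (if P i x ≠ 0 then 1 else 0) =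
        (1 / (Fintype.card I : ℚ)) * ((Finset.univ.filter fun i => P i x ≠ 0).card : ℚ) := by
      intro x
      rw [← Finset.mul_sum, Finset.sum_boole]
    have hbad : ∀ x, 12 * (Finset.univ.filter fun i => ¬ P i x = toF p (g w x)).card ≤ Fintype.card I := by
      intro x
      have := hP2 x
      rw [Nat.card_eq_fintype_card, Fintype.card_subtype] at this
      exact this
    have hcore := core (fun _ : I => 1 / (Fintype.card I : ℚ)) (fun _ => by positivity) P hP1 (Gw w) Hᶜ (by
        rw [Finset.disjoint_left]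
        intro x hx hx'
        exact (Finset.mem_compl.mp hx') (Finset.mem_filter.mp hx).1)
      (fun x hx => by
        have hgx : g w x = true := (Finset.mem_filter.mp hx).2
        have h1 := hbad x
        have h2 : (Finset.univ.filter fun i => ¬ P i x ≠ 0).card ≤
            (Finset.univ.filter fun i => ¬ P i x = toF p (g w x)).card := by
          apply Finset.card_le_card
          intro i
          simp only [Finset.mem_filter, Finset.mem_univ, true_and, ne_eq, not_not]
          intro hi
          rw [hi, hgx]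
          simp [toF]
        have h3 := Finset.card_filter_add_card_filter_not (s := (Finset.univ : Finset I)) (fun i => P i x ≠ 0)
        rw [Finset.card_univ] at h3
        have h4 : 11 * Fintype.card I ≤ 12 * (Finset.univ.filter fun i => P i x ≠ 0).card := by omega
        have h5 : (11 : ℚ) * Fintype.card I ≤ 12 * ((Finset.univ.filter fun i => P i x ≠ 0).card : ℚ) := by
          exact_mod_cast h4
        rw [hsum, one_div, le_inv_mul_iff₀ hIpos]
        linarith)
      (fun x hx => by
        have hgx : g w x = false := by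
          by_contra hne
          rw [Bool.not_eq_false] at hne
          have := (hg x).mpr ⟨w, hne⟩
          exact (Finset.mem_compl.mp hx) (by simp [hH, this])
        have h1 := hbad x
        have h2 : (Finset.univ.filter fun i => P i x ≠ 0).card ≤
            (Finset.univ.filter fun i => ¬ P i x = toF p (g w x)).card := by
          apply Finset.card_le_card
          intro i
          simp only [Finset.mem_filter, Finset.mem_univ, true_and, ne_eq]
          intro hi
          rw [hgx]
          simpa [toF] using hi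
        have h4 : 12 * (Finset.univ.filter fun i => P i x ≠ 0).card ≤ Fintype.card I := by omega
        have h5 : (12 : ℚ) * ((Finset.univ.filter fun i => P i x ≠ 0).card : ℚ) ≤ Fintype.card I := by
          exact_mod_cast h4
        rw [hsum, one_div, inv_mul_le_iff₀ hIpos]
        linarith)
      ℓ (t * (h + τ))
      (fun x hx => by
        apply good_wt
        rw [Finset.mem_compl, not_not] at hx
        exact (Finset.mem_filter.mp hx).2)
      (by
        rw [Fintype.card_prod, Fintype.card_fin, Fintype.card_fin]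
        nlinarith)
    rw [Fintype.card_prod, Fintype.card_fin, Fintype.card_fin] at hcore
    have hcompl : (Hᶜ).card ≤ 2 ^ (2 * h * t) := by
      calc (Hᶜ).card ≤ Fintype.card (Fin t × Fin (2 * h) → Bool) := Finset.card_le_univ _
        _ = 2 ^ (2 * h * t) := by
          rw [Fintype.card_fun, Fintype.card_bool, Fintype.card_prod, Fintype.card_fin, Fintype.card_fin, mul_comm t]
    calc 6 ^ ℓ * (Gw w).card ≤ (t * (2 * h) + 1) * (5 ^ ℓ * (Hᶜ).card) := hcore
      _ ≤ (t * (2 * h) + 1) * (5 ^ ℓ * 2 ^ (2 * h * t)) := by gcongr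
      _ = _ := by rw [mul_comm t]
  have hcover : H.card ≤ ∑ w, (Gw w).card := by
    calc H.card ≤ (Finset.univ.biUnion Gw).card := by
          apply Finset.card_le_card
          intro x hx
          rw [Finset.mem_biUnion]
          obtain ⟨w, hw⟩ := (hg x).mp (Finset.mem_filter.mp hx).2
          exact ⟨w, Finset.mem_univ _, Finset.mem_filter.mpr ⟨hx, hw⟩⟩
      _ ≤ _ := Finset.card_biUnion_le
  calc 6 ^ ℓ * ((2 * h).choose (h + τ)) ^ t ≤ 6 ^ ℓ * ∑ w, (Gw w).card :=
        Nat.mul_le_mul_left _ (hHcard.trans hcover)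
    _ = ∑ w, 6 ^ ℓ * (Gw w).card := Finset.mul_sum _ _ _
    _ ≤ ∑ _w : W, (2 * h * t + 1) * (5 ^ ℓ * 2 ^ (2 * h * t)) := Finset.sum_le_sum fun w _ => hGw w
    _ = Fintype.card W * ((2 * h * t + 1) * (5 ^ ℓ * 2 ^ (2 * h * t))) := by simp
    _ ≤ 2 ^ m * ((2 * h * t + 1) * (5 ^ ℓ * 2 ^ (2 * h * t))) := Nat.mul_le_mul_right _ hW
    _ = _ := by rw [pow_add]; ring

/-- Lower bound for formula verifiers whose witness bits outside a set `R` of at most `m` bits are
read at most once. -/
lemma read_once_bound (d t v s m : ℕ) (κ : Type) [DecidableEq κ] (φ : Form (Fin t × Clause v) κ)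
    (R : Finset κ) (hR : R.card ≤ m) (hread : ∀ k, k ∉ R → Form.reads k φ ≤ 1)
    (hdepth : Form.depth φ ≤ d) (hsize : Form.size φ ≤ s)
    (hφ : ∀ ψ : DisjOfCNF t v, Unsat ψ ↔ ∃ y, Form.eval p ψ y φ = true)
    (hv : (12288 * p ^ 3 * Nat.log 2 (s + v + 2)) ^ (2 * d + 2) ≤ v) :
    t * v ≤ m * (12288 * p ^ 3 * Nat.log 2 (s + v + 2)) ^ (2 * d + 2) := by
  classical
  rcases Nat.eq_zero_or_pos t with ht | ht
  · subst ht; simp
  set lam := Nat.log 2 (s + v + 2) with hlamdef
  have hp2 : 2 ≤ p := hp.out.two_le
  have hlam : 1 ≤ lam := by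
    rw [hlamdef]
    exact Nat.log_pos (by norm_num) (by omega)
  have hpow : s + v + 2 < 2 ^ (lam + 1) := Nat.lt_pow_succ_log_self (by norm_num) _
  have hK : 12288 * p ^ 3 * lam = 6144 * (2 * p ^ 3) * lam := by ring
  rw [hK] at hv ⊢
  set k0 := lam + 5 + p with hk0
  set E := 2 * p ^ 2 * k0 with hE
  set L := E ^ d with hLdef
  have hbase : 1 ≤ E := by
    have : 0 < 2 * p ^ 2 * k0 := by positivity
    exact this
  have hL1 : 1 ≤ L := Nat.pow_pos hbase
  have hLle : L ≤ (6 * (2 * p ^ 3) * lam) ^ d := by
    apply Nat.pow_le_pow_left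
    have h1 : k0 ≤ 4 * p * lam := by
      rw [hk0]
      nlinarith [Nat.mul_le_mul hp2 hlam]
    calc E = 2 * p ^ 2 * k0 := hE
      _ ≤ 2 * p ^ 2 * (4 * p * lam) := Nat.mul_le_mul_left _ h1
      _ = 8 * (p ^ 3 * lam) := by ring
      _ ≤ 12 * (p ^ 3 * lam) := Nat.mul_le_mul_right _ (by norm_num)
      _ = _ := by ring
  obtain ⟨hu1, hbig, hM⟩ := parameters (2 * p ^ 3) d v (by
      have : 1 ≤ p ^ 3 := Nat.pow_pos (by omega)
      omega) lam L hlam hL1 hLle hv
  set M := 98304 * L ^ 2 * lam with hMdef
  set u := v / M with hu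
  have hMpos : 0 < M := by positivity
  set h := (64 * L) * (64 * L) * u with hh
  set τ := (64 * L) * u with hτ
  have hτ1 : 1 ≤ τ := Nat.mul_pos (by omega) hu1
  have hhτ : τ ≤ h := by
    rw [hh, hτ]
    apply Nat.mul_le_mul_right
    exact Nat.le_mul_of_pos_left _ (by omega)
  have hMu : M * u ≤ v := Nat.mul_div_le v M
  have h2h1 : 1 ≤ 2 * h := by omega
  have hcount : 2 * ((2 * h + 1) * ((lam + 1) + 1)) ≤ v := by
    calc 2 * ((2 * h + 1) * ((lam + 1) + 1)) ≤ 2 * ((2 * (2 * h)) * (3 * lam)) := by
          apply Nat.mul_le_mul_left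
          apply Nat.mul_le_mul <;> omega
      _ = M * u := by rw [hh, hMdef]; ring
      _ ≤ v := hMu
  have hk1 : h + τ ≤ 2 ^ (lam + 1) := by
    have : 2 * h + 1 ≤ v := by nlinarith
    omega
  obtain ⟨π, hπ⟩ := reduction (2 * h) (h + τ) (lam + 1) v (by omega) hk1 hcount
  let π' : Fin t × Clause v → Bool ⊕ (Fin t × Fin (2 * h)) := fun jc =>
    Sum.map id (fun i => (jc.1, i)) (π jc.2)
  let form : (Fin t × Fin (2 * h) → Bool) → DisjOfCNF t v := fun x i => Sum.elim id x (π' i)
  have hform : ∀ x, Unsat (form x) ↔ Good (h + τ) x := by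
    intro x
    have h1 : ∀ j c, form x (j, c) = Sum.elim id (fun i => x (j, i)) (π c) := by
      intro j c
      simp only [form, π']
      cases π c <;> rfl
    constructor
    · intro hun j
      by_contra hlt
      rw [not_le] at hlt
      obtain ⟨α, hα⟩ := (hπ (fun i => x (j, i))).mpr hlt
      exact hun ⟨α, j, fun c hc => hα c (by rw [← h1]; exact hc)⟩
    · rintro hgood ⟨α, j, hα⟩
      have := (hπ (fun i => x (j, i))).mp ⟨α, fun c hc => hα c (by rw [h1]; exact hc)⟩
      have h2 := hgood j
      rw [wt] at h2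
      omega
  have hu' : ∀ i, (fun x => toF p (form x i)) ∈ LD (ZMod p) (Fin t × Fin (2 * h)) 1 := by
    intro i
    simp only [form]
    cases π' i with
    | inl b => simpa using const_mem 1 b
    | inr k =>
      have : (fun x : Fin t × Fin (2 * h) → Bool => toF p (Sum.elim id x (Sum.inr k : Bool ⊕ (Fin t × Fin (2 * h))))) =
          mono (ZMod p) {k} := by
        funext x; simp [mono, toF]
      rw [this]
      apply mono_mem_LD
      simp
  have hmain := block_bound2 (p := p) (t := t) (h := h) (τ := τ) (m := m) (D := L)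
    (ℓ := 64 * t * u - 1) (W := R → Bool) (by
      rw [Fintype.card_fun, Fintype.card_bool, Fintype.card_coe]
      exact Nat.pow_le_pow_right (by norm_num) hR)
    (fun w x => decide (Form.Can p R w (form x) φ true))
    (by
      intro w
      obtain ⟨I, hI1, hI2, P, hP1, hP2⟩ := approx_form (p := p) R w form hu' k0 (by omega) φ hread
      refine ⟨I, hI1, hI2, fun i => P i true, fun i => ?_, fun x => ?_⟩
      · exact LD_mono (Nat.pow_le_pow_right hbase hdepth) (hP1 i true)
      · have hx := hP2 x
        have hle : Nat.card {i : I // ¬ P i true x = toF p (decide (Form.Can p R w (form x) φ true))} ≤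
            Nat.card {i : I // ¬ ∀ b, P i b x = toF p (decide (Form.Can p R w (form x) φ b))} := by
          rw [Nat.card_eq_fintype_card, Nat.card_eq_fintype_card, Fintype.card_subtype, Fintype.card_subtype]
          apply Finset.card_le_card
          intro i
          simp only [Finset.mem_filter, Finset.mem_univ, true_and]
          intro hi hcon
          exact hi (hcon true)
        have hsk : 12 * (p * Form.size φ) ≤ 2 ^ k0 := by
          have e1 : 2 ^ k0 = (2 ^ (lam + 1) * 2 ^ p) * 16 := by
            rw [hk0, ← pow_add, show lam + 5 + p = (lam + 1 + p) + 4 by ring, pow_add]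
            norm_num
          rw [e1]
          have h2 : Form.size φ * p ≤ 2 ^ (lam + 1) * 2 ^ p := by
            apply Nat.mul_le_mul
            · omega
            · exact (Nat.lt_two_pow_self).le
          nlinarith
        have h2 : 2 ^ k0 * (12 * Nat.card {i : I // ¬ P i true x = toF p (decide (Form.Can p R w (form x) φ true))}) ≤
            2 ^ k0 * Fintype.card I := by
          calc _ ≤ 2 ^ k0 * (12 * Nat.card {i : I // ¬ ∀ b, P i b x = toF p (decide (Form.Can p R w (form x) φ b))}) :=
                Nat.mul_le_mul_left _ (Nat.mul_le_mul_left _ hle)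
            _ = 12 * (2 ^ k0 * Nat.card {i : I // ¬ ∀ b, P i b x = toF p (decide (Form.Can p R w (form x) φ b))}) := by ring
            _ ≤ 12 * (p * Form.size φ * Fintype.card I) := Nat.mul_le_mul_left _ hx
            _ = (12 * (p * Form.size φ)) * Fintype.card I := by ring
            _ ≤ 2 ^ k0 * Fintype.card I := Nat.mul_le_mul_right _ hsk
        exact Nat.le_of_mul_le_mul_left h2 (by positivity))
    (by
      intro x
      rw [← hform, hφ]
      simp only [decide_eq_true_eq]
      constructor
      · rintro ⟨y, hy⟩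
        exact ⟨fun k => y k.1, y, fun _ => rfl, hy⟩
      · rintro ⟨w, y, _, hy⟩
        exact ⟨y, hy⟩)
    (by
      have htu : 1 ≤ t * u := Nat.mul_pos ht hu1
      have e1 : t * τ = (64 * t * u) * L := by rw [hτ]; ring
      rw [e1]
      have h1 : 64 * t * u - 1 < 64 * t * u := by
        have : 0 < 64 * t * u := by
          have : 64 * t * u = 64 * (t * u) := by ring
          omega
        omega
      exact Nat.mul_lt_mul_of_pos_right h1 (by omega))
  have hm := numeric (t := t) (u := u) (L := L) (m := m) ht hu1 hL1 hbig hmain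
  have hv2 : v ≤ M * (2 * u) := by
    have h1 : v < M * (u + 1) := by
      rw [hu]
      exact Nat.lt_mul_div_succ v hMpos
    calc v ≤ M * (u + 1) := h1.le
      _ ≤ M * (2 * u) := Nat.mul_le_mul_left _ (by omega)
  calc t * v ≤ t * (M * (2 * u)) := Nat.mul_le_mul_left _ hv2
    _ = (2 * (t * u)) * M := by ring
    _ ≤ m * M := by
        apply Nat.mul_le_mul_right
        have : 7 * t * u = 7 * (t * u) := by ring
        omega
    _ ≤ m * (6144 * (2 * p ^ 3) * lam) ^ (2 * d + 2) := Nat.mul_le_mul_left _ hM

end Pool.Agent.Lib20
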