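import Mathlib

/-!
Constant-depth formulas with unbounded fan-in AND, OR and MOD_p gates over input bits and
witness bits, and nondeterministic NAND circuits.
-/

namespace Pool.Agent.Lib20

/-- Formulas (trees) over input bits indexed by `ι` and witness bits indexed by `κ`. The gates
`and`, `or`, `mod` have arbitrary fan-in `n`; negations `neg` are free. -/
inductive Form (ι κ : Type) : Type where
  | const (b : Bool) : Form ι κ
  | inp (i : ι) : Form ι κ
  | wit (k : κ) : Form ι κ
  | neg (f : Form ι κ) : Form ι κ
  | and (n : ℕ) (f : Fin n → Form ι κ) : Form ι κ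
  | or (n : ℕ) (f : Fin n → Form ι κ) : Form ι κ
  | mod (n : ℕ) (f : Fin n → Form ι κ) : Form ι κ

namespace Form

variable {ι κ : Type}

/-- Value of a formula on input `x` and witness `y`. A `mod` gate is true when the number of its
true children is divisible by `p`. -/
def eval (p : ℕ) (x : ι → Bool) (y : κ → Bool) : Form ι κ → Bool
  | const b => b
  | inp i => x i
  | wit k => y k
  | neg f => !(eval p x y f)
  | and _ f => decide (∀ i, eval p x y (f i) = true)
  | or _ f => decide (∃ i, eval p x y (f i) = true)
  | mod _ f => decide (p ∣ (Finset.univ.filter fun i => eval p x y (f i) = true).card)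

/-- Number of leaves labelled by the witness bit `k`. -/
def reads [DecidableEq κ] (k : κ) : Form ι κ → ℕ
  | const _ => 0
  | inp _ => 0
  | wit j => if j = k then 1 else 0
  | neg f => reads k f
  | and _ f => ∑ i, reads k (f i)
  | or _ f => ∑ i, reads k (f i)
  | mod _ f => ∑ i, reads k (f i)

/-- Size: number of leaves and gates (negations are free). -/
def size : Form ι κ → ℕ
  | const _ => 1
  | inp _ => 1
  | wit _ => 1
  | neg f => size f
  | and _ f => 1 + ∑ i, size (f i)
  | or _ f => 1 + ∑ i, size (f i)
  | mod _ f => 1 + ∑ i, size (f i)

/-- Depth: largest number of gates on a branch (negations are free). -/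
def depth : Form ι κ → ℕ
  | const _ => 0
  | inp _ => 0
  | wit _ => 0
  | neg f => depth f
  | and _ f => 1 + Finset.univ.sup fun i => depth (f i)
  | or _ f => 1 + Finset.univ.sup fun i => depth (f i)
  | mod _ f => 1 + Finset.univ.sup fun i => depth (f i)

end Form

end Pool.Agent.Lib20
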