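import Pool.Agent.Lib_helper20.FormApprox

namespace Pool.Agent.Lib20

open Finset

variable {p : ℕ} [hp : Fact p.Prime] {ι : Type} [Fintype ι] [DecidableEq ι]

lemma App.mono {k0 D D' c c' : ℕ} {g : Bool → (ι → Bool) → Bool} (h : App p k0 D c g)
    (hD : D ≤ D') (hc : c ≤ c') : App p k0 D' c' g := by
  obtain ⟨I, hI1, hI2, P, hP1, hP2⟩ := h
  exact ⟨I, hI1, hI2, P, fun i b => LD_mono hD (hP1 i b), fun x =>
    (hP2 x).trans (Nat.mul_le_mul_right _ hc)⟩

lemma App.swap {k0 D c : ℕ} {g : Bool → (ι → Bool) → Bool} (h : App p k0 D c g) :
    App p k0 D c (fun b => g (!b)) := by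
  obtain ⟨I, hI1, hI2, P, hP1, hP2⟩ := h
  refine ⟨I, hI1, hI2, fun i b => P i (!b), fun i b => hP1 i _, fun x => ?_⟩
  have : (fun i : I => ¬ ∀ b, P i (!b) x = toF p (g (!b) x)) =
      fun i : I => ¬ ∀ b, P i b x = toF p (g b x) := by
    funext i
    apply propext
    apply not_congr
    constructor
    · intro h b
      have := h (!b)
      rwa [Bool.not_not] at this
    · intro h b
      exact h (!b)
  have h2 : Nat.card {i : I // ¬ ∀ b, P i (!b) x = toF p (g (!b) x)} =
      Nat.card {i : I // ¬ ∀ b, P i b x = toF p (g b x)} := by
    rw [show {i : I // ¬ ∀ b, P i (!b) x = toF p (g (!b) x)} =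
      {i : I // ¬ ∀ b, P i b x = toF p (g b x)} from congrArg Subtype this]
  rw [h2]
  exact hP2 x

lemma const_mem (D : ℕ) (b : Bool) : (fun _ : ι → Bool => toF p b) ∈ LD (ZMod p) ι D := by
  have : (fun _ : ι → Bool => toF p b) = (toF p b) • (1 : (ι → Bool) → ZMod p) := by
    funext x; simp
  rw [this]
  exact Submodule.smul_mem _ _ (one_mem_LD _)

lemma toF_and (p : ℕ) (a b : Bool) : toF p (a && b) = toF p a * toF p b := by
  cases a <;> cases b <;> simp [toF]

open Classical in
lemma toF_decide_not (p : ℕ) (P : Prop) : toF p (decide (¬ P)) = 1 - toF p (decide P) := by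
  rw [← toF_not]
  congr 1
  by_cases h : P <;> simp [h]

variable {ι' κ : Type} [DecidableEq κ]

open Classical in
/-- The functions stating that the value `b` can be achieved have low-degree approximations. -/
lemma approx_form (R : Finset κ) (w : R → Bool) (u : (ι → Bool) → ι' → Bool)
    (hu : ∀ i, (fun x => toF p (u x i)) ∈ LD (ZMod p) ι 1) (k0 : ℕ) (hk0 : 1 ≤ k0)
    (φ : Form ι' κ) (hread : ∀ k, k ∉ R → Form.reads k φ ≤ 1) :
    App p k0 ((2 * p ^ 2 * k0) ^ (Form.depth φ)) (p * Form.size φ)
      (fun b x => decide (Form.Can p R w (u x) φ b)) := by
  have hp2 : 2 ≤ p := hp.out.two_le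
  set E := 2 * p ^ 2 * k0 with hE
  have hE1 : 1 ≤ E := by
    have : 0 < 2 * p ^ 2 * k0 := by positivity
    exact this
  have hE2 : (p - 1) * k0 ≤ E := by
    rw [hE]
    apply Nat.mul_le_mul_right
    nlinarith [Nat.sub_le p 1]
  induction φ with
  | const b =>
    apply App.exact
    intro c
    simp only [Form.can_const]
    exact const_mem _ _
  | inp i =>
    apply App.exact
    intro c
    simp only [Form.can_inp, Form.depth, pow_zero]
    cases c
    · have : (fun x => toF p (decide (u x i = false))) = 1 - fun x => toF p (u x i) := by
        funext x
        simp only [Pi.sub_apply, Pi.one_apply, ← toF_not]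
        cases u x i <;> simp
      rw [this]
      exact Submodule.sub_mem _ (one_mem_LD _) (hu i)
    · have : (fun x => toF p (decide (u x i = true))) = fun x => toF p (u x i) := by
        funext x
        cases u x i <;> simp
      rw [this]
      exact hu i
  | wit k =>
    apply App.exact
    intro c
    by_cases hk : k ∈ R
    · simp only [Form.can_wit_mem p R w _ k hk]
      exact const_mem _ _
    · simp only [Form.can_wit_not_mem p R w _ k hk]
      exact const_mem _ _
  | neg f ih =>
    have := (ih hread).swap
    simp only [Form.can_neg]
    exact this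
  | and n f ih =>
    have hr1 : ∀ k, k ∉ R → ∑ i, Form.reads k (f i) ≤ 1 := hread
    set δ := Finset.univ.sup fun i => Form.depth (f i) with hδ
    have ih' : ∀ i, App p k0 (E ^ δ) (p * Form.size (f i))
        (fun b x => decide (Form.Can p R w (u x) (f i) b)) := fun i =>
      (ih i (fun k hk => (Finset.single_le_sum (f := fun i => Form.reads k (f i))
        (fun _ _ => Nat.zero_le _) (Finset.mem_univ i)).trans (hr1 k hk))).mono
        (Nat.pow_le_pow_right hE1 (Finset.le_sup (f := fun i => Form.depth (f i)) (Finset.mem_univ i))) le_rfl
    have hstep := App.step (D := E ^ δ) (D1 := E ^ δ) (D' := E ^ (1 + δ)) _ _ ih' Bool (Fin n)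
      (fun b t P => if b = true then 1 - P t true else P t false)
      (by
        intro P hP b t
        cases b
        · simpa using hP t false
        · simpa using Submodule.sub_mem _ (one_mem_LD _) (hP t true))
      (fun b t x => if b = true then !decide (Form.Can p R w (u x) (f t) true)
        else decide (Form.Can p R w (u x) (f t) false))
      (by
        intro P x hP b t
        cases b
        · simpa using hP t false
        · simp only [if_true, Pi.sub_apply, Pi.one_apply, toF_not]
          rw [hP t true])
      (fun _ Q b => if b = true then 1 - Q true else Q false)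
      (by
        intro P Q hP hQ b
        have hle : (p - 1) * k0 * E ^ δ ≤ E ^ (1 + δ) := by
          rw [pow_add, pow_one]
          exact Nat.mul_le_mul_right _ hE2
        cases b
        · simpa using LD_mono hle (hQ false)
        · simpa using Submodule.sub_mem _ (one_mem_LD _) (LD_mono hle (hQ true)))
      (fun b x => decide (Form.Can p R w (u x) (Form.and n f) b))
      (by
        intro P Q x hP hQ b
        cases b
        · simp only [Bool.false_eq_true, if_false]
          rw [hQ false]
          congr 1
          rw [decide_eq_decide, Form.can_and_false]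
          simp
        · simp only [if_true, Pi.sub_apply, Pi.one_apply]
          rw [hQ true, ← toF_not]
          congr 1
          rw [Bool.eq_iff_iff, decide_eq_true_eq, Form.can_and_true p R w _ f hr1]
          simp)
    refine hstep.mono le_rfl ?_
    simp only [Form.size]
    rw [← Finset.mul_sum, Fintype.card_bool, mul_add, mul_one]
    omega
  | or n f ih =>
    have hr1 : ∀ k, k ∉ R → ∑ i, Form.reads k (f i) ≤ 1 := hread
    set δ := Finset.univ.sup fun i => Form.depth (f i) with hδ
    have ih' : ∀ i, App p k0 (E ^ δ) (p * Form.size (f i))
        (fun b x => decide (Form.Can p R w (u x) (f i) b)) := fun i =>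
      (ih i (fun k hk => (Finset.single_le_sum (f := fun i => Form.reads k (f i))
        (fun _ _ => Nat.zero_le _) (Finset.mem_univ i)).trans (hr1 k hk))).mono
        (Nat.pow_le_pow_right hE1 (Finset.le_sup (f := fun i => Form.depth (f i)) (Finset.mem_univ i))) le_rfl
    have hstep := App.step (D := E ^ δ) (D1 := E ^ δ) (D' := E ^ (1 + δ)) _ _ ih' Bool (Fin n)
      (fun b t P => if b = true then P t true else 1 - P t false)
      (by
        intro P hP b t
        cases b
        · simpa using Submodule.sub_mem _ (one_mem_LD _) (hP t false)
        · simpa using hP t true)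
      (fun b t x => if b = true then decide (Form.Can p R w (u x) (f t) true)
        else !decide (Form.Can p R w (u x) (f t) false))
      (by
        intro P x hP b t
        cases b
        · simp only [Bool.false_eq_true, if_false, Pi.sub_apply, Pi.one_apply, toF_not]
          rw [hP t false]
        · simpa using hP t true)
      (fun _ Q b => if b = true then Q true else 1 - Q false)
      (by
        intro P Q hP hQ b
        have hle : (p - 1) * k0 * E ^ δ ≤ E ^ (1 + δ) := by
          rw [pow_add, pow_one]
          exact Nat.mul_le_mul_right _ hE2
        cases b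
        · simpa using Submodule.sub_mem _ (one_mem_LD _) (LD_mono hle (hQ false))
        · simpa using LD_mono hle (hQ true))
      (fun b x => decide (Form.Can p R w (u x) (Form.or n f) b))
      (by
        intro P Q x hP hQ b
        cases b
        · simp only [Bool.false_eq_true, if_false, Pi.sub_apply, Pi.one_apply]
          rw [hQ false, ← toF_not]
          congr 1
          rw [Bool.eq_iff_iff, decide_eq_true_eq, Form.can_or_false p R w _ f hr1]
          simp
        · simp only [if_true]
          rw [hQ true]
          congr 1
          rw [decide_eq_decide, Form.can_or_true]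
          simp)
    refine hstep.mono le_rfl ?_
    simp only [Form.size]
    rw [← Finset.mul_sum, Fintype.card_bool, mul_add, mul_one]
    omega
  | mod n f ih =>
    have hr1 : ∀ k, k ∉ R → ∑ i, Form.reads k (f i) ≤ 1 := hread
    set δ := Finset.univ.sup fun i => Form.depth (f i) with hδ
    have ih' : ∀ i, App p k0 (E ^ δ) (p * Form.size (f i))
        (fun b x => decide (Form.Can p R w (u x) (f i) b)) := fun i =>
      (ih i (fun k hk => (Finset.single_le_sum (f := fun i => Form.reads k (f i))
        (fun _ _ => Nat.zero_le _) (Finset.mem_univ i)).trans (hr1 k hk))).mono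
        (Nat.pow_le_pow_right hE1 (Finset.le_sup (f := fun i => Form.depth (f i)) (Finset.mem_univ i))) le_rfl
    have hstep := App.step (D := E ^ δ) (D1 := (p - 1) * (E ^ δ + E ^ δ)) (D' := E ^ (1 + δ)) _ _ ih'
      (Fin p) (Finset (Fin n))
      (fun j S P => if S.card = j then ∏ a ∈ S, (P a true * P a false) else 0)
      (by
        intro P hP j S
        split_ifs with hS
        · refine LD_mono ?_ (prod_mem_LD S (a := E ^ δ + E ^ δ) (fun a => P a true * P a false)
            (fun a _ => mul_mem_LD (hP a true) (hP a false)))
          apply Nat.mul_le_mul_right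
          have := j.isLt
          omega
        · exact Submodule.zero_mem _)
      (fun j S x => decide (S.card = j ∧ ∀ a ∈ S, Form.Can p R w (u x) (f a) true ∧
        Form.Can p R w (u x) (f a) false))
      (by
        intro P x hP j S
        split_ifs with hS
        · rw [Finset.prod_apply]
          simp only [Pi.mul_apply, hP]
          by_cases hall : ∀ a ∈ S, Form.Can p R w (u x) (f a) true ∧ Form.Can p R w (u x) (f a) false
          · rw [decide_eq_true ⟨hS, hall⟩]
            rw [Finset.prod_eq_one]
            · simp [toF]
            · intro a ha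
              rw [decide_eq_true (hall a ha).1, decide_eq_true (hall a ha).2]
              simp [toF]
          · rw [decide_eq_false (fun h => hall h.2)]
            push Not at hall
            obtain ⟨a, ha, hna⟩ := hall
            rw [Finset.prod_eq_zero ha]
            · simp [toF]
            · by_cases h1 : Form.Can p R w (u x) (f a) true
              · rw [decide_eq_false (hna h1)]
                simp [toF]
              · rw [decide_eq_false h1]
                simp [toF]
        · rw [decide_eq_false (fun h => hS h.1)]
          simp [toF])
      (fun P Q b => if b = true then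
          ∑ j : Fin p, Q j * (1 - ((∑ a, P a true * (1 - P a false)) + (j.val : (ι → Bool) → ZMod p)) ^ (p - 1))
        else 1 - (1 - Q ⟨1, by omega⟩) * (1 - (∑ a, P a true * (1 - P a false)) ^ (p - 1)))
      (by
        intro P Q hP hQ b
        have hA : (∑ a, P a true * (1 - P a false)) ∈ LD (ZMod p) ι (E ^ δ + E ^ δ) :=
          Submodule.sum_mem _ fun a _ => mul_mem_LD (hP a true)
            (Submodule.sub_mem _ (one_mem_LD _) (hP a false))
        have hj : ∀ j : ℕ, (j : (ι → Bool) → ZMod p) ∈ LD (ZMod p) ι (E ^ δ + E ^ δ) := by
          intro j
          have : (j : (ι → Bool) → ZMod p) = (j : ZMod p) • (1 : (ι → Bool) → ZMod p) := by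
            funext x; simp
          rw [this]
          exact Submodule.smul_mem _ _ (one_mem_LD _)
        have hle : (p - 1) * k0 * ((p - 1) * (E ^ δ + E ^ δ)) + (p - 1) * (E ^ δ + E ^ δ) ≤ E ^ (1 + δ) := by
          have h1 : (p - 1) * k0 * ((p - 1) * (E ^ δ + E ^ δ)) + (p - 1) * (E ^ δ + E ^ δ) =
              (2 * ((p - 1) * ((p - 1) * k0 + 1))) * E ^ δ := by ring
          rw [h1, pow_add, pow_one]
          apply Nat.mul_le_mul_right
          rw [hE]
          calc 2 * ((p - 1) * ((p - 1) * k0 + 1)) ≤ 2 * (p * (p * k0)) := by
                apply Nat.mul_le_mul_left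
                apply Nat.mul_le_mul (Nat.sub_le _ _)
                obtain ⟨q, hq⟩ : ∃ q, p = q + 1 := ⟨p - 1, by omega⟩
                rw [hq, Nat.add_sub_cancel, add_mul, one_mul]
                omega
            _ = _ := by ring
        cases b
        · simp only [Bool.false_eq_true, if_false]
          apply Submodule.sub_mem _ (one_mem_LD _)
          refine LD_mono hle (mul_mem_LD (Submodule.sub_mem _ (one_mem_LD _) (hQ _))
            (Submodule.sub_mem _ (one_mem_LD _) (pow_mem_LD hA _)))
        · simp only [if_true]
          apply Submodule.sum_mem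
          intro j _
          exact LD_mono hle (mul_mem_LD (hQ _) (Submodule.sub_mem _ (one_mem_LD _)
            (pow_mem_LD (Submodule.add_mem _ hA (hj _)) _))))
      (fun b x => decide (Form.Can p R w (u x) (Form.mod n f) b))
      (by
        intro P Q x hP hQ b
        have hAx : (∑ a, P a true * (1 - P a false)) x = ((Form.forced p R w (u x) f : ℕ) : ZMod p) := by
          rw [Finset.sum_apply, Form.forced, Finset.card_filter, Nat.cast_sum]
          apply Finset.sum_congr rfl
          intro a _
          simp only [Pi.mul_apply, Pi.sub_apply, Pi.one_apply, hP]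
          by_cases h1 : Form.Can p R w (u x) (f a) true <;>
            by_cases h2 : Form.Can p R w (u x) (f a) false <;> simp [h1, h2, toF]
        have hQx : ∀ j, Q j x = toF p (decide (Form.Flex p R w (u x) f j.val)) := by
          intro j
          rw [hQ j]
          congr 1
          rw [decide_eq_decide]
          simp only [decide_eq_true_eq]
          rfl
        have hdiv : ∀ j : ℕ, (1 : ZMod p) - (((Form.forced p R w (u x) f : ℕ) : ZMod p) + (j : ZMod p)) ^ (p - 1) =
            toF p (decide (p ∣ Form.forced p R w (u x) f + j)) := by
          intro j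
          rw [← Nat.cast_add]
          by_cases hd : p ∣ Form.forced p R w (u x) f + j
          · have h0 : ((Form.forced p R w (u x) f + j : ℕ) : ZMod p) = 0 :=
              (ZMod.natCast_eq_zero_iff _ _).mpr hd
            rw [h0, zero_pow (by omega), decide_eq_true hd]
            simp [toF]
          · have h0 : ((Form.forced p R w (u x) f + j : ℕ) : ZMod p) ≠ 0 := by
              intro h
              exact hd ((ZMod.natCast_eq_zero_iff _ _).mp h)
            rw [ZMod.pow_card_sub_one_eq_one h0, decide_eq_false hd]
            simp [toF]
        cases b
        · simp only [Bool.false_eq_true, if_false, Pi.sub_apply, Pi.one_apply, Pi.mul_apply, Pi.pow_apply, hAx, hQx]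
          have h0 := hdiv 0
          rw [Nat.cast_zero, add_zero, add_zero] at h0
          rw [h0, ← toF_not, ← toF_and, ← toF_not]
          congr 1
          rw [Bool.eq_iff_iff, decide_eq_true_eq, Form.can_mod_false p R w _ f hp2 hr1]
          simp
          tauto
        · simp only [if_true, Finset.sum_apply, Pi.sub_apply, Pi.one_apply, Pi.mul_apply, Pi.pow_apply,
            Pi.add_apply, Pi.natCast_apply, hAx, hQx, hdiv, ← toF_and]
          by_cases hex : ∃ j : Fin p, Form.Flex p R w (u x) f j ∧ p ∣ Form.forced p R w (u x) f + j
          · rw [decide_eq_true ((Form.can_mod_true p R w _ f hp2 hr1).mpr hex)]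
            obtain ⟨j, hj1, hj2⟩ := hex
            rw [Finset.sum_eq_single j]
            · simp [hj1, hj2, toF]
            · intro i _ hij
              have : ¬ p ∣ Form.forced p R w (u x) f + i := by
                intro hi
                apply hij
                apply Fin.ext
                have h1 : (Form.forced p R w (u x) f + i.val) ≡ (Form.forced p R w (u x) f + j.val) [MOD p] :=
                  ((Nat.modEq_zero_iff_dvd).mpr hi).trans ((Nat.modEq_zero_iff_dvd).mpr hj2).symm
                have h2 := Nat.ModEq.add_left_cancel' _ h1
                have h3 : i.val % p = j.val % p := h2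
                rwa [Nat.mod_eq_of_lt i.isLt, Nat.mod_eq_of_lt j.isLt] at h3
              simp [this, toF]
            · intro h; exact absurd (Finset.mem_univ _) h
          · rw [decide_eq_false (fun h => hex ((Form.can_mod_true p R w _ f hp2 hr1).mp h))]
            rw [Finset.sum_eq_zero]
            · simp [toF]
            · intro j _
              have : (decide (Form.Flex p R w (u x) f ↑j) && decide (p ∣ Form.forced p R w (u x) f + ↑j)) = false := by
                rw [Bool.eq_false_iff]
                intro h
                rw [Bool.and_eq_true, decide_eq_true_eq, decide_eq_true_eq] at h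
                exact hex ⟨j, h⟩
              rw [this]
              simp [toF])
    refine hstep.mono le_rfl ?_
    simp only [Form.size]
    rw [← Finset.mul_sum, Fintype.card_fin, mul_add, mul_one]
    omega

end Pool.Agent.Lib20
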