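import Mathlib

/-!
Low-degree functions on the Boolean cube over a field, the rank lemma and the
robust vanishing lemma used for the lower bound on witnesses.
-/

namespace Pool.Agent.Lib20

open Finset

variable {ι : Type} [Fintype ι] [DecidableEq ι] {F : Type} [Field F]

/-- The multilinear monomial of a set of coordinates, as a function on the cube. -/
def mono (F : Type) [Field F] {ι : Type} (T : Finset ι) (x : ι → Bool) : F :=
  if ∀ i ∈ T, x i = true then 1 else 0

/-- Functions on the cube of degree at most `D`. -/
def LD (F : Type) [Field F] (ι : Type) [Fintype ι] [DecidableEq ι] (D : ℕ) :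
    Submodule F ((ι → Bool) → F) :=
  Submodule.span F (Set.range (fun T : {T : Finset ι // T.card ≤ D} => mono F T.1))

omit [Fintype ι] [DecidableEq ι] in
lemma mono_mul [DecidableEq ι] (S T : Finset ι) : mono F S * mono F T = mono F (S ∪ T) := by
  funext x
  simp only [mono, Pi.mul_apply]
  by_cases h1 : ∀ i ∈ S, x i = true
  · by_cases h2 : ∀ i ∈ T, x i = true
    · have h3 : ∀ i ∈ S ∪ T, x i = true := by
        intro i hi
        rcases Finset.mem_union.mp hi with h | h
        · exact h1 i h
        · exact h2 i h
      rw [if_pos h1, if_pos h2, if_pos h3, one_mul]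
    · have h3 : ¬ ∀ i ∈ S ∪ T, x i = true := fun h => h2 fun i hi => h i (Finset.mem_union_right _ hi)
      rw [if_neg h2, if_neg h3, mul_zero]
  · have h3 : ¬ ∀ i ∈ S ∪ T, x i = true := fun h => h1 fun i hi => h i (Finset.mem_union_left _ hi)
    rw [if_neg h1, if_neg h3, zero_mul]

lemma mono_mem_LD {T : Finset ι} {D : ℕ} (h : T.card ≤ D) : mono F T ∈ LD F ι D :=
  Submodule.subset_span ⟨⟨T, h⟩, rfl⟩

lemma LD_mono {a b : ℕ} (h : a ≤ b) : LD F ι a ≤ LD F ι b := by
  refine Submodule.span_le.mpr ?_
  rintro _ ⟨T, rfl⟩
  exact mono_mem_LD (T.2.trans h)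

lemma one_mem_LD (D : ℕ) : (1 : (ι → Bool) → F) ∈ LD F ι D := by
  have : (1 : (ι → Bool) → F) = mono F (∅ : Finset ι) := by
    funext x; simp [mono]
  rw [this]
  exact mono_mem_LD (by simp)

lemma mul_mem_LD {a b : ℕ} {f g : (ι → Bool) → F} (hf : f ∈ LD F ι a) (hg : g ∈ LD F ι b) :
    f * g ∈ LD F ι (a + b) := by
  induction hf using Submodule.span_induction with
  | mem f hf =>
    obtain ⟨S, rfl⟩ := hf
    induction hg using Submodule.span_induction with
    | mem g hg =>
      obtain ⟨T, rfl⟩ := hg
      simp only
      rw [mono_mul]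
      exact mono_mem_LD ((Finset.card_union_le _ _).trans (add_le_add S.2 T.2))
    | zero => rw [mul_zero]; exact Submodule.zero_mem _
    | add g h _ _ hg hh => rw [mul_add]; exact Submodule.add_mem _ hg hh
    | smul c g _ hg => rw [mul_smul_comm]; exact Submodule.smul_mem _ _ hg
  | zero => rw [zero_mul]; exact Submodule.zero_mem _
  | add f h _ _ hf hh => rw [add_mul]; exact Submodule.add_mem _ hf hh
  | smul c f _ hf => rw [smul_mul_assoc]; exact Submodule.smul_mem _ _ hf

lemma pow_mem_LD {a : ℕ} {f : (ι → Bool) → F} (hf : f ∈ LD F ι a) (k : ℕ) :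
    f ^ k ∈ LD F ι (k * a) := by
  induction k with
  | zero => rw [pow_zero]; exact one_mem_LD _
  | succ k ih =>
    rw [pow_succ, Nat.succ_mul]
    exact mul_mem_LD ih hf

lemma prod_mem_LD {α : Type} (s : Finset α) {a : ℕ} (f : α → (ι → Bool) → F)
    (hf : ∀ i ∈ s, f i ∈ LD F ι a) : (∏ i ∈ s, f i) ∈ LD F ι (s.card * a) := by
  classical
  induction s using Finset.induction_on with
  | empty => simp only [prod_empty]; exact one_mem_LD _
  | insert i s his ih =>
    rw [Finset.prod_insert his, Finset.card_insert_of_notMem his, Nat.succ_mul, Nat.add_comm]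
    exact mul_mem_LD (hf i (Finset.mem_insert_self i s))
      (ih fun j hj => hf j (Finset.mem_insert_of_mem hj))

/-- The weight of a point of the cube. -/
def wt {ι : Type} [Fintype ι] (x : ι → Bool) : ℕ := (Finset.univ.filter fun i => x i = true).card

/-- A nonzero function of degree at most `D` is nonzero at a point of weight at most `D`. -/
lemma exists_low_point {D : ℕ} {g : (ι → Bool) → F} (hg : g ∈ LD F ι D) (h0 : g ≠ 0) :
    ∃ x, g x ≠ 0 ∧ wt x ≤ D := by
  classical
  rw [LD, Submodule.mem_span_range_iff_exists_fun] at hg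
  obtain ⟨c, hc⟩ := hg
  have hne : (Finset.univ.filter fun T : {T : Finset ι // T.card ≤ D} => c T ≠ 0).Nonempty := by
    by_contra hcon
    rw [Finset.not_nonempty_iff_eq_empty, Finset.filter_eq_empty_iff] at hcon
    apply h0
    rw [← hc]
    apply Finset.sum_eq_zero
    intro T hT
    have := hcon hT
    simp only [ne_eq, not_not] at this
    rw [this, zero_smul]
  obtain ⟨T, hT, hmin⟩ := Finset.exists_min_image _ (fun T : {T : Finset ι // T.card ≤ D} => T.1.card) hne
  have hcT : c T ≠ 0 := (Finset.mem_filter.mp hT).2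
  refine ⟨fun i => decide (i ∈ T.1), ?_, ?_⟩
  · rw [← hc]
    simp only [Finset.sum_apply, Pi.smul_apply, smul_eq_mul]
    rw [Finset.sum_eq_single T]
    · have : mono F T.1 (fun i => decide (i ∈ T.1)) = 1 := by
        simp [mono]
      rw [this, mul_one]
      exact hcT
    · intro S _ hST
      by_cases hcS : c S = 0
      · rw [hcS, zero_mul]
      · have hS : S ∈ (Finset.univ.filter fun T : {T : Finset ι // T.card ≤ D} => c T ≠ 0) := by
          simp [hcS]
        have h1 := hmin S hS
        have : ¬ ∀ i ∈ S.1, decide (i ∈ T.1) = true := by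
          intro h
          have hsub : S.1 ⊆ T.1 := fun i hi => by simpa using h i hi
          have : S.1 = T.1 := Finset.eq_of_subset_of_card_le hsub h1
          exact hST (Subtype.ext this)
        rw [mono, if_neg this, mul_zero]
    · intro h; exact absurd (Finset.mem_univ T) h
  · rw [wt]
    have : (Finset.univ.filter fun i => decide (i ∈ T.1) = true) = T.1 := by
      ext i; simp
    rw [this]
    exact T.2

end Pool.Agent.Lib20
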