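import Pool.Agent.Lib_helper20.FormDefs

/-!
Formulas with random bits, accepting by majority vote over the random bits.
-/

namespace Pool.Agent.Lib20

open Finset

namespace Form

variable {ι κ κ' : Type}

/-- Number of settings of the witness bits which make the formula true. -/
def acc (p : ℕ) [Fintype κ] [DecidableEq κ] (x : ι → Bool) (φ : Form ι κ) : ℕ :=
  (Finset.univ.filter fun y : κ → Bool => eval p x y φ = true).card

/-- Majority acceptance: more than half of the settings of the witness bits make the formula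
true. -/
def MajAcc (p : ℕ) [Fintype κ] [DecidableEq κ] (x : ι → Bool) (φ : Form ι κ) : Prop :=
  2 ^ Fintype.card κ < 2 * acc p x φ

/-- Number of settings of the witness bits which make the formula false. -/
def rej (p : ℕ) [Fintype κ] [DecidableEq κ] (x : ι → Bool) (φ : Form ι κ) : ℕ :=
  (Finset.univ.filter fun y : κ → Bool => eval p x y φ = false).card

lemma acc_add_rej (p : ℕ) [Fintype κ] [DecidableEq κ] (x : ι → Bool) (φ : Form ι κ) :
    acc p x φ + rej p x φ = 2 ^ Fintype.card κ := by
  classical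
  have h := Finset.card_filter_add_card_filter_not (s := (Finset.univ : Finset (κ → Bool)))
    (fun y => eval p x y φ = true)
  have e : rej p x φ = (Finset.univ.filter fun y : κ → Bool => ¬ eval p x y φ = true).card := by
    rw [rej]
    congr 1
    apply Finset.filter_congr
    intro y _
    simp
  rw [e, acc, h, Finset.card_univ, Fintype.card_fun, Fintype.card_bool]

lemma majAcc_iff (p : ℕ) [Fintype κ] [DecidableEq κ] (x : ι → Bool) (φ : Form ι κ) :
    MajAcc p x φ ↔ 2 * rej p x φ < 2 ^ Fintype.card κ := by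
  have := acc_add_rej p x φ
  rw [MajAcc]
  omega

lemma rej_neg (p : ℕ) [Fintype κ] [DecidableEq κ] (x : ι → Bool) (φ : Form ι κ) :
    rej p x (neg φ) = acc p x φ := by
  rw [rej, acc]
  congr 1
  apply Finset.filter_congr
  intro y _
  simp [eval]

lemma acc_neg (p : ℕ) [Fintype κ] [DecidableEq κ] (x : ι → Bool) (φ : Form ι κ) :
    acc p x (neg φ) = rej p x φ := by
  rw [rej, acc]
  congr 1
  apply Finset.filter_congr
  intro y _
  simp [eval]

/-- Renaming of the witness bits. -/
def mapWit (e : κ → κ') : Form ι κ → Form ι κ'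
  | const b => const b
  | inp i => inp i
  | wit k => wit (e k)
  | neg f => neg (mapWit e f)
  | and n f => and n fun i => mapWit e (f i)
  | or n f => or n fun i => mapWit e (f i)
  | mod n f => mod n fun i => mapWit e (f i)

lemma eval_mapWit (p : ℕ) (e : κ → κ') (x : ι → Bool) (y : κ' → Bool) (φ : Form ι κ) :
    eval p x y (mapWit e φ) = eval p x (fun k => y (e k)) φ := by
  induction φ with
  | const b => rfl
  | inp i => rfl
  | wit k => rfl
  | neg f ih => simp only [mapWit, eval, ih]
  | and n f ih => simp only [mapWit, eval, ih]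
  | or n f ih => simp only [mapWit, eval, ih]
  | mod n f ih => simp only [mapWit, eval, ih]

lemma size_mapWit (e : κ → κ') (φ : Form ι κ) : size (mapWit e φ) = size φ := by
  induction φ with
  | const b => rfl
  | inp i => rfl
  | wit k => rfl
  | neg f ih => simp only [mapWit, size, ih]
  | and n f ih => simp only [mapWit, size, ih]
  | or n f ih => simp only [mapWit, size, ih]
  | mod n f ih => simp only [mapWit, size, ih]

lemma depth_mapWit (e : κ → κ') (φ : Form ι κ) : depth (mapWit e φ) = depth φ := by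
  induction φ with
  | const b => rfl
  | inp i => rfl
  | wit k => rfl
  | neg f ih => simp only [mapWit, depth, ih]
  | and n f ih => simp only [mapWit, depth, ih]
  | or n f ih => simp only [mapWit, depth, ih]
  | mod n f ih => simp only [mapWit, depth, ih]

lemma reads_mapWit [DecidableEq κ] [DecidableEq κ'] (e : κ → κ') (he : Function.Injective e)
    (k : κ) (φ : Form ι κ) : reads (e k) (mapWit e φ) = reads k φ := by
  induction φ with
  | const b => rfl
  | inp i => rfl
  | wit j => simp only [mapWit, reads, he.eq_iff]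
  | neg f ih => simp only [mapWit, reads, ih]
  | and n f ih => simp only [mapWit, reads, ih]
  | or n f ih => simp only [mapWit, reads, ih]
  | mod n f ih => simp only [mapWit, reads, ih]

lemma reads_mapWit_zero [DecidableEq κ'] (e : κ → κ') (k' : κ')
    (h : ∀ k, e k ≠ k') (φ : Form ι κ) : reads k' (mapWit e φ) = 0 := by
  induction φ with
  | const b => rfl
  | inp i => rfl
  | wit j => simp only [mapWit, reads, if_neg (h j)]
  | neg f ih => simp only [mapWit, reads, ih]
  | and n f ih => simp [mapWit, reads, ih]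
  | or n f ih => simp [mapWit, reads, ih]
  | mod n f ih => simp [mapWit, reads, ih]

/-- Renaming along an equivalence does not change anything. -/
lemma acc_mapWit_equiv (p : ℕ) [Fintype κ] [DecidableEq κ] [Fintype κ'] [DecidableEq κ']
    (e : κ ≃ κ') (x : ι → Bool) (φ : Form ι κ) : acc p x (mapWit e φ) = acc p x φ := by
  rw [acc, acc]
  apply Finset.card_bij (fun y _ => fun k => y (e k))
  · intro y hy
    rw [Finset.mem_filter] at hy ⊢
    refine ⟨Finset.mem_univ _, ?_⟩
    rw [← eval_mapWit]
    exact hy.2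
  · intro y _ y' _ h
    funext k'
    have := congrFun h (e.symm k')
    simpa using this
  · intro y hy
    refine ⟨fun k' => y (e.symm k'), ?_, ?_⟩
    · rw [Finset.mem_filter] at hy ⊢
      refine ⟨Finset.mem_univ _, ?_⟩
      rw [eval_mapWit]
      have : (fun k => y (e.symm (e k))) = y := by
        funext k
        rw [Equiv.symm_apply_apply]
      rw [this]
      exact hy.2
    · funext k
      show y (e.symm (e k)) = y k
      rw [Equiv.symm_apply_apply]

/-- Every formula over a finite set of witness bits can be renamed to have witness bits in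
`Fin r`. -/
lemma to_fin [Fintype κ] [DecidableEq κ] (B : ℕ) (φ : Form ι κ)
    (hφ : ∀ k, reads k φ ≤ B) :
    ∃ (r : ℕ) (ψ : Form ι (Fin r)), r = Fintype.card κ ∧ (∀ k, reads k ψ ≤ B) ∧
      depth ψ = depth φ ∧ size ψ = size φ ∧
      (∀ p x, MajAcc p x ψ ↔ MajAcc p x φ) ∧
      ∀ p x, (∃ y, eval p x y ψ = true) ↔ ∃ y, eval p x y φ = true := by
  classical
  let e : κ ≃ Fin (Fintype.card κ) := Fintype.equivFin κ
  refine ⟨Fintype.card κ, mapWit e φ, rfl, ?_, depth_mapWit _ _, size_mapWit _ _, ?_, ?_⟩
  · intro k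
    have := reads_mapWit e e.injective (e.symm k) φ
    rw [Equiv.apply_symm_apply] at this
    rw [this]
    exact hφ _
  · intro p x
    rw [MajAcc, MajAcc, acc_mapWit_equiv, Fintype.card_fin]
  · intro p x
    constructor
    · rintro ⟨y, hy⟩
      rw [eval_mapWit] at hy
      exact ⟨_, hy⟩
    · rintro ⟨y, hy⟩
      refine ⟨fun k => y (e.symm k), ?_⟩
      rw [eval_mapWit]
      simpa using hy

/-- Counting over a disjoint union of two sets of witness bits. -/
lemma card_sum_fun {κ₁ κ₂ : Type} [Fintype κ₁] [DecidableEq κ₁] [Fintype κ₂] [DecidableEq κ₂]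
    (P : (κ₁ → Bool) → Prop) (Q : (κ₂ → Bool) → Prop) [DecidablePred P] [DecidablePred Q] :
    (Finset.univ.filter fun y : κ₁ ⊕ κ₂ → Bool => P (fun k => y (.inl k)) ∧ Q (fun k => y (.inr k))).card =
      (Finset.univ.filter P).card * (Finset.univ.filter Q).card := by
  classical
  rw [← Finset.card_product]
  apply Finset.card_bij (fun y _ => (fun k => y (.inl k), fun k => y (.inr k)))
  · intro y hy
    simpa using hy
  · intro y _ y' _ h
    funext k
    rw [Prod.mk.injEq] at h
    rcases k with k | k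
    · exact congrFun h.1 k
    · exact congrFun h.2 k
  · rintro ⟨y1, y2⟩ hy
    refine ⟨Sum.elim y1 y2, ?_, ?_⟩
    · simpa using hy
    · simp

/-- Disjunction of two formulas with disjoint sets of witness bits. -/
def disj {κ₁ κ₂ : Type} (φ : Form ι κ₁) (χ : Form ι κ₂) : Form ι (κ₁ ⊕ κ₂) :=
  or 2 ![mapWit Sum.inl φ, mapWit Sum.inr χ]

lemma rej_disj {κ₁ κ₂ : Type} [Fintype κ₁] [DecidableEq κ₁] [Fintype κ₂] [DecidableEq κ₂]
    (p : ℕ) (x : ι → Bool) (φ : Form ι κ₁) (χ : Form ι κ₂) :
    rej p x (disj φ χ) = rej p x φ * rej p x χ := by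
  rw [rej, rej, rej, ← card_sum_fun]
  congr 1
  apply Finset.filter_congr
  intro y _
  simp only [disj, eval, decide_eq_false_iff_not, Fin.exists_fin_two, Matrix.cons_val_zero,
    Matrix.cons_val_one, eval_mapWit, not_or, Bool.not_eq_true]

lemma reads_disj {κ₁ κ₂ : Type} [DecidableEq κ₁] [DecidableEq κ₂] (B : ℕ) (φ : Form ι κ₁)
    (χ : Form ι κ₂) (h1 : ∀ k, reads k φ ≤ B) (h2 : ∀ k, reads k χ ≤ B) (k : κ₁ ⊕ κ₂) :
    reads k (disj φ χ) ≤ B := by
  simp only [disj, reads, Fin.sum_univ_two, Matrix.cons_val_zero, Matrix.cons_val_one]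
  rcases k with k | k
  · rw [reads_mapWit Sum.inl Sum.inl_injective, reads_mapWit_zero Sum.inr (Sum.inl k) (by simp)]
    simpa using h1 k
  · rw [reads_mapWit Sum.inr Sum.inr_injective, reads_mapWit_zero Sum.inl (Sum.inr k) (by simp)]
    simpa using h2 k

lemma depth_disj {κ₁ κ₂ : Type} (φ : Form ι κ₁) (χ : Form ι κ₂) :
    depth (disj φ χ) = 1 + max (depth φ) (depth χ) := by
  simp only [disj, depth]
  congr 1
  apply le_antisymm
  · apply Finset.sup_le
    intro s _
    fin_cases s
    · simp [depth_mapWit]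
    · simp [depth_mapWit]
  · apply max_le
    · have := Finset.le_sup (f := fun i => depth ((![mapWit Sum.inl φ, mapWit Sum.inr χ] :
        Fin 2 → Form ι (κ₁ ⊕ κ₂)) i)) (Finset.mem_univ (0 : Fin 2))
      simpa [depth_mapWit] using this
    · have := Finset.le_sup (f := fun i => depth ((![mapWit Sum.inl φ, mapWit Sum.inr χ] :
        Fin 2 → Form ι (κ₁ ⊕ κ₂)) i)) (Finset.mem_univ (1 : Fin 2))
      simpa [depth_mapWit] using this

lemma size_disj {κ₁ κ₂ : Type} (φ : Form ι κ₁) (χ : Form ι κ₂) :
    size (disj φ χ) = 1 + (size φ + size χ) := by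
  simp only [disj, size, Fin.sum_univ_two, Matrix.cons_val_zero, Matrix.cons_val_one, size_mapWit]

/-- Conjunction of `c` fresh random bits. -/
def fresh (ι : Type) (c : ℕ) : Form ι (Fin c) := and c fun j => wit j

lemma rej_fresh (p : ℕ) (c : ℕ) (x : ι → Bool) : rej p x (fresh ι c) = 2 ^ c - 1 := by
  have h : acc p x (fresh ι c) = 1 := by
    rw [acc, Finset.card_eq_one]
    refine ⟨fun _ => true, ?_⟩
    ext y
    simp only [fresh, eval, decide_eq_true_eq, Finset.mem_filter, Finset.mem_univ, true_and,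
      Finset.mem_singleton, funext_iff]
  have := acc_add_rej p x (fresh ι c)
  rw [h, Fintype.card_fin] at this
  omega

lemma acc_fresh (p : ℕ) (c : ℕ) (x : ι → Bool) : acc p x (fresh ι c) = 1 := by
  rw [acc, Finset.card_eq_one]
  refine ⟨fun _ => true, ?_⟩
  ext y
  simp only [fresh, eval, decide_eq_true_eq, Finset.mem_filter, Finset.mem_univ, true_and,
    Finset.mem_singleton, funext_iff]

lemma reads_fresh (c : ℕ) (k : Fin c) : reads k (fresh ι c) ≤ 1 := by
  simp [fresh, reads]

lemma depth_fresh (c : ℕ) : depth (fresh ι c) = 1 := by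
  simp only [fresh, depth]
  have : (Finset.univ.sup fun _ : Fin c => 0) = 0 := by
    apply le_antisymm
    · exact Finset.sup_le fun _ _ => le_rfl
    · exact Nat.zero_le _
  rw [this]

lemma size_fresh (c : ℕ) : size (fresh ι c) = 1 + c := by
  simp [fresh, size]

lemma exists_iff_rej (p : ℕ) [Fintype κ] [DecidableEq κ] (x : ι → Bool) (φ : Form ι κ) :
    (∃ y, eval p x y φ = true) ↔ rej p x φ < 2 ^ Fintype.card κ := by
  have h := acc_add_rej p x φ
  constructor
  · rintro ⟨y, hy⟩
    have : 0 < acc p x φ := by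
      rw [acc, Finset.card_pos]
      exact ⟨y, by simpa using hy⟩
    omega
  · intro hlt
    have : 0 < acc p x φ := by omega
    rw [acc, Finset.card_pos] at this
    obtain ⟨y, hy⟩ := this
    exact ⟨y, by simpa using hy⟩

/-- Existential acceptance is a special case of majority acceptance. -/
lemma exists_to_maj {r : ℕ} (B : ℕ) (hB : 1 ≤ B) (φ : Form ι (Fin r)) (hφ : ∀ k, reads k φ ≤ B) :
    ∃ (r' : ℕ) (ψ : Form ι (Fin r')), r' = r + 1 ∧ (∀ k, reads k ψ ≤ B) ∧
      depth ψ ≤ depth φ + 1 ∧ size ψ ≤ size φ + 2 ∧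
      ∀ p x, MajAcc p x ψ ↔ ∃ y, eval p x y φ = true := by
  obtain ⟨r', ψ, h0, h1, h2, h3, h4, -⟩ := to_fin B (disj φ (wit () : Form ι Unit))
    (reads_disj B φ _ hφ (by simpa [reads] using hB))
  refine ⟨r', ψ, ?_, h1, ?_, ?_, ?_⟩
  · rw [h0]
    simp
  · rw [h2, depth_disj]
    simp [depth]
    omega
  · rw [h3, size_disj]
    simp [size]
    omega
  · intro p x
    rw [h4, majAcc_iff, rej_disj, exists_iff_rej]
    have : rej p x (wit () : Form ι Unit) = 1 := by
      rw [rej, Finset.card_eq_one]
      refine ⟨fun _ => false, ?_⟩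
      ext y
      simp only [eval, Finset.mem_filter, Finset.mem_univ, true_and, Finset.mem_singleton, funext_iff]
      constructor
      · intro h u
        exact h
      · intro h
        exact h ()
    rw [this]
    simp only [Fintype.card_sum, Fintype.card_fin, Fintype.card_unit]
    rw [pow_succ]
    omega

/-- Majority acceptance is closed under complement. -/
lemma compl_maj {r : ℕ} (B : ℕ) (hB : 1 ≤ B) (φ : Form ι (Fin r)) (hφ : ∀ k, reads k φ ≤ B) :
    ∃ (r' : ℕ) (ψ : Form ι (Fin r')), r' = 2 * r + 1 ∧ (∀ k, reads k ψ ≤ B) ∧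
      depth ψ ≤ max (depth φ) 1 + 1 ∧ size ψ ≤ size φ + r + 3 ∧
      ∀ p x, MajAcc p x ψ ↔ ¬ MajAcc p x φ := by
  obtain ⟨r', ψ, h0, h1, h2, h3, h4, -⟩ := to_fin B (disj (neg φ) (fresh ι (r + 1)))
    (reads_disj B (neg φ) _ (fun k => by simpa [reads] using hφ k)
      (fun k => (reads_fresh _ k).trans hB))
  refine ⟨r', ψ, ?_, h1, ?_, ?_, ?_⟩
  · rw [h0]
    simp
    omega
  · rw [h2, depth_disj, depth_fresh]
    simp only [depth]
    omega
  · rw [h3, size_disj, size_fresh]
    simp only [size]
    omega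
  · intro p x
    rw [h4, majAcc_iff, rej_disj, rej_neg, rej_fresh, MajAcc, not_lt]
    simp only [Fintype.card_sum, Fintype.card_fin]
    set a := acc p x φ
    have e1 : (2 : ℕ) ^ (r + (r + 1)) = 2 ^ r * 2 ^ (r + 1) := pow_add _ _ _
    have e2 : (2 : ℕ) ^ (r + 1) = 2 * 2 ^ r := by rw [pow_succ]; ring
    have hpos : 1 ≤ 2 ^ r := Nat.one_le_two_pow
    rw [e1]
    generalize hR : 2 ^ r = R at *
    rw [e2]
    have e3 : a * (2 * R - 1) + a = a * (2 * R) := by
      have : 2 * R - 1 + 1 = 2 * R := by omega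
      calc a * (2 * R - 1) + a = a * (2 * R - 1 + 1) := by ring
        _ = _ := by rw [this]
    constructor
    · intro h
      by_contra hlt
      rw [not_le] at hlt
      have h5 : R + 1 ≤ 2 * a := hlt
      nlinarith
    · intro h
      rcases Nat.eq_zero_or_pos a with ha | ha
      · rw [ha]
        simp
        omega
      · nlinarith

/-- Universal acceptance is a special case of majority acceptance. -/
lemma forall_to_maj {r : ℕ} (B : ℕ) (hB : 1 ≤ B) (φ : Form ι (Fin r)) (hφ : ∀ k, reads k φ ≤ B) :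
    ∃ (r' : ℕ) (ψ : Form ι (Fin r')), r' = 2 * r + 3 ∧ (∀ k, reads k ψ ≤ B) ∧
      depth ψ ≤ depth φ + 2 ∧ size ψ ≤ size φ + r + 6 ∧
      ∀ p x, MajAcc p x ψ ↔ ∀ y, eval p x y φ = true := by
  obtain ⟨r1, ψ1, a0, a1, a2, a3, a4⟩ := exists_to_maj B hB (neg φ)
    (fun k => by simpa [reads] using hφ k)
  obtain ⟨r2, ψ2, b0, b1, b2, b3, b4⟩ := compl_maj B hB ψ1 a1
  refine ⟨r2, ψ2, ?_, b1, ?_, ?_, ?_⟩
  · omega
  · simp only [depth] at a2
    omega
  · simp only [size] at a3
    omega
  · intro p x
    rw [b4, a4]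
    simp [eval]

end Form

end Pool.Agent.Lib20
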