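import Pool.Agent.Lib_helper20.FormBlock

namespace Pool.Agent.Lib20

open Finset

variable {p : ℕ} [hp : Fact p.Prime]

/-- Lower bound for a function with block thresholds as low-degree subfunctions. -/
lemma subfunction_bound (d N s m : ℕ) (κ : Type) [DecidableEq κ] (φ : Form (Fin N) κ)
    (R : Finset κ) (hR : R.card ≤ m) (hread : ∀ k, k ∉ R → Form.reads k φ ≤ 1)
    (hdepth : Form.depth φ ≤ d) (hsize : Form.size φ ≤ s)
    (f : (Fin N → Bool) → Prop) (hφ : ∀ x, f x ↔ ∃ y, Form.eval p x y φ = true)
    (hf : ∀ h τ : ℕ, 1 ≤ τ → τ ≤ h → 4 * h ≤ N →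
      ∃ u : (Fin 1 × Fin (2 * h) → Bool) → (Fin N → Bool),
        (∀ i, (fun x => toF p (u x i)) ∈ LD (ZMod p) (Fin 1 × Fin (2 * h)) 1) ∧
        ∀ x, f (u x) ↔ Good (h + τ) x)
    (hv : (12288 * p ^ 3 * Nat.log 2 (s + N + 2)) ^ (2 * d + 2) ≤ N) :
    N ≤ m * (12288 * p ^ 3 * Nat.log 2 (s + N + 2)) ^ (2 * d + 2) := by
  classical
  set lam := Nat.log 2 (s + N + 2) with hlamdef
  have hp2 : 2 ≤ p := hp.out.two_le
  have hlam : 1 ≤ lam := by
    rw [hlamdef]
    exact Nat.log_pos (by norm_num) (by omega)
  have hpow : s + N + 2 < 2 ^ (lam + 1) := Nat.lt_pow_succ_log_self (by norm_num) _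
  have hK : 12288 * p ^ 3 * lam = 6144 * (2 * p ^ 3) * lam := by ring
  rw [hK] at hv ⊢
  set k0 := lam + 5 + p with hk0
  set E := 2 * p ^ 2 * k0 with hE
  set L := E ^ d with hLdef
  have hbase : 1 ≤ E := by
    have : 0 < 2 * p ^ 2 * k0 := by positivity
    exact this
  have hL1 : 1 ≤ L := Nat.pow_pos hbase
  have hLle : L ≤ (6 * (2 * p ^ 3) * lam) ^ d := by
    apply Nat.pow_le_pow_left
    have h1 : k0 ≤ 4 * p * lam := by
      rw [hk0]
      nlinarith [Nat.mul_le_mul hp2 hlam]
    calc E = 2 * p ^ 2 * k0 := hE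
      _ ≤ 2 * p ^ 2 * (4 * p * lam) := Nat.mul_le_mul_left _ h1
      _ = 8 * (p ^ 3 * lam) := by ring
      _ ≤ 12 * (p ^ 3 * lam) := Nat.mul_le_mul_right _ (by norm_num)
      _ = _ := by ring
  obtain ⟨hu1, hbig, hM⟩ := parameters (2 * p ^ 3) d N (by
      have : 1 ≤ p ^ 3 := Nat.pow_pos (by omega)
      omega) lam L hlam hL1 hLle hv
  set M := 98304 * L ^ 2 * lam with hMdef
  set u := N / M with hu
  have hMpos : 0 < M := by positivity
  set h := (64 * L) * (64 * L) * u with hh
  set τ := (64 * L) * u with hτ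
  have hτ1 : 1 ≤ τ := Nat.mul_pos (by omega) hu1
  have hhτ : τ ≤ h := by
    rw [hh, hτ]
    apply Nat.mul_le_mul_right
    exact Nat.le_mul_of_pos_left _ (by omega)
  have hMu : M * u ≤ N := Nat.mul_div_le N M
  have h4h : 4 * h ≤ N := by
    refine le_trans ?_ hMu
    rw [hh, hMdef]
    have : 4 * (64 * L * (64 * L) * u) = (16384 * L ^ 2 * 1) * u := by ring
    rw [this]
    apply Nat.mul_le_mul_right
    apply Nat.mul_le_mul
    · apply Nat.mul_le_mul_right
      norm_num
    · exact hlam
  obtain ⟨U, hU1, hU2⟩ := hf h τ hτ1 hhτ h4h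
  have hmain := block_bound2 (p := p) (t := 1) (h := h) (τ := τ) (m := m) (D := L)
    (ℓ := 64 * 1 * u - 1) (W := R → Bool) (by
      rw [Fintype.card_fun, Fintype.card_bool, Fintype.card_coe]
      exact Nat.pow_le_pow_right (by norm_num) hR)
    (fun w x => decide (Form.Can p R w (U x) φ true))
    (by
      intro w
      obtain ⟨I, hI1, hI2, P, hP1, hP2⟩ := approx_form (p := p) R w U hU1 k0 (by omega) φ hread
      refine ⟨I, hI1, hI2, fun i => P i true, fun i => ?_, fun x => ?_⟩
      · exact LD_mono (Nat.pow_le_pow_right hbase hdepth) (hP1 i true)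
      · have hx := hP2 x
        have hle : Nat.card {i : I // ¬ P i true x = toF p (decide (Form.Can p R w (U x) φ true))} ≤
            Nat.card {i : I // ¬ ∀ b, P i b x = toF p (decide (Form.Can p R w (U x) φ b))} := by
          rw [Nat.card_eq_fintype_card, Nat.card_eq_fintype_card, Fintype.card_subtype, Fintype.card_subtype]
          apply Finset.card_le_card
          intro i
          simp only [Finset.mem_filter, Finset.mem_univ, true_and]
          intro hi hcon
          exact hi (hcon true)
        have hsk : 12 * (p * Form.size φ) ≤ 2 ^ k0 := by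
          have e1 : 2 ^ k0 = (2 ^ (lam + 1) * 2 ^ p) * 16 := by
            rw [hk0, ← pow_add, show lam + 5 + p = (lam + 1 + p) + 4 by ring, pow_add]
            norm_num
          rw [e1]
          have h2 : Form.size φ * p ≤ 2 ^ (lam + 1) * 2 ^ p := by
            apply Nat.mul_le_mul
            · omega
            · exact (Nat.lt_two_pow_self).le
          nlinarith
        have h2 : 2 ^ k0 * (12 * Nat.card {i : I // ¬ P i true x = toF p (decide (Form.Can p R w (U x) φ true))}) ≤
            2 ^ k0 * Fintype.card I := by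
          calc _ ≤ 2 ^ k0 * (12 * Nat.card {i : I // ¬ ∀ b, P i b x = toF p (decide (Form.Can p R w (U x) φ b))}) :=
                Nat.mul_le_mul_left _ (Nat.mul_le_mul_left _ hle)
            _ = 12 * (2 ^ k0 * Nat.card {i : I // ¬ ∀ b, P i b x = toF p (decide (Form.Can p R w (U x) φ b))}) := by ring
            _ ≤ 12 * (p * Form.size φ * Fintype.card I) := Nat.mul_le_mul_left _ hx
            _ = (12 * (p * Form.size φ)) * Fintype.card I := by ring
            _ ≤ 2 ^ k0 * Fintype.card I := Nat.mul_le_mul_right _ hsk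
        exact Nat.le_of_mul_le_mul_left h2 (by positivity))
    (by
      intro x
      rw [← hU2, hφ]
      simp only [decide_eq_true_eq]
      constructor
      · rintro ⟨y, hy⟩
        exact ⟨fun k => y k.1, y, fun _ => rfl, hy⟩
      · rintro ⟨w, y, _, hy⟩
        exact ⟨y, hy⟩)
    (by
      have e1 : 1 * τ = (64 * 1 * u) * L := by rw [hτ]; ring
      rw [e1]
      have h1 : 64 * 1 * u - 1 < 64 * 1 * u := by omega
      exact Nat.mul_lt_mul_of_pos_right h1 (by omega))
  have hm := numeric (t := 1) (u := u) (L := L) (m := m) le_rfl hu1 hL1 hbig hmain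
  have hv2 : N ≤ M * (2 * u) := by
    have h1 : N < M * (u + 1) := by
      rw [hu]
      exact Nat.lt_mul_div_succ N hMpos
    calc N ≤ M * (u + 1) := h1.le
      _ ≤ M * (2 * u) := Nat.mul_le_mul_left _ (by omega)
  calc N ≤ M * (2 * u) := hv2
    _ = (2 * u) * M := by ring
    _ ≤ m * M := by
        apply Nat.mul_le_mul_right
        omega
    _ ≤ m * (6144 * (2 * p ^ 3) * lam) ^ (2 * d + 2) := Nat.mul_le_mul_left _ hM

/-- Number of ones of the input obtained by padding `x` with constants. -/
lemma count_pad {N n c : ℕ} (hn : n + c ≤ N) (x : Fin 1 × Fin n → Bool) :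
    (Finset.univ.filter fun i : Fin N => (if hi : i.val < n then x (0, ⟨i.val, hi⟩)
      else decide (i.val < n + c)) = true).card = wt (fun i => x (0, i)) + c := by
  classical
  have hN : N = n + (c + (N - n - c)) := by omega
  generalize hr : N - n - c = r at hN
  subst hN
  rw [Finset.card_filter, Fin.sum_univ_add, Fin.sum_univ_add]
  have e1 : ∑ i : Fin n, (if (if hi : (Fin.castAdd (c + r) i).val < n then x (0, ⟨(Fin.castAdd (c + r) i).val, hi⟩)
      else decide ((Fin.castAdd (c + r) i).val < n + c)) = true then 1 else 0) = wt (fun i => x (0, i)) := by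
    rw [wt, Finset.card_filter]
    apply Finset.sum_congr rfl
    intro i _
    simp
  have e2 : ∑ i : Fin c, (if (if hi : (Fin.natAdd n (Fin.castAdd r i)).val < n then x (0, ⟨(Fin.natAdd n (Fin.castAdd r i)).val, hi⟩)
      else decide ((Fin.natAdd n (Fin.castAdd r i)).val < n + c)) = true then 1 else 0) = c := by
    rw [Finset.sum_congr rfl (g := fun _ => 1)]
    · simp
    · intro i _
      simp
  have e3 : ∑ i : Fin r, (if (if hi : (Fin.natAdd n (Fin.natAdd c i)).val < n then x (0, ⟨(Fin.natAdd n (Fin.natAdd c i)).val, hi⟩)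
      else decide ((Fin.natAdd n (Fin.natAdd c i)).val < n + c)) = true then 1 else 0) = 0 := by
    apply Finset.sum_eq_zero
    intro i _
    simp
  rw [e1, e2, e3, add_zero]

/-- Strict majority of the input bits. -/
def Majority {N : ℕ} (x : Fin N → Bool) : Prop :=
  N < 2 * (Finset.univ.filter fun i => x i = true).card

lemma majority_sub (N h τ : ℕ) (hτ : 1 ≤ τ) (hτh : τ ≤ h) (h4 : 4 * h ≤ N) :
    ∃ u : (Fin 1 × Fin (2 * h) → Bool) → (Fin N → Bool),
        (∀ i, (fun x => toF p (u x i)) ∈ LD (ZMod p) (Fin 1 × Fin (2 * h)) 1) ∧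
        ∀ x, Majority (u x) ↔ Good (h + τ) x := by
  classical
  set c := N / 2 + 1 - (h + τ) with hc
  have hn : 2 * h + c ≤ N := by omega
  refine ⟨fun x i => if hi : i.val < 2 * h then x (0, ⟨i.val, hi⟩) else decide (i.val < 2 * h + c), ?_, ?_⟩
  · intro i
    by_cases hi : i.val < 2 * h
    · simp only [hi, dif_pos]
      have : (fun x : Fin 1 × Fin (2 * h) → Bool => toF p (x (0, ⟨i.val, hi⟩))) =
          mono (ZMod p) {((0 : Fin 1), (⟨i.val, hi⟩ : Fin (2 * h)))} := by
        funext x; simp [mono, toF]
      rw [this]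
      apply mono_mem_LD
      simp
    · simp only [hi, dif_neg, not_false_eq_true]
      exact const_mem 1 _
  · intro x
    rw [Majority, count_pad hn x, Good]
    constructor
    · intro hlt j
      rw [Subsingleton.elim j 0]
      omega
    · intro hg
      have := hg 0
      omega

lemma minority_sub (N h τ : ℕ) (hτ : 1 ≤ τ) (hτh : τ ≤ h) (h4 : 4 * h ≤ N) :
    ∃ u : (Fin 1 × Fin (2 * h) → Bool) → (Fin N → Bool),
        (∀ i, (fun x => toF p (u x i)) ∈ LD (ZMod p) (Fin 1 × Fin (2 * h)) 1) ∧
        ∀ x, ¬ Majority (u x) ↔ Good (h + τ) x := by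
  classical
  set c := (N + 1) / 2 - (h + τ) with hc
  have hn : 2 * h + c ≤ N := by omega
  refine ⟨fun x i => !(if hi : i.val < 2 * h then x (0, ⟨i.val, hi⟩) else decide (i.val < 2 * h + c)), ?_, ?_⟩
  · intro i
    have e : (fun x : Fin 1 × Fin (2 * h) → Bool => toF p (!(if hi : i.val < 2 * h then x (0, ⟨i.val, hi⟩)
        else decide (i.val < 2 * h + c)))) = 1 - fun x => toF p (if hi : i.val < 2 * h then x (0, ⟨i.val, hi⟩)
        else decide (i.val < 2 * h + c)) := by
      funext x
      rw [toF_not]
      rfl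
    rw [e]
    apply Submodule.sub_mem _ (one_mem_LD _)
    by_cases hi : i.val < 2 * h
    · simp only [hi, dif_pos]
      have : (fun x : Fin 1 × Fin (2 * h) → Bool => toF p (x (0, ⟨i.val, hi⟩))) =
          mono (ZMod p) {((0 : Fin 1), (⟨i.val, hi⟩ : Fin (2 * h)))} := by
        funext x; simp [mono, toF]
      rw [this]
      apply mono_mem_LD
      simp
    · simp only [hi, dif_neg, not_false_eq_true]
      exact const_mem 1 _
  · intro x
    have hcount := count_pad hn x
    have hcompl : (Finset.univ.filter fun i : Fin N => (!(if hi : i.val < 2 * h then x (0, ⟨i.val, hi⟩)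
        else decide (i.val < 2 * h + c))) = true).card + (wt (fun i => x (0, i)) + c) = N := by
      rw [← hcount, add_comm]
      have := Finset.card_filter_add_card_filter_not (s := (Finset.univ : Finset (Fin N)))
        (fun i => (if hi : i.val < 2 * h then x (0, ⟨i.val, hi⟩) else decide (i.val < 2 * h + c)) = true)
      rw [Finset.card_univ, Fintype.card_fin] at this
      have e2 : (Finset.univ.filter fun i : Fin N => (!(if hi : i.val < 2 * h then x (0, ⟨i.val, hi⟩)
          else decide (i.val < 2 * h + c))) = true) = (Finset.univ.filter fun i : Fin N =>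
          ¬ (if hi : i.val < 2 * h then x (0, ⟨i.val, hi⟩) else decide (i.val < 2 * h + c)) = true) := by
        apply Finset.filter_congr
        intro i _
        simp
      rw [e2]
      exact this
    have hMaj : Majority (fun i : Fin N => !(if hi : i.val < 2 * h then x (0, ⟨i.val, hi⟩)
        else decide (i.val < 2 * h + c))) ↔ N < 2 * (Finset.univ.filter fun i : Fin N =>
          (!(if hi : i.val < 2 * h then x (0, ⟨i.val, hi⟩)
            else decide (i.val < 2 * h + c))) = true).card := Iff.rfl
    rw [hMaj, Good]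
    constructor
    · intro hlt j
      rw [Subsingleton.elim j 0]
      omega
    · intro hg
      have := hg 0
      omega

end Pool.Agent.Lib20
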