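import Pool.Agent.Lib_helper20.MajAcc
import Pool.Agent.Lib_helper20.MajBound

/-!
Majority has a depth-two formula with random bits, each read once, accepting by majority vote.
-/

namespace Pool.Agent.Lib20

open Finset

lemma pow_succ_lower (a m : ℕ) : a ^ (m + 1) + (m + 1) * a ^ m ≤ (a + 1) ^ (m + 1) := by
  induction m with
  | zero => simp
  | succ m ih =>
    calc a ^ (m + 1 + 1) + (m + 1 + 1) * a ^ (m + 1)
        ≤ (a + 1) * (a ^ (m + 1) + (m + 1) * a ^ m) := by
          have : (a + 1) * (a ^ (m + 1) + (m + 1) * a ^ m) =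
            a ^ (m + 1 + 1) + (m + 1 + 1) * a ^ (m + 1) + (m + 1) * a ^ m := by ring
          rw [this]
          exact Nat.le_add_right _ _
      _ ≤ (a + 1) * (a + 1) ^ (m + 1) := Nat.mul_le_mul_left _ ih
      _ = _ := by ring

/-- The threshold condition. -/
def QQ (M W : ℕ) : Prop := 2 * (M - 1) ^ W < M ^ W

instance (M W : ℕ) : Decidable (QQ M W) := by unfold QQ; infer_instance

lemma QQ_top {M : ℕ} (hM : 2 ≤ M) : QQ M M := by
  obtain ⟨a, rfl⟩ : ∃ a, M = a + 1 := ⟨M - 1, by omega⟩
  have h := pow_succ_lower a a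
  have hpos : 0 < a ^ a := Nat.pow_pos (by omega)
  rw [QQ, Nat.add_sub_cancel]
  have e : a ^ (a + 1) + (a + 1) * a ^ a = 2 * a ^ (a + 1) + a ^ a := by ring
  omega

lemma QQ_mono {M W : ℕ} (hM : 2 ≤ M) (h : QQ M W) : QQ M (W + 1) := by
  rw [QQ] at h ⊢
  have h1 : 1 ≤ M - 1 := by omega
  calc 2 * (M - 1) ^ (W + 1) = (M - 1) * (2 * (M - 1) ^ W) := by ring
    _ < (M - 1) * M ^ W := Nat.mul_lt_mul_of_pos_left h (by omega)
    _ ≤ M * M ^ W := Nat.mul_le_mul_right _ (by omega)
    _ = _ := by ring

lemma QQ_mono' {M W W' : ℕ} (hM : 2 ≤ M) (h : QQ M W) (hle : W ≤ W') : QQ M W' := by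
  induction W', hle using Nat.le_induction with
  | base => exact h
  | succ n _ ih => exact QQ_mono hM ih

lemma bern (a W : ℕ) (hW : W ≤ a + 1) : (a + 1) ^ W * (a + 1 - W) ≤ a ^ W * (a + 1) := by
  induction W with
  | zero => simp
  | succ W ih =>
    have ih' := ih (by omega)
    obtain ⟨b, hb⟩ : ∃ b, a + 1 = W + 1 + b := ⟨a - W, by omega⟩
    have e1 : a + 1 - (W + 1) = b := by omega
    have e2 : a + 1 - W = b + 1 := by omega
    have ea : a = W + b := by omega
    rw [e1]
    rw [e2] at ih'
    calc (a + 1) ^ (W + 1) * b = (a + 1) ^ W * ((a + 1) * b) := by ring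
      _ ≤ (a + 1) ^ W * (a * (b + 1)) := by
          apply Nat.mul_le_mul_left
          rw [ea]
          nlinarith
      _ = a * ((a + 1) ^ W * (b + 1)) := by ring
      _ ≤ a * (a ^ W * (a + 1)) := Nat.mul_le_mul_left _ ih'
      _ = _ := by ring

lemma QQ_small {M W : ℕ} (hM : 2 ≤ M) (hW : 2 * W ≤ M) : ¬ QQ M W := by
  obtain ⟨a, rfl⟩ : ∃ a, M = a + 1 := ⟨M - 1, by omega⟩
  have h := bern a W (by omega)
  rw [QQ, Nat.add_sub_cancel, not_lt]
  have h1 : (a + 1) ^ W * (a + 1) ≤ 2 * ((a + 1) ^ W * (a + 1 - W)) := by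
    have : a + 1 ≤ 2 * (a + 1 - W) := by omega
    calc (a + 1) ^ W * (a + 1) ≤ (a + 1) ^ W * (2 * (a + 1 - W)) := Nat.mul_le_mul_left _ this
      _ = _ := by ring
  have h2 : (a + 1) ^ W * (a + 1) ≤ (2 * a ^ W) * (a + 1) := by
    calc _ ≤ 2 * ((a + 1) ^ W * (a + 1 - W)) := h1
      _ ≤ 2 * (a ^ W * (a + 1)) := Nat.mul_le_mul_left _ h
      _ = _ := by ring
  exact Nat.le_of_mul_le_mul_right h2 (by omega)

namespace Form

variable {ι : Type}

/-- Disjunction of `n` terms; the `i`-th term is the conjunction of `a i` and of `k` fresh random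
bits. -/
def tribes (n k : ℕ) (a : Fin n → Form ι (Fin n × Fin k)) : Form ι (Fin n × Fin k) :=
  or n fun i => and (k + 1) (Fin.cons (a i) fun j => wit (i, j))

lemma rej_tribes (p n k : ℕ) (a : Fin n → Form ι (Fin n × Fin k)) (x : ι → Bool)
    (A : Fin n → Bool) (hA : ∀ i y, eval p x y (a i) = A i) :
    rej p x (tribes n k a) = ∏ i, if A i = true then 2 ^ k - 1 else 2 ^ k := by
  classical
  let T : Fin n → Finset (Fin k → Bool) := fun i =>
    Finset.univ.filter fun z => ¬ (A i = true ∧ ∀ j, z j = true)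
  have hT : ∀ i, (T i).card = if A i = true then 2 ^ k - 1 else 2 ^ k := by
    intro i
    by_cases h : A i = true
    · rw [if_pos h]
      have e : T i = Finset.univ.erase (fun _ => true) := by
        ext z
        simp only [T, h, true_and, Finset.mem_filter, Finset.mem_univ, Finset.mem_erase, and_true]
        rw [not_iff_not, funext_iff]
      rw [e, Finset.card_erase_of_mem (Finset.mem_univ _), Finset.card_univ, Fintype.card_fun,
        Fintype.card_bool, Fintype.card_fin]
    · rw [if_neg h]
      have e : T i = Finset.univ := by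
        ext z
        simp [T, h]
      rw [e, Finset.card_univ, Fintype.card_fun, Fintype.card_bool, Fintype.card_fin]
  rw [← Finset.prod_congr rfl fun i _ => hT i, ← Fintype.card_piFinset, rej]
  apply Finset.card_bij (fun y _ => fun i j => y (i, j))
  · intro y hy
    rw [Finset.mem_filter] at hy
    have h2 := hy.2
    simp only [tribes, eval, decide_eq_false_iff_not, decide_eq_true_eq, not_exists] at h2
    rw [Fintype.mem_piFinset]
    intro i
    simp only [T, Finset.mem_filter, Finset.mem_univ, true_and]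
    rintro ⟨h3, h4⟩
    apply h2 i
    intro j
    refine Fin.cases ?_ (fun j => ?_) j
    · simpa [hA] using h3
    · simpa [eval] using h4 j
  · intro y _ y' _ h
    funext ⟨i, j⟩
    exact congrFun (congrFun h i) j
  · intro Y hY
    rw [Fintype.mem_piFinset] at hY
    refine ⟨fun ij => Y ij.1 ij.2, ?_, rfl⟩
    rw [Finset.mem_filter]
    refine ⟨Finset.mem_univ _, ?_⟩
    simp only [tribes, eval, decide_eq_false_iff_not, decide_eq_true_eq, not_exists]
    intro i hi
    have h5 := hY i
    simp only [T, Finset.mem_filter, Finset.mem_univ, true_and] at h5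
    apply h5
    constructor
    · have := hi 0
      simpa [hA] using this
    · intro j
      have := hi j.succ
      simpa [eval] using this

lemma reads_tribes (n k : ℕ) (a : Fin n → Form ι (Fin n × Fin k)) (ha : ∀ i l, reads l (a i) = 0)
    (l : Fin n × Fin k) : reads l (tribes n k a) ≤ 1 := by
  simp only [tribes, reads, Fin.sum_univ_succ, Fin.cons_zero, Fin.cons_succ, ha, zero_add]
  calc ∑ i : Fin n, ∑ j : Fin k, (if (i, j) = l then 1 else 0) =
      ∑ ij : Fin n × Fin k, (if ij = l then 1 else 0) := by rw [Fintype.sum_prod_type]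
    _ ≤ 1 := by simp

lemma depth_tribes (n k : ℕ) (a : Fin n → Form ι (Fin n × Fin k)) (ha : ∀ i, depth (a i) = 0) :
    depth (tribes n k a) ≤ 2 := by
  simp only [tribes, depth]
  refine Nat.add_le_add_left (m := 1) (Finset.sup_le fun i _ => ?_) 1
  refine Nat.add_le_add_left (m := 0) (Finset.sup_le fun j _ => ?_) 1
  refine Fin.cases ?_ (fun j => ?_) j
  · simp [ha]
  · simp [depth]

lemma size_tribes (n k : ℕ) (a : Fin n → Form ι (Fin n × Fin k)) (ha : ∀ i, size (a i) = 1) :
    size (tribes n k a) = 1 + n * (k + 2) := by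
  simp only [tribes, size, Fin.sum_univ_succ, Fin.cons_zero, Fin.cons_succ, ha]
  simp
  left
  ring

/-- Majority of `N` bits is the majority vote of a depth-two formula of size `O(N log N)` in which
every random bit is read once. -/
lemma majority_form (N : ℕ) :
    ∃ (r : ℕ) (ψ : Form (Fin N) (Fin r)), r ≤ (3 * N + 2) * (Nat.log 2 N + 1) ∧
      (∀ k, reads k ψ ≤ 1) ∧ depth ψ ≤ 2 ∧
      size ψ ≤ (3 * N + 2) * (Nat.log 2 N + 3) + 1 ∧
      ∀ p x, MajAcc p x ψ ↔ Majority x := by
  classical
  set k := Nat.log 2 N + 1 with hk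
  set M := 2 ^ k with hM
  have hM2 : 2 ≤ M := by
    calc 2 = 2 ^ 1 := rfl
      _ ≤ 2 ^ k := Nat.pow_le_pow_right (by norm_num) (by omega)
  have hNM : N < M := Nat.lt_pow_succ_log_self (by norm_num) N
  have hM3 : M ≤ 2 * N + 2 := by
    rcases Nat.eq_zero_or_pos N with h0 | hpos
    · have : M = 2 := by rw [hM, hk, h0]; rfl
      omega
    · have h1 : 2 ^ Nat.log 2 N ≤ N := Nat.pow_log_le_self 2 (by omega)
      have : M = 2 * 2 ^ Nat.log 2 N := by rw [hM, hk, pow_succ]; ring
      omega
  have hex : ∃ T, QQ M T := ⟨M, QQ_top hM2⟩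
  set T := Nat.find hex with hT
  have hTQ : QQ M T := Nat.find_spec hex
  have hTM : T ≤ M := Nat.find_min' hex (QQ_top hM2)
  have hTlow : N / 2 + 1 ≤ T := by
    by_contra hlt
    rw [not_le] at hlt
    exact QQ_small (M := M) (W := T) hM2 (by omega) hTQ
  have hTiff : ∀ W, QQ M W ↔ T ≤ W := by
    intro W
    constructor
    · intro h
      exact Nat.find_min' hex h
    · intro h
      exact QQ_mono' hM2 hTQ h
  set c := T - (N / 2 + 1) with hc
  let a : Fin (N + c) → Form (Fin N) (Fin (N + c) × Fin k) :=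
    Fin.addCases (fun i => inp i) (fun _ => const true)
  have ha1 : ∀ i l, reads l (a i) = 0 := by
    intro i l
    refine Fin.addCases (fun i => ?_) (fun i => ?_) i
    · simp [a, reads]
    · simp [a, reads]
  have ha2 : ∀ i, depth (a i) = 0 := by
    intro i
    refine Fin.addCases (fun i => ?_) (fun i => ?_) i
    · simp [a, depth]
    · simp [a, depth]
  have ha3 : ∀ i, size (a i) = 1 := by
    intro i
    refine Fin.addCases (fun i => ?_) (fun i => ?_) i
    · simp [a, size]
    · simp [a, size]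
  obtain ⟨r, ψ, h0, h1, h2, h3, h4, -⟩ := to_fin 1 (tribes (N + c) k a) (reads_tribes _ _ a ha1)
  refine ⟨r, ψ, ?_, h1, ?_, ?_, ?_⟩
  · rw [h0, Fintype.card_prod, Fintype.card_fin, Fintype.card_fin]
    apply Nat.mul_le_mul_right
    omega
  · rw [h2]
    exact depth_tribes _ _ a ha2
  · rw [h3, size_tribes _ _ a ha3]
    have : (N + c) * (k + 2) ≤ (3 * N + 2) * (Nat.log 2 N + 3) := by
      apply Nat.mul_le_mul
      · omega
      · omega
    omega
  · intro p x
    rw [h4, majAcc_iff]
    let A : Fin (N + c) → Bool := Fin.addCases (fun i => x i) (fun _ => true)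
    rw [rej_tribes p (N + c) k a x A (by
      intro i y
      refine Fin.addCases (fun i => ?_) (fun i => ?_) i
      · simp [a, A, eval]
      · simp [a, A, eval])]
    rw [Fin.prod_univ_add]
    simp only [A, Fin.addCases_left, Fin.addCases_right, if_true, Finset.prod_const,
      Finset.card_univ, Fintype.card_fin, Fintype.card_prod]
    rw [Finset.prod_ite, Finset.prod_const, Finset.prod_const]
    set w := (Finset.univ.filter fun i => x i = true).card with hw
    have hwN : w + (Finset.univ.filter fun i => ¬ x i = true).card = N := by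
      have := Finset.card_filter_add_card_filter_not (s := (Finset.univ : Finset (Fin N)))
        (fun i => x i = true)
      rw [Finset.card_univ, Fintype.card_fin] at this
      exact this
    generalize (Finset.univ.filter fun i => ¬ x i = true).card = w' at *
    rw [← hM]
    have e1 : 2 ^ ((N + c) * k) = M ^ (w + c) * M ^ w' := by
      rw [hM, ← pow_mul, ← pow_mul, ← pow_add]
      congr 1
      rw [← hwN]
      ring
    have e2 : 2 * ((M - 1) ^ w * M ^ w' * (M - 1) ^ c) = (2 * (M - 1) ^ (w + c)) * M ^ w' := by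
      rw [pow_add]; ring
    rw [e1, e2]
    have hpos : 0 < M ^ w' := Nat.pow_pos (by omega)
    rw [Nat.mul_lt_mul_right hpos]
    have : (2 * (M - 1) ^ (w + c) < M ^ (w + c)) ↔ T ≤ w + c := hTiff (w + c)
    rw [this, Majority, ← hw]
    omega

end Form

end Pool.Agent.Lib20
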