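import Pool.Agent.Lib_helper20.MajBound

/-!
Witness length of Merlin-Arthur verifiers made of constant-depth circuits with MOD_p gates, for
functions having block thresholds as low-degree subfunctions.
-/

namespace Pool.Agent.Lib20

open Finset

section LD

variable {F : Type} [Field F] {ι κ : Type} [Fintype ι] [DecidableEq ι] [Fintype κ] [DecidableEq κ]

/-- Substitution of functions of degree at most one. -/
lemma LD_comp (u : (κ → Bool) → (ι → Bool))
    (hu : ∀ i, (fun x => if u x i = true then (1 : F) else 0) ∈ LD F κ 1) {D : ℕ}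
    {f : (ι → Bool) → F} (hf : f ∈ LD F ι D) : (fun x => f (u x)) ∈ LD F κ D := by
  induction hf using Submodule.span_induction with
  | mem f hf =>
    obtain ⟨T, rfl⟩ := hf
    have h1 : (fun x => mono F T.1 (u x)) = ∏ i ∈ T.1, fun x => if u x i = true then (1 : F) else 0 := by
      funext x
      rw [Finset.prod_apply]
      simp only [mono]
      by_cases h : ∀ i ∈ T.1, u x i = true
      · rw [if_pos h, Finset.prod_congr rfl fun i hi => if_pos (h i hi)]
        simp
      · rw [if_neg h]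
        push Not at h
        obtain ⟨i, hi, hne⟩ := h
        exact (Finset.prod_eq_zero hi (if_neg hne)).symm
    simp only
    rw [h1]
    have := prod_mem_LD T.1 (a := 1) (fun i => fun x => if u x i = true then (1 : F) else 0)
      (fun i _ => hu i)
    rw [mul_one] at this
    exact LD_mono T.2 this
  | zero => exact Submodule.zero_mem _
  | add f g _ _ hf hg => exact Submodule.add_mem _ hf hg
  | smul c f _ hf => exact Submodule.smul_mem _ c hf

end LD

variable {p : ℕ} [hp : Fact p.Prime]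

/-- Main combinatorial bound, for functions of which block thresholds are subfunctions. -/
lemma block_bound_sub {t h τ m d s k0 ℓ : ℕ} (hk0 : 1 ≤ k0) (hsk : 12 * s ≤ 2 ^ k0)
    {ι W Ω : Type} [Fintype ι] [DecidableEq ι] [Fintype W] [Fintype Ω] [Nonempty Ω]
    (hW : Fintype.card W ≤ 2 ^ m)
    (u : (Fin t × Fin (2 * h) → Bool) → (ι → Bool))
    (hu : ∀ i, (fun x => toF p (u x i)) ∈ LD (ZMod p) (Fin t × Fin (2 * h)) 1)
    (V : W → Ω → Circuit ι)
    (hs : ∀ w ω, Circuit.size (V w ω) ≤ s) (hd : ∀ w ω, Circuit.depth (V w ω) ≤ d)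
    (hcomp : ∀ x, Good (h + τ) x → ∃ w, 2 * Fintype.card Ω ≤
      3 * Nat.card {ω : Ω // Circuit.eval p (V w ω) (u x) = true})
    (hsound : ∀ x, ¬ Good (h + τ) x → ∀ w,
      3 * Nat.card {ω : Ω // Circuit.eval p (V w ω) (u x) = true} ≤ Fintype.card Ω)
    (hℓ : ℓ * ((p - 1) * k0) ^ d < t * τ) :
    6 ^ ℓ * ((2 * h).choose (h + τ)) ^ t ≤ (2 * h * t + 1) * (5 ^ ℓ * 2 ^ (2 * h * t + m)) := by
  classical
  set H : Finset (Fin t × Fin (2 * h) → Bool) := Finset.univ.filter fun x => Good (h + τ) x with hH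
  have hHcard : ((2 * h).choose (h + τ)) ^ t ≤ H.card := by
    have := card_good t (2 * h) (h + τ)
    rwa [Nat.card_eq_fintype_card, Fintype.card_subtype] at this
  let Gw : W → Finset (Fin t × Fin (2 * h) → Bool) := fun w => H.filter fun x =>
    2 * Fintype.card Ω ≤ 3 * Nat.card {ω : Ω // Circuit.eval p (V w ω) (u x) = true}
  have hGw : ∀ w, 6 ^ ℓ * (Gw w).card ≤ (2 * h * t + 1) * (5 ^ ℓ * 2 ^ (2 * h * t)) := by
    intro w
    obtain ⟨J, hJ, μ, P, hμ, hP, hP1, hP2⟩ := family (p := p) (V w) (hs w) (hd w) k0 hk0 hsk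
    have hcore := core μ hμ (fun j x => P j (u x)) (fun j => LD_comp u hu (hP j)) (Gw w) Hᶜ (by
        rw [Finset.disjoint_left]
        intro x hx hx'
        exact (Finset.mem_compl.mp hx') (Finset.mem_filter.mp hx).1)
      (fun x hx => hP1 (u x) (Finset.mem_filter.mp hx).2)
      (fun x hx => hP2 (u x) (hsound x (fun hg => (Finset.mem_compl.mp hx) (by simp [hH, hg])) w))
      ℓ (t * (h + τ))
      (fun x hx => by
        apply good_wt
        rw [Finset.mem_compl, not_not] at hx
        exact (Finset.mem_filter.mp hx).2)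
      (by
        rw [Fintype.card_prod, Fintype.card_fin, Fintype.card_fin]
        nlinarith)
    rw [Fintype.card_prod, Fintype.card_fin, Fintype.card_fin] at hcore
    have hcompl : (Hᶜ).card ≤ 2 ^ (2 * h * t) := by
      calc (Hᶜ).card ≤ Fintype.card (Fin t × Fin (2 * h) → Bool) := Finset.card_le_univ _
        _ = 2 ^ (2 * h * t) := by
          rw [Fintype.card_fun, Fintype.card_bool, Fintype.card_prod, Fintype.card_fin, Fintype.card_fin, mul_comm t]
    calc 6 ^ ℓ * (Gw w).card ≤ (t * (2 * h) + 1) * (5 ^ ℓ * (Hᶜ).card) := hcore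
      _ ≤ (t * (2 * h) + 1) * (5 ^ ℓ * 2 ^ (2 * h * t)) := by gcongr
      _ = _ := by rw [mul_comm t]
  have hcover : H.card ≤ ∑ w, (Gw w).card := by
    calc H.card ≤ (Finset.univ.biUnion Gw).card := by
          apply Finset.card_le_card
          intro x hx
          rw [Finset.mem_biUnion]
          obtain ⟨w, hw⟩ := hcomp x (Finset.mem_filter.mp hx).2
          exact ⟨w, Finset.mem_univ _, Finset.mem_filter.mpr ⟨hx, hw⟩⟩
      _ ≤ _ := Finset.card_biUnion_le
  calc 6 ^ ℓ * ((2 * h).choose (h + τ)) ^ t ≤ 6 ^ ℓ * ∑ w, (Gw w).card :=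
        Nat.mul_le_mul_left _ (hHcard.trans hcover)
    _ = ∑ w, 6 ^ ℓ * (Gw w).card := Finset.mul_sum _ _ _
    _ ≤ ∑ _w : W, (2 * h * t + 1) * (5 ^ ℓ * 2 ^ (2 * h * t)) := Finset.sum_le_sum fun w _ => hGw w
    _ = Fintype.card W * ((2 * h * t + 1) * (5 ^ ℓ * 2 ^ (2 * h * t))) := by simp
    _ ≤ 2 ^ m * ((2 * h * t + 1) * (5 ^ ℓ * 2 ^ (2 * h * t))) := Nat.mul_le_mul_right _ hW
    _ = _ := by rw [pow_add]; ring

/-- Lower bound on the witness length of Merlin-Arthur verifiers for a function with thresholds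
as low-degree subfunctions. -/
lemma ma_subfunction_bound (d N s m : ℕ) (Ω : Type) [Fintype Ω] [Nonempty Ω]
    (V : (Fin m → Bool) → Ω → Circuit (Fin N))
    (hsize : ∀ w ω, Circuit.size (V w ω) ≤ s) (hdepth : ∀ w ω, Circuit.depth (V w ω) ≤ d)
    (f : (Fin N → Bool) → Prop)
    (hcomp : ∀ x, f x → ∃ w, 2 * Fintype.card Ω ≤
      3 * (Finset.univ.filter fun ω => Circuit.eval p (V w ω) x = true).card)
    (hsound : ∀ x, ¬ f x → ∀ w,
      3 * (Finset.univ.filter fun ω => Circuit.eval p (V w ω) x = true).card ≤ Fintype.card Ω)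
    (hf : ∀ h τ : ℕ, 1 ≤ τ → τ ≤ h → 4 * h ≤ N →
      ∃ u : (Fin 1 × Fin (2 * h) → Bool) → (Fin N → Bool),
        (∀ i, (fun x => toF p (u x i)) ∈ LD (ZMod p) (Fin 1 × Fin (2 * h)) 1) ∧
        ∀ x, f (u x) ↔ Good (h + τ) x)
    (hv : (6144 * p * Nat.log 2 (s + N + 2)) ^ (2 * d + 2) ≤ N) :
    N ≤ m * (6144 * p * Nat.log 2 (s + N + 2)) ^ (2 * d + 2) := by
  classical
  set lam := Nat.log 2 (s + N + 2) with hlamdef
  have hp2 : 2 ≤ p := hp.out.two_le
  have hlam : 1 ≤ lam := by
    rw [hlamdef]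
    exact Nat.log_pos (by norm_num) (by omega)
  have hpow : s + N + 2 < 2 ^ (lam + 1) := Nat.lt_pow_succ_log_self (by norm_num) _
  set k0 := lam + 5 with hk0
  set L := ((p - 1) * k0) ^ d with hLdef
  have hbase : 1 ≤ (p - 1) * k0 := Nat.mul_pos (by omega) (by omega)
  have hL1 : 1 ≤ L := Nat.pow_pos hbase
  have hLle : L ≤ (6 * p * lam) ^ d := by
    apply Nat.pow_le_pow_left
    calc (p - 1) * k0 ≤ p * (6 * lam) := Nat.mul_le_mul (by omega) (by omega)
      _ = _ := by ring
  obtain ⟨hu1, hbig, hM⟩ := parameters p d N hp2 lam L hlam hL1 hLle hv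
  set M := 98304 * L ^ 2 * lam with hMdef
  set u := N / M with hu
  have hMpos : 0 < M := by positivity
  set h := (64 * L) * (64 * L) * u with hh
  set τ := (64 * L) * u with hτ
  have hτ1 : 1 ≤ τ := Nat.mul_pos (by omega) hu1
  have hhτ : τ ≤ h := by
    rw [hh, hτ]
    apply Nat.mul_le_mul_right
    exact Nat.le_mul_of_pos_left _ (by omega)
  have hMu : M * u ≤ N := Nat.mul_div_le N M
  have h4h : 4 * h ≤ N := by
    refine le_trans ?_ hMu
    rw [hh, hMdef]
    have : 4 * (64 * L * (64 * L) * u) = (16384 * L ^ 2 * 1) * u := by ring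
    rw [this]
    apply Nat.mul_le_mul_right
    apply Nat.mul_le_mul
    · apply Nat.mul_le_mul_right
      norm_num
    · exact hlam
  obtain ⟨U, hU1, hU2⟩ := hf h τ hτ1 hhτ h4h
  have hcard : ∀ w x, Nat.card {ω : Ω // Circuit.eval p (V w ω) (U x) = true} =
      (Finset.univ.filter fun ω => Circuit.eval p (V w ω) (U x) = true).card := by
    intro w x
    rw [Nat.card_eq_fintype_card, Fintype.card_subtype]
  have hsk : 12 * s ≤ 2 ^ k0 := by
    have e1 : 2 ^ k0 = 2 ^ (lam + 1) * 16 := by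
      rw [hk0, show lam + 5 = (lam + 1) + 4 by ring, pow_add]
      norm_num
    rw [e1]
    omega
  have hW : Fintype.card (Fin m → Bool) ≤ 2 ^ m := by
    rw [Fintype.card_fun, Fintype.card_bool, Fintype.card_fin]
  have hmain := block_bound_sub (p := p) (t := 1) (h := h) (τ := τ) (m := m) (d := d) (s := s)
    (k0 := k0) (ℓ := 64 * 1 * u - 1) (by omega) hsk (W := Fin m → Bool) (Ω := Ω) hW U hU1 V
    hsize hdepth
    (fun x hx => by
      obtain ⟨w, hw⟩ := hcomp (U x) ((hU2 x).mpr hx)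
      exact ⟨w, by rw [hcard]; exact hw⟩)
    (fun x hx w => by
      rw [hcard]
      exact hsound (U x) (fun hun => hx ((hU2 x).mp hun)) w)
    (by
      have e1 : 1 * τ = (64 * 1 * u) * L := by rw [hτ]; ring
      rw [e1, ← hLdef]
      have h1 : 64 * 1 * u - 1 < 64 * 1 * u := by omega
      exact Nat.mul_lt_mul_of_pos_right h1 (by omega))
  have hm := numeric (t := 1) (u := u) (L := L) (m := m) le_rfl hu1 hL1 hbig hmain
  have hv2 : N ≤ M * (2 * u) := by
    have h1 : N < M * (u + 1) := by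
      rw [hu]
      exact Nat.lt_mul_div_succ N hMpos
    calc N ≤ M * (u + 1) := h1.le
      _ ≤ M * (2 * u) := Nat.mul_le_mul_left _ (by omega)
  calc N ≤ M * (2 * u) := hv2
    _ = (2 * u) * M := by ring
    _ ≤ m * M := by
        apply Nat.mul_le_mul_right
        omega
    _ ≤ m * (6144 * p * lam) ^ (2 * d + 2) := Nat.mul_le_mul_left _ hM

end Pool.Agent.Lib20
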