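import Pool.Agent.Lib_helper20.ReadTwice
import Pool.Agent.Lib_helper20.MajForm

/-!
Every circuit with random bits, accepting by majority vote, is equivalent to a depth-four
formula in which every random bit is read at most twice.
-/

namespace Pool.Agent.Lib20

open Finset

namespace Form

variable {ι κ : Type}

/-- AND gate whose children are indexed by a finite type. -/
noncomputable def bigAnd {τ : Type} [Fintype τ] (f : τ → Form ι κ) : Form ι κ :=
  and (Fintype.card τ) fun i => f ((Fintype.equivFin τ).symm i)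

/-- OR gate whose children are indexed by a finite type. -/
noncomputable def bigOr {τ : Type} [Fintype τ] (f : τ → Form ι κ) : Form ι κ :=
  or (Fintype.card τ) fun i => f ((Fintype.equivFin τ).symm i)

lemma eval_bigAnd {τ : Type} [Fintype τ] (p : ℕ) (x : ι → Bool) (y : κ → Bool) (f : τ → Form ι κ) :
    eval p x y (bigAnd f) = true ↔ ∀ t, eval p x y (f t) = true := by
  simp only [bigAnd, eval, decide_eq_true_eq]
  constructor
  · intro h t
    have := h (Fintype.equivFin τ t)
    rwa [Equiv.symm_apply_apply] at this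
  · intro h i
    exact h _

lemma eval_bigOr {τ : Type} [Fintype τ] (p : ℕ) (x : ι → Bool) (y : κ → Bool) (f : τ → Form ι κ) :
    eval p x y (bigOr f) = true ↔ ∃ t, eval p x y (f t) = true := by
  simp only [bigOr, eval, decide_eq_true_eq]
  constructor
  · rintro ⟨i, h⟩
    exact ⟨_, h⟩
  · rintro ⟨t, h⟩
    refine ⟨Fintype.equivFin τ t, ?_⟩
    rwa [Equiv.symm_apply_apply]

lemma reads_bigAnd {τ : Type} [Fintype τ] [DecidableEq κ] (k : κ) (f : τ → Form ι κ) :
    reads k (bigAnd f) = ∑ t, reads k (f t) := by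
  simp only [bigAnd, reads]
  exact Equiv.sum_comp (Fintype.equivFin τ).symm (fun t => reads k (f t))

lemma reads_bigOr {τ : Type} [Fintype τ] [DecidableEq κ] (k : κ) (f : τ → Form ι κ) :
    reads k (bigOr f) = ∑ t, reads k (f t) := by
  simp only [bigOr, reads]
  exact Equiv.sum_comp (Fintype.equivFin τ).symm (fun t => reads k (f t))

lemma size_bigAnd {τ : Type} [Fintype τ] (f : τ → Form ι κ) :
    size (bigAnd f) = 1 + ∑ t, size (f t) := by
  simp only [bigAnd, size]
  rw [Equiv.sum_comp (Fintype.equivFin τ).symm (fun t => size (f t))]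

lemma size_bigOr {τ : Type} [Fintype τ] (f : τ → Form ι κ) :
    size (bigOr f) = 1 + ∑ t, size (f t) := by
  simp only [bigOr, size]
  rw [Equiv.sum_comp (Fintype.equivFin τ).symm (fun t => size (f t))]

lemma depth_bigAnd {τ : Type} [Fintype τ] (D : ℕ) (f : τ → Form ι κ) (hf : ∀ t, depth (f t) ≤ D) :
    depth (bigAnd f) ≤ D + 1 := by
  simp only [bigAnd, depth]
  rw [add_comm]
  exact Nat.add_le_add_right (Finset.sup_le fun i _ => hf _) 1

lemma depth_bigOr {τ : Type} [Fintype τ] (D : ℕ) (f : τ → Form ι κ) (hf : ∀ t, depth (f t) ≤ D) :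
    depth (bigOr f) ≤ D + 1 := by
  simp only [bigOr, depth]
  rw [add_comm]
  exact Nat.add_le_add_right (Finset.sup_le fun i _ => hf _) 1

/-- Counting a mixture. -/
lemma card_mix {κ₁ κ₂ : Type} [Fintype κ₁] [DecidableEq κ₁] [Fintype κ₂] [DecidableEq κ₂]
    (P : (κ₁ → Bool) → Prop) (Q : (κ₂ → Bool) → Prop) [DecidablePred P] [DecidablePred Q] :
    (Finset.univ.filter fun y : Unit ⊕ (κ₁ ⊕ κ₂) → Bool =>
      (y (.inl ()) = true ∧ P (fun k => y (.inr (.inl k)))) ∨
      (y (.inl ()) = false ∧ Q (fun k => y (.inr (.inr k))))).card =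
      (Finset.univ.filter P).card * 2 ^ Fintype.card κ₂ +
        2 ^ Fintype.card κ₁ * (Finset.univ.filter Q).card := by
  classical
  rw [Finset.filter_or, Finset.card_union_of_disjoint]
  · congr 1
    · have h1 := card_sum_fun (κ₁ := Unit) (κ₂ := κ₁ ⊕ κ₂) (fun b => b () = true)
        (fun z => P (fun k => z (.inl k)) ∧ (fun _ : κ₂ → Bool => True) (fun k => z (.inr k)))
      rw [card_sum_fun P (fun _ : κ₂ → Bool => True)] at h1
      have h2 : (Finset.univ.filter fun b : Unit → Bool => b () = true).card = 1 := by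
        rw [Finset.card_eq_one]
        refine ⟨fun _ => true, ?_⟩
        ext b
        simp only [Finset.mem_filter, Finset.mem_univ, true_and, Finset.mem_singleton, funext_iff]
        exact ⟨fun h u => h, fun h => h ()⟩
      rw [h2, one_mul] at h1
      simp only [and_true, Finset.filter_true, Finset.card_univ, Fintype.card_fun,
        Fintype.card_bool] at h1
      exact h1
    · have h1 := card_sum_fun (κ₁ := Unit) (κ₂ := κ₁ ⊕ κ₂) (fun b => b () = false)
        (fun z => (fun _ : κ₁ → Bool => True) (fun k => z (.inl k)) ∧ Q (fun k => z (.inr k)))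
      rw [card_sum_fun (fun _ : κ₁ → Bool => True) Q] at h1
      have h2 : (Finset.univ.filter fun b : Unit → Bool => b () = false).card = 1 := by
        rw [Finset.card_eq_one]
        refine ⟨fun _ => false, ?_⟩
        ext b
        simp only [Finset.mem_filter, Finset.mem_univ, true_and, Finset.mem_singleton, funext_iff]
        exact ⟨fun h u => h, fun h => h ()⟩
      rw [h2, one_mul] at h1
      simp only [true_and, Finset.filter_true, Finset.card_univ, Fintype.card_fun,
        Fintype.card_bool] at h1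
      exact h1
  · rw [Finset.disjoint_left]
    intro y hy hy'
    rw [Finset.mem_filter] at hy hy'
    rw [hy.2.1] at hy'
    exact Bool.noConfusion hy'.2.1

end Form

/-- Counting: one side arbitrary in `P`, the other side zero. -/
lemma card_sides {n : ℕ} {τ : Type} [Fintype τ] [DecidableEq τ] (z : Fin n → Bool)
    (P : Finset (τ → Bool)) :
    (Finset.univ.filter fun y : (Fin n × Bool) × τ → Bool =>
      ∀ v, (fun t => y ((v, z v), t)) ∈ P ∧ ∀ t, y ((v, !(z v)), t) = false).card = P.card ^ n := by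
  classical
  have h : (Fintype.piFinset fun _ : Fin n => P).card = P.card ^ n := by
    rw [Fintype.card_piFinset, Finset.prod_const, Finset.card_univ, Fintype.card_fin]
  rw [← h]
  apply Finset.card_bij (fun y _ => fun v t => y ((v, z v), t))
  · intro y hy
    rw [Finset.mem_filter] at hy
    rw [Fintype.mem_piFinset]
    exact fun v => (hy.2 v).1
  · intro y hy y' hy' hyy
    rw [Finset.mem_filter] at hy hy'
    funext ⟨⟨v, b⟩, t⟩
    by_cases hb : b = z v
    · subst hb
      exact congrFun (congrFun hyy v) t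
    · have hb' : b = !(z v) := by
        cases b <;> cases hz : z v <;> simp_all
      rw [hb', (hy.2 v).2 t, (hy'.2 v).2 t]
  · intro Y hY
    rw [Fintype.mem_piFinset] at hY
    refine ⟨fun vbt => if vbt.1.2 = z vbt.1.1 then Y vbt.1.1 vbt.2 else false, ?_, ?_⟩
    · rw [Finset.mem_filter]
      refine ⟨Finset.mem_univ _, fun v => ⟨?_, fun t => ?_⟩⟩
      · simpa using hY v
      · have : ¬ (!(z v)) = z v := by cases z v <;> simp
        simp [this]
    · funext v t
      simp

/-- Counting: all claims are true. -/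
lemma card_claims {τ : Type} [Fintype τ] [DecidableEq τ] (k : ℕ) :
    (Finset.univ.filter fun f : τ × Fin k → Bool => ∀ o, ∃ j, f (o, j) = true).card =
      (2 ^ k - 1) ^ Fintype.card τ := by
  classical
  have h : (Fintype.piFinset fun _ : τ => (Finset.univ : Finset (Fin k → Bool)).erase
      (fun _ => false)).card = (2 ^ k - 1) ^ Fintype.card τ := by
    rw [Fintype.card_piFinset, Finset.prod_const, Finset.card_univ,
      Finset.card_erase_of_mem (Finset.mem_univ _), Finset.card_univ, Fintype.card_fun,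
      Fintype.card_bool, Fintype.card_fin]
  rw [← h]
  apply Finset.card_bij (fun f _ => fun o j => f (o, j))
  · intro f hf
    rw [Finset.mem_filter] at hf
    rw [Fintype.mem_piFinset]
    intro o
    rw [Finset.mem_erase]
    refine ⟨?_, Finset.mem_univ _⟩
    obtain ⟨j, hj⟩ := hf.2 o
    intro hcon
    have : f (o, j) = false := congrFun hcon j
    rw [this] at hj
    exact Bool.noConfusion hj
  · intro f _ f' _ hff
    funext ⟨o, j⟩
    exact congrFun (congrFun hff o) j
  · intro F hF
    rw [Fintype.mem_piFinset] at hF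
    refine ⟨fun oj => F oj.1 oj.2, ?_, rfl⟩
    rw [Finset.mem_filter]
    refine ⟨Finset.mem_univ _, fun o => ?_⟩
    have := hF o
    rw [Finset.mem_erase] at this
    by_contra hcon
    push Not at hcon
    apply this.1
    funext j
    simpa using hcon j

/-- The arithmetic of the threshold. -/
lemma threshold_arith (k W q s a : ℕ) (hk : W * (2 ^ q + 1) < 2 ^ k)
    (h1 : (2 ^ k - 1) ^ W * s ≤ a) (h2 : a ≤ 2 ^ (k * W) * s) :
    2 ^ (k * W) * 2 ^ q < 2 * a ↔ 2 ^ q < 2 * s := by
  constructor
  · intro h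
    by_contra hs
    rw [not_lt] at hs
    have : 2 * a ≤ 2 ^ (k * W) * 2 ^ q := by
      calc 2 * a ≤ 2 * (2 ^ (k * W) * s) := Nat.mul_le_mul_left _ h2
        _ = 2 ^ (k * W) * (2 * s) := by ring
        _ ≤ _ := Nat.mul_le_mul_left _ hs
    omega
  · intro hs
    obtain ⟨b, hb⟩ : ∃ b, 2 ^ k = b + 1 := ⟨2 ^ k - 1, by
      have : 1 ≤ 2 ^ k := Nat.one_le_two_pow
      omega⟩
    have hW : W ≤ b + 1 := by
      rw [← hb]
      calc W ≤ W * (2 ^ q + 1) := Nat.le_mul_of_pos_right _ (Nat.succ_pos _)
        _ ≤ 2 ^ k := hk.le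
    have hbern := bern b W hW
    rw [pow_mul]
    rw [hb] at h1 hk ⊢
    rw [Nat.add_sub_cancel] at h1
    obtain ⟨d, hd⟩ : ∃ d, b + 1 = W + d := ⟨b + 1 - W, by omega⟩
    have hd' : b + 1 - W = d := by omega
    rw [hd'] at hbern
    have key : 2 ^ q * (b + 1) < d * (2 ^ q + 1) := by
      have : d * (2 ^ q + 1) + W * (2 ^ q + 1) = (b + 1) * 2 ^ q + (b + 1) := by rw [hd]; ring
      have e2 : 2 ^ q * (b + 1) = (b + 1) * 2 ^ q := by ring
      omega
    have hpos : 0 < (b + 1) ^ W := Nat.pow_pos (by omega)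
    have : (b + 1) ^ W * 2 ^ q * (b + 1) < 2 * a * (b + 1) := by
      calc (b + 1) ^ W * 2 ^ q * (b + 1) = (b + 1) ^ W * (2 ^ q * (b + 1)) := by ring
        _ < (b + 1) ^ W * (d * (2 ^ q + 1)) := Nat.mul_lt_mul_of_pos_left key hpos
        _ = ((b + 1) ^ W * d) * (2 ^ q + 1) := by ring
        _ ≤ (b ^ W * (b + 1)) * (2 ^ q + 1) := Nat.mul_le_mul_right _ hbern
        _ ≤ (b ^ W * (b + 1)) * (2 * s) := Nat.mul_le_mul_left _ hs
        _ = 2 * (b ^ W * s) * (b + 1) := by ring
        _ ≤ 2 * a * (b + 1) := Nat.mul_le_mul_right _ (Nat.mul_le_mul_left _ h1)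
    exact Nat.lt_of_mul_lt_mul_right this

/-- Occurrences of literals. -/
abbrev OO (M : ℕ) := Fin M × Fin 3
abbrev TT (M k : ℕ) := OO M × Fin k
abbrev KK0 (M n k : ℕ) := (Fin n × Bool) × TT M k
abbrev KK (M n k e : ℕ) := Unit ⊕ (KK0 M n k ⊕ Fin e)

instance instKK0 (M n k : ℕ) : DecidableEq (KK0 M n k) := inferInstance
instance instKK1 (M n k e : ℕ) : DecidableEq (KK0 M n k ⊕ Fin e) := instDecidableEqSum
instance instKK (M n k e : ℕ) : DecidableEq (KK M n k e) := instDecidableEqSum

section Construction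

variable {ι : Type} {M n k e : ℕ}

noncomputable def leafC (cl : Fin M → Fin 3 → Lit ι (Fin n)) (o : OO M) : Form ι (KK0 M n k) :=
  match cl o.1 o.2 with
  | .inl (.inl b) => Form.const b
  | .inl (.inr (i, b)) => if b = true then Form.inp i else Form.neg (Form.inp i)
  | .inr vb => Form.bigOr fun j : Fin k => Form.wit (vb, (o, j))

noncomputable def sideC (ι : Type) (M n k : ℕ) (vb : Fin n × Bool) : Form ι (KK0 M n k) :=
  Form.bigAnd fun t : TT M k => Form.neg (Form.wit (vb, t))

noncomputable def compC (cl : Fin M → Fin 3 → Lit ι (Fin n)) : Fin M ⊕ Fin n → Form ι (KK0 M n k)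
  | .inl c => Form.or 3 fun s => leafC cl (c, s)
  | .inr v => Form.or 2 ![sideC ι M n k (v, true), sideC ι M n k (v, false)]

def jj1 (M n k e : ℕ) : KK0 M n k → KK M n k e := fun l => .inr (.inl l)
def jj2 (M n k e : ℕ) : Fin e → KK M n k e := fun l => .inr (.inr l)

lemma jj1_inj : Function.Injective (jj1 M n k e) := by
  intro a b h
  exact Sum.inl_injective (Sum.inr_injective h)

lemma jj2_inj : Function.Injective (jj2 M n k e) := by
  intro a b h
  exact Sum.inr_injective (Sum.inr_injective h)

noncomputable def bigC (e : ℕ) (cl : Fin M → Fin 3 → Lit ι (Fin n)) :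
    Option (Fin M ⊕ Fin n) → Form ι (KK M n k e)
  | none => Form.wit (.inl ())
  | some t => Form.mapWit (jj1 M n k e) (compC cl t)

noncomputable def elseC (ι : Type) (M n k e : ℕ) : Form ι (KK M n k e) :=
  Form.and 2 ![Form.neg (Form.wit (.inl ())), Form.neg (Form.mapWit (jj2 M n k e) (Form.fresh ι e))]

noncomputable def psiC (e : ℕ) (cl : Fin M → Fin 3 → Lit ι (Fin n)) : Form ι (KK M n k e) :=
  Form.or 2 ![Form.bigAnd (bigC e cl), elseC ι M n k e]

lemma card_TT : Fintype.card (TT M k) = M * 3 * k := by simp [TT, OO]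

lemma card_KK0 : Fintype.card (KK0 M n k) = 2 * (k * (M * 3 * n)) := by
  rw [Fintype.card_prod, card_TT, Fintype.card_prod, Fintype.card_fin, Fintype.card_bool]
  ring

lemma card_KK : Fintype.card (KK M n k e) = 1 + (2 * (k * (M * 3 * n)) + e) := by
  rw [Fintype.card_sum, Fintype.card_sum, card_KK0, Fintype.card_fin, Fintype.card_unit]

lemma reads_leafC (cl : Fin M → Fin 3 → Lit ι (Fin n)) (o : OO M) (vb : Fin n × Bool) (o' : OO M)
    (j : Fin k) : Form.reads (vb, (o', j)) (leafC (k := k) cl o) ≤ if o = o' then 1 else 0 := by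
  rw [leafC]
  rcases cl o.1 o.2 with (b' | ⟨i, b'⟩) | vb'
  · simp [Form.reads]
  · cases b' <;> simp [Form.reads]
  · simp only [Form.reads_bigOr, Form.reads]
    by_cases ho : o = o'
    · subst ho
      rw [if_pos rfl]
      calc ∑ j' : Fin k, (if (vb', (o, j')) = (vb, (o, j)) then 1 else 0)
          ≤ ∑ j' : Fin k, (if j' = j then 1 else 0) := by
            apply Finset.sum_le_sum
            intro j' _
            by_cases hj : j' = j
            · rw [if_pos hj]
              split_ifs <;> omega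
            · rw [if_neg hj, if_neg]
              intro hcon
              exact hj (Prod.mk.inj (Prod.mk.inj hcon).2).2
        _ = 1 := by simp
    · rw [if_neg ho]
      apply le_of_eq
      apply Finset.sum_eq_zero
      intro j' _
      rw [if_neg]
      intro hcon
      exact ho (Prod.mk.inj (Prod.mk.inj hcon).2).1

lemma reads_sideC (vb vb' : Fin n × Bool) (t : TT M k) :
    Form.reads (vb, t) (sideC ι M n k vb') ≤ if vb' = vb then 1 else 0 := by
  simp only [sideC, Form.reads_bigAnd, Form.reads]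
  by_cases hv : vb' = vb
  · rw [if_pos hv]
    calc ∑ t' : TT M k, (if (vb', t') = (vb, t) then 1 else 0)
        ≤ ∑ t' : TT M k, (if t' = t then 1 else 0) := by
          apply Finset.sum_le_sum
          intro t' _
          by_cases ht : t' = t
          · rw [if_pos ht]
            split_ifs <;> omega
          · rw [if_neg ht, if_neg]
            intro hcon
            exact ht (Prod.mk.inj hcon).2
      _ ≤ 1 := by simp
  · rw [if_neg hv]
    apply le_of_eq
    apply Finset.sum_eq_zero
    intro t _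
    rw [if_neg]
    intro hcon
    exact hv (Prod.mk.inj hcon).1

lemma reads_compC (cl : Fin M → Fin 3 → Lit ι (Fin n)) (l : KK0 M n k) :
    ∑ t, Form.reads l (compC cl t) ≤ 2 := by
  rcases l with ⟨⟨v, b⟩, ⟨o, j⟩⟩
  rw [Fintype.sum_sum_type]
  have h1 : ∑ c : Fin M, Form.reads (((v, b), (o, j)) : KK0 M n k) (compC cl (.inl c)) ≤ 1 := by
    calc ∑ c : Fin M, Form.reads (((v, b), (o, j)) : KK0 M n k) (compC cl (.inl c))
        ≤ ∑ c : Fin M, ∑ s : Fin 3, (if (c, s) = o then 1 else 0) := by
          apply Finset.sum_le_sum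
          intro c _
          rw [compC, Form.reads]
          exact Finset.sum_le_sum fun s _ => reads_leafC cl (c, s) (v, b) o j
      _ = ∑ cs : OO M, (if cs = o then 1 else 0) := by rw [Fintype.sum_prod_type]
      _ ≤ 1 := by simp
  have h2 : ∑ v' : Fin n, Form.reads (((v, b), (o, j)) : KK0 M n k) (compC cl (.inr v')) ≤ 1 := by
    calc ∑ v' : Fin n, Form.reads (((v, b), (o, j)) : KK0 M n k) (compC cl (.inr v'))
        ≤ ∑ v' : Fin n, (if v' = v then 1 else 0) := by
          apply Finset.sum_le_sum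
          intro v' _
          rw [compC, Form.reads, Fin.sum_univ_two]
          show Form.reads _ (sideC ι M n k (v', true)) + Form.reads _ (sideC ι M n k (v', false)) ≤ _
          have h4 := reads_sideC (ι := ι) (v, b) (v', true) ((o, j) : TT M k)
          have h5 := reads_sideC (ι := ι) (v, b) (v', false) ((o, j) : TT M k)
          by_cases hv : v' = v
          · subst hv
            rw [if_pos rfl]
            cases b
            · rw [if_neg (by simp)] at h4
              rw [if_pos rfl] at h5
              exact Nat.add_le_add h4 h5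
            · rw [if_pos rfl] at h4
              rw [if_neg (by simp)] at h5
              exact Nat.add_le_add h4 h5
          · rw [if_neg hv]
            rw [if_neg (by simp [hv])] at h4 h5
            exact Nat.add_le_add h4 h5
      _ ≤ 1 := by simp
  exact Nat.add_le_add h1 h2

lemma depth_leafC (cl : Fin M → Fin 3 → Lit ι (Fin n)) (o : OO M) :
    Form.depth (leafC (k := k) cl o) ≤ 1 := by
  rw [leafC]
  rcases cl o.1 o.2 with (b' | ⟨i, b'⟩) | vb
  · simp [Form.depth]
  · cases b' <;> simp [Form.depth]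
  · exact Form.depth_bigOr 0 _ fun j => by simp [Form.depth]

lemma depth_sideC (vb : Fin n × Bool) : Form.depth (sideC ι M n k vb) ≤ 1 :=
  Form.depth_bigAnd 0 _ fun j => by simp [Form.depth]

lemma depth_compC (cl : Fin M → Fin 3 → Lit ι (Fin n)) (t : Fin M ⊕ Fin n) :
    Form.depth (compC (k := k) cl t) ≤ 2 := by
  rcases t with c | v
  · rw [compC, Form.depth]
    exact Nat.add_le_add_left (m := 1) (Finset.sup_le fun s _ => depth_leafC _ _) 1
  · rw [compC, Form.depth]
    refine Nat.add_le_add_left (m := 1) (Finset.sup_le fun s _ => ?_) 1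
    fin_cases s
    · exact depth_sideC _
    · exact depth_sideC _

lemma size_leafC (cl : Fin M → Fin 3 → Lit ι (Fin n)) (o : OO M) :
    Form.size (leafC (k := k) cl o) ≤ 1 + k := by
  rw [leafC]
  rcases cl o.1 o.2 with (b' | ⟨i, b'⟩) | vb
  · simp [Form.size]
  · cases b' <;> simp [Form.size]
  · simp only [Form.size_bigOr, Form.size]
    simp

lemma size_sideC (vb : Fin n × Bool) : Form.size (sideC ι M n k vb) = 1 + M * 3 * k := by
  simp only [sideC, Form.size_bigAnd, Form.size]
  rw [Finset.sum_const, Finset.card_univ, card_TT, smul_eq_mul, mul_one]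

lemma size_compC (cl : Fin M → Fin 3 → Lit ι (Fin n)) :
    ∑ t, Form.size (compC (k := k) cl t) ≤ M * (3 * k + 4) + n * (6 * (M * k) + 3) := by
  rw [Fintype.sum_sum_type]
  apply Nat.add_le_add
  · calc ∑ c : Fin M, Form.size (compC (k := k) cl (.inl c)) ≤ ∑ _c : Fin M, (3 * k + 4) := by
          apply Finset.sum_le_sum
          intro c _
          rw [compC, Form.size]
          have : ∑ s : Fin 3, Form.size (leafC (k := k) cl (c, s)) ≤ ∑ _s : Fin 3, (1 + k) :=
            Finset.sum_le_sum fun s _ => size_leafC _ _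
          simp only [Finset.sum_const, Finset.card_univ, Fintype.card_fin, smul_eq_mul] at this
          omega
      _ = _ := by simp
  · calc ∑ v : Fin n, Form.size (compC (k := k) cl (.inr v)) ≤ ∑ _v : Fin n, (6 * (M * k) + 3) := by
          apply Finset.sum_le_sum
          intro v _
          rw [compC, Form.size, Fin.sum_univ_two]
          show 1 + (Form.size (sideC ι M n k (v, true)) + Form.size (sideC ι M n k (v, false))) ≤ _
          rw [size_sideC, size_sideC]
          apply le_of_eq
          ring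
      _ = _ := by simp

lemma reads_psiC (cl : Fin M → Fin 3 → Lit ι (Fin n)) (l : KK M n k e) :
    Form.reads l (psiC e cl) ≤ 2 := by
  rw [psiC, Form.reads, Fin.sum_univ_two]
  show Form.reads l (Form.bigAnd (bigC e cl)) + Form.reads l (elseC ι M n k e) ≤ 2
  rw [Form.reads_bigAnd, Fintype.sum_option]
  have hels : Form.reads l (elseC ι M n k e) = Form.reads l (Form.wit (.inl ()) : Form ι (KK M n k e)) +
      Form.reads l (Form.mapWit (jj2 M n k e) (Form.fresh ι e)) := by
    have h0 : Form.reads l (elseC ι M n k e) = ∑ i, Form.reads l ((![Form.neg (Form.wit (.inl ())),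
        Form.neg (Form.mapWit (jj2 M n k e) (Form.fresh ι e))] :
          Fin 2 → Form ι (KK M n k e)) i) := rfl
    rw [h0, Fin.sum_univ_two]
    rfl
  rw [hels]
  simp only [bigC]
  rcases l with u | l | l
  · have e1 : ∀ t, Form.reads (Sum.inl u : KK M n k e) (Form.mapWit (jj1 M n k e) (compC cl t)) = 0 :=
      fun t => Form.reads_mapWit_zero _ _ (by simp [jj1]) _
    have e2 : Form.reads (Sum.inl u : KK M n k e) (Form.mapWit (jj2 M n k e) (Form.fresh ι e)) = 0 :=
      Form.reads_mapWit_zero _ _ (by simp [jj2]) _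
    simp only [Form.reads, e1, e2, Finset.sum_const_zero, add_zero]
    split_ifs <;> omega
  · have e1 : ∀ t, Form.reads (Sum.inr (Sum.inl l) : KK M n k e)
        (Form.mapWit (jj1 M n k e) (compC cl t)) = Form.reads l (compC cl t) :=
      fun t => Form.reads_mapWit _ jj1_inj l _
    have e2 : Form.reads (Sum.inr (Sum.inl l) : KK M n k e)
        (Form.mapWit (jj2 M n k e) (Form.fresh ι e)) = 0 :=
      Form.reads_mapWit_zero _ _ (by simp [jj2]) _
    simp only [Form.reads, e1, e2]
    have := reads_compC cl l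
    simpa using this
  · have e1 : ∀ t, Form.reads (Sum.inr (Sum.inr l) : KK M n k e)
        (Form.mapWit (jj1 M n k e) (compC cl t)) = 0 :=
      fun t => Form.reads_mapWit_zero _ _ (by simp [jj1]) _
    have e2 : Form.reads (Sum.inr (Sum.inr l) : KK M n k e)
        (Form.mapWit (jj2 M n k e) (Form.fresh ι e)) = Form.reads l (Form.fresh ι e) :=
      Form.reads_mapWit _ jj2_inj l _
    simp only [Form.reads, e1, e2]
    have := Form.reads_fresh (ι := ι) e l
    simp
    omega

lemma depth_psiC (cl : Fin M → Fin 3 → Lit ι (Fin n)) :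
    Form.depth (psiC (k := k) e cl) ≤ 4 := by
  rw [psiC, Form.depth]
  refine Nat.add_le_add_left (m := 3) (Finset.sup_le fun s _ => ?_) 1
  fin_cases s
  · apply Form.depth_bigAnd 2
    intro t
    rcases t with _ | t
    · simp [bigC, Form.depth]
    · rw [bigC, Form.depth_mapWit]
      exact depth_compC cl t
  · show Form.depth (elseC ι M n k e) ≤ 3
    rw [elseC, Form.depth]
    refine Nat.add_le_add_left (m := 2) (Finset.sup_le fun s _ => ?_) 1
    fin_cases s
    · simp [Form.depth]
    · show Form.depth (Form.neg (Form.mapWit (jj2 M n k e) (Form.fresh ι e))) ≤ 2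
      rw [Form.depth, Form.depth_mapWit, Form.depth_fresh]
      omega

lemma size_psiC (cl : Fin M → Fin 3 → Lit ι (Fin n)) :
    Form.size (psiC (k := k) e cl) ≤ 6 + M * (3 * k + 4) + n * (6 * (M * k) + 3) + e := by
  rw [psiC, Form.size, Fin.sum_univ_two]
  show 1 + (Form.size (Form.bigAnd (bigC e cl)) + Form.size (elseC ι M n k e)) ≤ _
  rw [Form.size_bigAnd, Fintype.sum_option]
  have hels : Form.size (elseC ι M n k e) = 1 + (1 + (1 + e)) := by
    rw [elseC, Form.size, Fin.sum_univ_two]
    show 1 + (1 + Form.size (Form.mapWit (jj2 M n k e) (Form.fresh ι e))) = _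
    rw [Form.size_mapWit, Form.size_fresh]
  rw [hels]
  simp only [bigC, Form.size, Form.size_mapWit]
  have := size_compC (k := k) cl
  omega

lemma acc_psiC (cl : Fin M → Fin 3 → Lit ι (Fin n)) (p : ℕ) (x : ι → Bool) :
    Form.acc p x (psiC (k := k) e cl) =
      (Finset.univ.filter fun y : KK0 M n k → Bool =>
        ∀ t, Form.eval p x y (compC cl t) = true).card * 2 ^ e +
      2 ^ (2 * (k * (M * 3 * n))) * (2 ^ e - 1) := by
  classical
  have hm := Form.card_mix (κ₁ := KK0 M n k) (κ₂ := Fin e)
    (fun y => ∀ t, Form.eval p x y (compC cl t) = true)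
    (fun w => Form.eval p x w (Form.fresh ι e) = false)
  have hr := Form.rej_fresh (ι := ι) p e x
  rw [Form.rej] at hr
  rw [hr, Fintype.card_fin, card_KK0] at hm
  rw [Form.acc]
  have e1 : (Finset.univ.filter fun y : KK M n k e → Bool => Form.eval p x y (psiC e cl) = true) =
      (Finset.univ.filter fun y : Unit ⊕ (KK0 M n k ⊕ Fin e) → Bool =>
        (y (.inl ()) = true ∧ (∀ t, Form.eval p x (fun k => y (.inr (.inl k))) (compC cl t) = true)) ∨
        (y (.inl ()) = false ∧ Form.eval p x (fun k => y (.inr (.inr k))) (Form.fresh ι e) = false)) := by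
    apply Finset.filter_congr
    intro y _
    rw [psiC, Form.eval, decide_eq_true_eq, Fin.exists_fin_two]
    have e3 : Form.eval p x y (Form.bigAnd (bigC e cl)) = true ↔
        (y (.inl ()) = true ∧
          ∀ t, Form.eval p x (fun k => y (.inr (.inl k))) (compC cl t) = true) := by
      rw [Form.eval_bigAnd, Option.forall]
      simp only [bigC, Form.eval_mapWit, jj1, Form.eval]
    have e2 : Form.eval p x y (elseC ι M n k e) = true ↔
        (y (.inl ()) = false ∧ Form.eval p x (fun k => y (.inr (.inr k))) (Form.fresh ι e) = false) := by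
      rw [elseC, Form.eval, decide_eq_true_eq, Fin.forall_fin_two]
      show (Form.eval p x y (Form.neg (Form.wit (.inl ()))) = true ∧
        Form.eval p x y (Form.neg (Form.mapWit (jj2 M n k e) (Form.fresh ι e))) = true) ↔ _
      rw [Form.eval, Form.eval, Form.eval, Form.eval_mapWit, Bool.not_eq_true', Bool.not_eq_true']
      rfl
    rw [← e2, ← e3]
    rfl
  rw [e1]
  exact hm

lemma eval_compC (cl : Fin M → Fin 3 → Lit ι (Fin n)) (p : ℕ) (x : ι → Bool)
    (y : KK0 M n k → Bool) : (∀ t, Form.eval p x y (compC cl t) = true) ↔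
        (∀ c, ∃ s, Form.eval p x y (leafC cl (c, s)) = true) ∧
        ∀ v, ∃ b, ∀ t : TT M k, y ((v, b), t) = false := by
  have hside : ∀ vb, Form.eval p x y (sideC ι M n k vb) = true ↔ ∀ t, y (vb, t) = false := by
    intro vb
    rw [sideC, Form.eval_bigAnd]
    simp only [Form.eval, Bool.not_eq_true']
  constructor
  · intro h
    constructor
    · intro c
      have h5 := h (.inl c)
      rw [compC, Form.eval, decide_eq_true_eq] at h5
      exact h5
    · intro v
      have h5 := h (.inr v)
      rw [compC, Form.eval, decide_eq_true_eq, Fin.exists_fin_two] at h5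
      rcases h5 with h5 | h5
      · exact ⟨true, (hside (v, true)).mp h5⟩
      · exact ⟨false, (hside (v, false)).mp h5⟩
  · rintro ⟨h5, h6⟩ t
    rcases t with c | v
    · rw [compC, Form.eval, decide_eq_true_eq]
      exact h5 c
    · rw [compC, Form.eval, decide_eq_true_eq, Fin.exists_fin_two]
      obtain ⟨b, hb⟩ := h6 v
      cases b
      · exact Or.inr ((hside (v, false)).mpr hb)
      · exact Or.inl ((hside (v, true)).mpr hb)

lemma leafC_sound (cl : Fin M → Fin 3 → Lit ι (Fin n)) (p : ℕ) (x : ι → Bool)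
    (y : KK0 M n k → Bool) (z : Fin n → Bool) (o : OO M)
    (hz : ∀ v t, y ((v, !(z v)), t) = false) (h : Form.eval p x y (leafC cl o) = true) :
    litVal x z (cl o.1 o.2) = true := by
  rw [leafC] at h
  rcases hcl : cl o.1 o.2 with (b' | ⟨i, b'⟩) | ⟨v, b⟩
  · rw [hcl] at h
    simpa [Form.eval, litVal] using h
  · rw [hcl] at h
    cases b'
    · simpa [Form.eval, litVal] using h
    · simpa [Form.eval, litVal] using h
  · rw [hcl] at h
    simp only [Form.eval_bigOr, Form.eval] at h
    obtain ⟨j, hj⟩ := h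
    simp only [litVal, beq_iff_eq]
    by_contra hne
    have hb : b = !(z v) := by
      cases b <;> cases hzv : z v <;> simp_all
    rw [hb, hz v (o, j)] at hj
    exact Bool.noConfusion hj

lemma leafC_complete (cl : Fin M → Fin 3 → Lit ι (Fin n)) (p : ℕ) (x : ι → Bool)
    (y : KK0 M n k → Bool) (z : Fin n → Bool) (o : OO M)
    (hz : ∀ v o, ∃ j, y ((v, z v), (o, j)) = true) (h : litVal x z (cl o.1 o.2) = true) :
    Form.eval p x y (leafC cl o) = true := by
  rw [leafC]
  rcases hcl : cl o.1 o.2 with (b' | ⟨i, b'⟩) | ⟨v, b⟩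
  · rw [hcl] at h
    simpa [Form.eval, litVal] using h
  · rw [hcl] at h
    cases b'
    · simpa [Form.eval, litVal] using h
    · simpa [Form.eval, litVal] using h
  · rw [hcl] at h
    simp only [Form.eval_bigOr, Form.eval]
    simp only [litVal, beq_iff_eq] at h
    obtain ⟨j, hj⟩ := hz v o
    rw [h] at hj
    exact ⟨j, hj⟩

/-- Solutions of the CNF. -/
def solC (cl : Fin M → Fin 3 → Lit ι (Fin n)) (x : ι → Bool) : Finset (Fin n → Bool) :=
  Finset.univ.filter fun z => ∀ c, ∃ s, litVal x z (cl c s) = true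

lemma count_lower (hM : 1 ≤ M) (cl : Fin M → Fin 3 → Lit ι (Fin n)) (p : ℕ) (x : ι → Bool) :
    (2 ^ k - 1) ^ (M * 3 * n) * (solC cl x).card ≤ (Finset.univ.filter fun y : KK0 M n k → Bool =>
        ∀ t, Form.eval p x y (compC cl t) = true).card := by
  classical
  let Cl : Finset (TT M k → Bool) := Finset.univ.filter fun f => ∀ o, ∃ j, f (o, j) = true
  let Can : (Fin n → Bool) → Finset (KK0 M n k → Bool) := fun z => Finset.univ.filter fun y =>
    ∀ v, (fun t => y ((v, z v), t)) ∈ Cl ∧ ∀ t, y ((v, !(z v)), t) = false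
  have hCan : ∀ z, (Can z).card = (2 ^ k - 1) ^ (M * 3 * n) := by
    intro z
    have e1 := card_sides (n := n) (τ := TT M k) z Cl
    have e2 : Cl.card = (2 ^ k - 1) ^ (M * 3) := by
      have := card_claims (τ := OO M) k
      rw [Fintype.card_prod, Fintype.card_fin, Fintype.card_fin] at this
      exact this
    rw [e2, ← pow_mul] at e1
    exact e1
  have hdisj : ∀ z ∈ solC cl x, ∀ z' ∈ solC cl x, z ≠ z' → Disjoint (Can z) (Can z') := by
    intro z _ z' _ hne
    rw [Finset.disjoint_left]
    intro y hy hy'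
    simp only [Can, Cl, Finset.mem_filter, Finset.mem_univ, true_and] at hy hy'
    apply hne
    funext v
    by_contra hv
    have hv' : z v = !(z' v) := by
      cases hzv : z v <;> cases hzv' : z' v <;> simp_all
    obtain ⟨j, hj⟩ := (hy v).1 (⟨0, hM⟩, 0)
    have := (hy' v).2 ((⟨0, hM⟩, 0), j)
    rw [← hv'] at this
    rw [this] at hj
    exact Bool.noConfusion hj
  calc (2 ^ k - 1) ^ (M * 3 * n) * (solC cl x).card = ∑ z ∈ solC cl x, (Can z).card := by
        rw [Finset.sum_congr rfl fun z _ => hCan z, Finset.sum_const, smul_eq_mul, mul_comm]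
    _ = ((solC cl x).biUnion Can).card := (Finset.card_biUnion hdisj).symm
    _ ≤ _ := by
        apply Finset.card_le_card
        intro y hy
        rw [Finset.mem_biUnion] at hy
        obtain ⟨z, hzS, hy⟩ := hy
        rw [Finset.mem_filter]
        refine ⟨Finset.mem_univ _, ?_⟩
        rw [eval_compC]
        simp only [Can, Cl, Finset.mem_filter, Finset.mem_univ, true_and] at hy
        simp only [solC, Finset.mem_filter, Finset.mem_univ, true_and] at hzS
        constructor
        · intro c
          obtain ⟨s, hs⟩ := hzS c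
          exact ⟨s, leafC_complete cl p x y z (c, s) (fun v o => (hy v).1 o) hs⟩
        · intro v
          exact ⟨!(z v), (hy v).2⟩

lemma count_upper (cl : Fin M → Fin 3 → Lit ι (Fin n)) (p : ℕ) (x : ι → Bool) :
    (Finset.univ.filter fun y : KK0 M n k → Bool =>
        ∀ t, Form.eval p x y (compC cl t) = true).card ≤ 2 ^ (k * (M * 3 * n)) * (solC cl x).card := by
  classical
  let Up : (Fin n → Bool) → Finset (KK0 M n k → Bool) := fun z => Finset.univ.filter fun y =>
    ∀ v, (fun t => y ((v, z v), t)) ∈ (Finset.univ : Finset (TT M k → Bool)) ∧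
      ∀ t, y ((v, !(z v)), t) = false
  have hUp : ∀ z, (Up z).card = 2 ^ (k * (M * 3 * n)) := by
    intro z
    have e1 := card_sides (n := n) (τ := TT M k) z Finset.univ
    rw [Finset.card_univ, Fintype.card_fun, Fintype.card_bool, card_TT, ← pow_mul] at e1
    have : M * 3 * k * n = k * (M * 3 * n) := by ring
    rw [this] at e1
    exact e1
  calc _ ≤ ((solC cl x).biUnion Up).card := by
        apply Finset.card_le_card
        intro y hy
        rw [Finset.mem_filter, eval_compC] at hy
        obtain ⟨-, h5, h6⟩ := hy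
        choose b hb using h6
        rw [Finset.mem_biUnion]
        have hz : ∀ v t, y ((v, !(!(b v))), t) = false := by
          intro v t
          rw [Bool.not_not]
          exact hb v t
        refine ⟨fun v => !(b v), ?_, ?_⟩
        · simp only [solC, Finset.mem_filter, Finset.mem_univ, true_and]
          intro c
          obtain ⟨s, hs⟩ := h5 c
          exact ⟨s, leafC_sound cl p x y (fun v => !(b v)) (c, s) hz hs⟩
        · simp only [Up, Finset.mem_filter, Finset.mem_univ, true_and]
          exact hz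
    _ ≤ ∑ z ∈ solC cl x, (Up z).card := Finset.card_biUnion_le
    _ = _ := by
        rw [Finset.sum_congr rfl fun z _ => hUp z, Finset.sum_const, smul_eq_mul, mul_comm]

lemma majority_arith (D e q a : ℕ) (he : e + q = D + 1) :
    2 ^ (1 + (2 * D + e)) < 2 * (a * 2 ^ e + 2 ^ (2 * D) * (2 ^ e - 1)) ↔
        2 ^ D * 2 ^ q < 2 * a := by
  have e1 : (2 : ℕ) ^ (1 + (2 * D + e)) = 2 * (2 ^ (2 * D) * 2 ^ e) := by
    rw [pow_add, pow_add]; ring
  have hE : 1 ≤ 2 ^ e := Nat.one_le_two_pow
  have e2 : 2 ^ (2 * D) * (2 ^ e - 1) + 2 ^ (2 * D) = 2 ^ (2 * D) * 2 ^ e := by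
    calc 2 ^ (2 * D) * (2 ^ e - 1) + 2 ^ (2 * D) = 2 ^ (2 * D) * ((2 ^ e - 1) + 1) := by ring
      _ = _ := by rw [Nat.sub_add_cancel hE]
  rw [e1]
  have step1 : 2 * (2 ^ (2 * D) * 2 ^ e) < 2 * (a * 2 ^ e + 2 ^ (2 * D) * (2 ^ e - 1)) ↔
      2 ^ (2 * D) < a * 2 ^ e := by
    have hX : 0 < 2 ^ (2 * D) := by positivity
    omega
  rw [step1]
  have e3 : 2 ^ e * 2 ^ q = 2 * 2 ^ D := by
    rw [← pow_add, he, pow_succ]
    ring
  have hq0 : 0 < 2 ^ q := by positivity
  have hD0 : 0 < 2 ^ D := by positivity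
  have e4 : 2 ^ (2 * D) = 2 ^ D * 2 ^ D := by rw [← pow_add]; congr 1; ring
  rw [e4]
  constructor
  · intro h
    have h' : 2 ^ D * 2 ^ D * 2 ^ q < a * 2 ^ e * 2 ^ q := Nat.mul_lt_mul_of_pos_right h hq0
    have h'' : 2 ^ D * (2 ^ D * 2 ^ q) < 2 ^ D * (2 * a) := by
      calc 2 ^ D * (2 ^ D * 2 ^ q) = 2 ^ D * 2 ^ D * 2 ^ q := by ring
        _ < a * 2 ^ e * 2 ^ q := h'
        _ = a * (2 ^ e * 2 ^ q) := by ring
        _ = 2 ^ D * (2 * a) := by rw [e3]; ring
    exact Nat.lt_of_mul_lt_mul_left h''
  · intro h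
    have h' : 2 ^ D * (2 ^ D * 2 ^ q) < 2 ^ D * (2 * a) := Nat.mul_lt_mul_of_pos_left h hD0
    have h'' : 2 ^ D * 2 ^ D * 2 ^ q < a * 2 ^ e * 2 ^ q := by
      calc 2 ^ D * 2 ^ D * 2 ^ q = 2 ^ D * (2 ^ D * 2 ^ q) := by ring
        _ < 2 ^ D * (2 * a) := h'
        _ = a * (2 ^ e * 2 ^ q) := by rw [e3]; ring
        _ = _ := by ring
    exact Nat.lt_of_mul_lt_mul_right h''

end Construction

/-- Formula which counts the solutions of a CNF with three literals per clause. -/
lemma maj_read_twice {ι : Type} (M n k q : ℕ) (hM : 1 ≤ M) (cl : Fin M → Fin 3 → Lit ι (Fin n))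
    (hk : (M * 3 * n) * (2 ^ q + 1) < 2 ^ k) (hq : q ≤ k * (M * 3 * n) + 1) :
    ∃ (r : ℕ) (ψ : Form ι (Fin r)), (∀ l, Form.reads l ψ ≤ 2) ∧ Form.depth ψ ≤ 4 ∧
      Form.size ψ ≤ 6 + M * (3 * k + 4) + n * (6 * (M * k) + 3) + (k * (M * 3 * n) + 1 - q) ∧
      ∀ (p : ℕ) (x : ι → Bool), Form.MajAcc p x ψ ↔ 2 ^ q < 2 * (solC cl x).card := by
  classical
  obtain ⟨e, he⟩ : ∃ e, e = k * (M * 3 * n) + 1 - q := ⟨_, rfl⟩
  obtain ⟨r, ψ', -, h1, h2, h3, h4, -⟩ := Form.to_fin 2 (psiC (k := k) e cl) (reads_psiC cl)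
  refine ⟨r, ψ', h1, ?_, ?_, ?_⟩
  · rw [h2]
    exact depth_psiC cl
  · rw [h3, ← he]
    exact size_psiC cl
  · intro p x
    rw [h4, Form.MajAcc, acc_psiC, card_KK, majority_arith _ _ q _ (by omega)]
    exact threshold_arith k (M * 3 * n) q (solC cl x).card _ hk (count_lower hM cl p x)
      (count_upper cl p x)

end Pool.Agent.Lib20
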