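import Pool.Agent.Lib_helper20.Amplify
import Pool.Agent.Lib_helper20.AC0Defs

namespace Pool.Agent.Lib20

open Finset

/-- Embedding of truth values in the field. -/
def toF (p : ℕ) (b : Bool) : ZMod p := if b = true then 1 else 0

lemma toF_not (p : ℕ) (b : Bool) : toF p (!b) = 1 - toF p b := by
  cases b <;> simp [toF]

section counting

variable {p : ℕ} [hp : Fact p.Prime]

/-- At most half of the linear forms vanish at a point with a coordinate equal to one. -/
lemma half {L : ℕ} (z : Fin L → ZMod p) (i0 : Fin L) (h : z i0 = 1) :
    2 * (Finset.univ.filter fun r : Fin L → ZMod p => ∑ i, r i * z i = 0).card ≤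
      Fintype.card (Fin L → ZMod p) := by
  classical
  set A := Finset.univ.filter fun r : Fin L → ZMod p => ∑ i, r i * z i = 0 with hA
  set B := Finset.univ.filter fun r : Fin L → ZMod p => ¬ ∑ i, r i * z i = 0 with hB
  have h1 : A.card + B.card = Fintype.card (Fin L → ZMod p) := by
    rw [← Finset.card_univ]
    exact Finset.card_filter_add_card_filter_not _
  have h2 : A.card ≤ B.card := by
    apply Finset.card_le_card_of_injOn (fun r => r + Pi.single i0 1)
    · intro r hr
      have hr' : ∑ i, r i * z i = 0 := by simpa [hA] using hr
      have : ∑ i, (r + Pi.single i0 1 : Fin L → ZMod p) i * z i = 1 := by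
        simp only [Pi.add_apply, add_mul, Finset.sum_add_distrib, hr', zero_add]
        rw [Finset.sum_eq_single i0]
        · simp [h]
        · intro j _ hj
          simp [Pi.single_eq_of_ne hj]
        · intro h; exact absurd (Finset.mem_univ _) h
      simp only [hB, Finset.coe_filter, Finset.mem_univ, true_and, Set.mem_ofPred_eq]
      rw [this]
      exact one_ne_zero
    · intro a _ b _ hab
      exact add_right_cancel hab
  omega

lemma half_pow {L : ℕ} (z : Fin L → ZMod p) (i0 : Fin L) (h : z i0 = 1) (k : ℕ) :
    2 ^ k * (Finset.univ.filter fun r : Fin k → Fin L → ZMod p => ∀ a, ∑ i, r a i * z i = 0).card ≤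
      Fintype.card (Fin k → Fin L → ZMod p) := by
  classical
  have h1 : (Finset.univ.filter fun r : Fin k → Fin L → ZMod p => ∀ a, ∑ i, r a i * z i = 0) =
      Fintype.piFinset (fun _ : Fin k => Finset.univ.filter fun r : Fin L → ZMod p => ∑ i, r i * z i = 0) := by
    ext r
    simp [Fintype.mem_piFinset]
  rw [h1, Fintype.card_piFinset_const, Fintype.card_pi_const, ← mul_pow]
  exact Nat.pow_le_pow_left (half z i0 h) k

end counting

section approx

variable {p : ℕ} [hp : Fact p.Prime] {ι : Type} [Fintype ι] [DecidableEq ι]

/-- Function attached to a source, given functions for the earlier gates. -/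
def srcPoly (p : ℕ) {ι : Type} (Pl : List ((ι → Bool) → ZMod p)) : Src ι → ((ι → Bool) → ZMod p)
  | .const b => fun _ => toF p b
  | .input i => fun x => toF p (x i)
  | .gate k => Pl.getD k 0

def wirePoly (p : ℕ) {ι : Type} (Pl : List ((ι → Bool) → ZMod p)) (w : Bool × Src ι) :
    (ι → Bool) → ZMod p :=
  if w.1 = true then 1 - srcPoly p Pl w.2 else srcPoly p Pl w.2

omit hp [Fintype ι] [DecidableEq ι] in
lemma srcPoly_correct (Pl : List ((ι → Bool) → ZMod p)) (x : ι → Bool) (vs : List Bool)
    (h : Pl.map (fun f => f x) = vs.map (toF p)) (s : Src ι) :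
    srcPoly p Pl s x = toF p (s.val x vs) := by
  cases s with
  | const b => rfl
  | input i => rfl
  | gate k =>
    simp only [srcPoly, Src.val]
    have h1 : (Pl.map (fun f => f x)).getD k 0 = (Pl.getD k 0) x := by
      rw [List.getD_eq_getElem?_getD, List.getD_eq_getElem?_getD, List.getElem?_map]
      cases Pl[k]? <;> simp
    have h2 : (vs.map (toF p)).getD k 0 = toF p (vs.getD k false) := by
      rw [List.getD_eq_getElem?_getD, List.getD_eq_getElem?_getD, List.getElem?_map]
      cases vs[k]? <;> simp [toF]
    rw [← h1, h, h2]

omit hp [Fintype ι] [DecidableEq ι] in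
lemma wirePoly_correct (Pl : List ((ι → Bool) → ZMod p)) (x : ι → Bool) (vs : List Bool)
    (h : Pl.map (fun f => f x) = vs.map (toF p)) (w : Bool × Src ι) :
    wirePoly p Pl w x = toF p (wireVal x vs w) := by
  rcases w with ⟨b, s⟩
  have hs := srcPoly_correct Pl x vs h s
  cases b
  · simp [wirePoly, wireVal, hs]
  · simp only [wirePoly, wireVal, if_true, Pi.sub_apply, Pi.one_apply, hs, Bool.true_xor, toF_not]

lemma srcPoly_mem {B : ℕ} (Pl : List ((ι → Bool) → ZMod p)) (ds : List ℕ)
    (h : List.Forall₂ (fun f e => f ∈ LD (ZMod p) ι (B ^ e)) Pl ds) (s : Src ι) :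
    srcPoly p Pl s ∈ LD (ZMod p) ι (B ^ (s.depth ds)) := by
  cases s with
  | const b =>
    have : srcPoly p Pl (Src.const b : Src ι) = (toF p b) • (1 : (ι → Bool) → ZMod p) := by
      funext x; simp [srcPoly]
    rw [this]
    exact Submodule.smul_mem _ _ (one_mem_LD _)
  | input i =>
    have : srcPoly p Pl (Src.input i : Src ι) = mono (ZMod p) {i} := by
      funext x; simp [srcPoly, mono, toF]
    rw [this]
    apply mono_mem_LD
    simp [Src.depth]
  | gate k =>
    simp only [srcPoly, Src.depth]
    rw [List.getD_eq_getElem?_getD, List.getD_eq_getElem?_getD]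
    by_cases hk : k < Pl.length
    · have hk' : k < ds.length := by rw [← h.length_eq]; exact hk
      rw [List.getElem?_eq_getElem hk, List.getElem?_eq_getElem hk']
      simp only [Option.getD_some]
      exact h.get hk hk'
    · have : Pl[k]? = none := by
        rw [List.getElem?_eq_none_iff]; omega
      rw [this]
      simp only [Option.getD_none]
      exact Submodule.zero_mem _

lemma wirePoly_mem {B : ℕ} (Pl : List ((ι → Bool) → ZMod p)) (ds : List ℕ)
    (h : List.Forall₂ (fun f e => f ∈ LD (ZMod p) ι (B ^ e)) Pl ds) (w : Bool × Src ι) :
    wirePoly p Pl w ∈ LD (ZMod p) ι (B ^ (w.2.depth ds)) := by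
  have := srcPoly_mem Pl ds h w.2
  simp only [wirePoly]
  split_ifs
  · exact Submodule.sub_mem _ (one_mem_LD _) this
  · exact this

/-- The random approximation of a disjunction with coefficients `r`. -/
def orApprox (p : ℕ) {ι : Type} {L k : ℕ} (Q : Fin L → (ι → Bool) → ZMod p) (r : Fin k → Fin L → ZMod p) :
    (ι → Bool) → ZMod p :=
  1 - ∏ a, (1 - (∑ i, r a i • Q i) ^ (p - 1))

lemma orApprox_mem {L k D : ℕ} (Q : Fin L → (ι → Bool) → ZMod p) (hQ : ∀ i, Q i ∈ LD (ZMod p) ι D)
    (r : Fin k → Fin L → ZMod p) : orApprox p Q r ∈ LD (ZMod p) ι (((p - 1) * k) * D) := by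
  apply Submodule.sub_mem _ (one_mem_LD _)
  have h := prod_mem_LD (F := ZMod p) (Finset.univ : Finset (Fin k)) (a := (p - 1) * D)
    (fun a => (1 - (∑ i, r a i • Q i) ^ (p - 1) : (ι → Bool) → ZMod p)) (fun a _ => by
      apply Submodule.sub_mem _ (one_mem_LD _)
      apply pow_mem_LD
      exact Submodule.sum_mem _ fun i _ => Submodule.smul_mem _ _ (hQ i))
  have e : (Finset.univ : Finset (Fin k)).card * ((p - 1) * D) = ((p - 1) * k) * D := by
    rw [Finset.card_univ, Fintype.card_fin]; ring
  rw [e] at h
  exact h

omit [Fintype ι] [DecidableEq ι] in
lemma orApprox_apply {L k : ℕ} (Q : Fin L → (ι → Bool) → ZMod p) (r : Fin k → Fin L → ZMod p) (x : ι → Bool) :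
    orApprox p Q r x = 1 - ∏ a, (1 - (∑ i, r a i * Q i x) ^ (p - 1)) := by
  simp [orApprox, Finset.prod_apply, Finset.sum_apply]

omit [Fintype ι] [DecidableEq ι] in
/-- If all the disjuncts are zero the approximation is zero. -/
lemma orApprox_zero {L k : ℕ} (Q : Fin L → (ι → Bool) → ZMod p) (r : Fin k → Fin L → ZMod p) (x : ι → Bool)
    (h : ∀ i, Q i x = 0) : orApprox p Q r x = 0 := by
  rw [orApprox_apply]
  have hp1 : p - 1 ≠ 0 := by
    have := hp.out.two_le
    omega
  simp [h, zero_pow hp1]

omit [Fintype ι] [DecidableEq ι] in
/-- If one of the linear forms does not vanish the approximation is one. -/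
lemma orApprox_one {L k : ℕ} (Q : Fin L → (ι → Bool) → ZMod p) (r : Fin k → Fin L → ZMod p) (x : ι → Bool)
    (h : ¬ ∀ a, ∑ i, r a i * Q i x = 0) : orApprox p Q r x = 1 := by
  rw [orApprox_apply]
  push Not at h
  obtain ⟨a, ha⟩ := h
  have : ∏ a, (1 - (∑ i, r a i * Q i x) ^ (p - 1)) = 0 := by
    apply Finset.prod_eq_zero (Finset.mem_univ a)
    rw [ZMod.pow_card_sub_one_eq_one ha, sub_self]
  rw [this, sub_zero]

omit hp [Fintype ι] [DecidableEq ι] in
lemma toF_eq_zero_iff [Fact p.Prime] (b : Bool) : toF p b = 0 ↔ b = false := by
  cases b <;> simp [toF]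

lemma foldr_max_le {α : Type} (f : α → ℕ) (l : List α) (a : α) (ha : a ∈ l) :
    f a ≤ (l.map f).foldr max 0 := by
  induction l with
  | nil => simp at ha
  | cons b l ih =>
    rcases List.mem_cons.mp ha with h | h
    · subst h; simp
    · simp only [List.map_cons, List.foldr_cons]
      exact (ih h).trans (le_max_right _ _)

/-- Razborov's approximation: a circuit is approximated, pointwise with small error, by
a uniformly random member of a finite family of low-degree functions. -/
lemma approx_circuit (C : Circuit ι) (k0 : ℕ) (hk0 : 1 ≤ k0) :
    ∃ (I : Type) (_ : Fintype I) (_ : Nonempty I) (P : I → List ((ι → Bool) → ZMod p)),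
      (∀ i, List.Forall₂ (fun f e => f ∈ LD (ZMod p) ι (((p - 1) * k0) ^ e)) (P i) (Circuit.depths C)) ∧
      (∀ x : ι → Bool, 2 ^ k0 * Nat.card {i : I // ¬ (P i).map (fun f => f x) = (Circuit.vals p x C).map (toF p)} ≤
        C.length * Fintype.card I) := by
  classical
  have hB : 1 ≤ (p - 1) * k0 := by
    have := hp.out.two_le
    exact Nat.mul_pos (by omega) hk0
  set B := (p - 1) * k0 with hBdef
  induction C with
  | nil =>
    refine ⟨Unit, inferInstance, inferInstance, fun _ => [], fun _ => ?_, fun x => ?_⟩
    · exact List.Forall₂.nil
    · have : IsEmpty {i : Unit // ¬ (([] : List ((ι → Bool) → ZMod p)).map (fun f => f x) = (Circuit.vals p x []).map (toF p))} := by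
        refine ⟨fun ⟨i, hi⟩ => hi ?_⟩
        simp [Circuit.vals]
      rw [Nat.card_of_isEmpty]
      simp
  | cons g C ih =>
    obtain ⟨I, hI1, hI2, P, hP1, hP2⟩ := ih
    set L := g.wires.length with hL
    -- wires of the new gate
    let Q : I → Fin L → (ι → Bool) → ZMod p := fun i a => wirePoly p (P i) (g.wires.get a)
    set δ := (g.wires.map fun w => w.2.depth (Circuit.depths C)).foldr max 0 with hδ
    have hQ : ∀ i a, Q i a ∈ LD (ZMod p) ι (B ^ δ) := by
      intro i a
      refine LD_mono ?_ (wirePoly_mem (P i) (Circuit.depths C) (hP1 i) (g.wires.get a))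
      apply Nat.pow_le_pow_right hB
      exact foldr_max_le (fun w : Bool × Src ι => w.2.depth (Circuit.depths C)) g.wires _ (List.get_mem _ _)
    let R := Fin k0 → Fin L → ZMod p
    let newP : I × R → (ι → Bool) → ZMod p := fun ir =>
      match g.kind with
      | .or => orApprox p (Q ir.1) ir.2
      | .and => 1 - orApprox p (fun a => 1 - Q ir.1 a) ir.2
      | .mod => 1 - (∑ a, Q ir.1 a) ^ (p - 1)
    have hnewmem : ∀ ir, newP ir ∈ LD (ZMod p) ι (B ^ (δ + 1)) := by
      intro ir
      have e : B ^ (δ + 1) = ((p - 1) * k0) * B ^ δ := by rw [pow_succ, mul_comm]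
      simp only [newP]
      cases g.kind with
      | or => rw [e]; exact orApprox_mem (Q ir.1) (hQ ir.1) ir.2
      | and =>
        apply Submodule.sub_mem _ (one_mem_LD _)
        rw [e]
        exact orApprox_mem (fun a => 1 - Q ir.1 a) (fun a => Submodule.sub_mem _ (one_mem_LD _) (hQ ir.1 a)) ir.2
      | mod =>
        apply Submodule.sub_mem _ (one_mem_LD _)
        have h1 := pow_mem_LD (F := ZMod p) (Submodule.sum_mem _ fun a (_ : a ∈ Finset.univ) => hQ ir.1 a) (p - 1)
        refine LD_mono ?_ h1
        rw [e]
        apply Nat.mul_le_mul_right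
        exact Nat.le_mul_of_pos_right _ hk0
    refine ⟨I × R, inferInstance, inferInstance, fun ir => newP ir :: P ir.1, ?_, ?_⟩
    · intro ir
      simp only [Circuit.depths]
      exact List.Forall₂.cons (hnewmem ir) (hP1 ir.1)
    · intro x
      -- the bad coefficient matrices at `x`
      let z : Fin L → ZMod p := fun a => toF p (wireVal x (Circuit.vals p x C) (g.wires.get a))
      let badR : Finset R :=
        match g.kind with
        | .or => if ∃ a, z a = 1 then Finset.univ.filter (fun r => ∀ b, ∑ a, r b a * z a = 0) else ∅
        | .and => if ∃ a, 1 - z a = 1 then Finset.univ.filter (fun r => ∀ b, ∑ a, r b a * (1 - z a) = 0) else ∅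
        | .mod => ∅
      have hbadR : 2 ^ k0 * badR.card ≤ Fintype.card R := by
        simp only [badR]
        cases g.kind with
        | or =>
          simp only
          split_ifs with h
          · obtain ⟨a, ha⟩ := h
            exact half_pow z a ha k0
          · simp
        | and =>
          simp only
          split_ifs with h
          · obtain ⟨a, ha⟩ := h
            exact half_pow (fun a => 1 - z a) a ha k0
          · simp
        | mod => simp
      -- correctness outside the bad events
      have hcorrect : ∀ i r, (P i).map (fun f => f x) = (Circuit.vals p x C).map (toF p) → r ∉ badR →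
          newP (i, r) x = toF p (g.val p x (Circuit.vals p x C)) := by
        intro i r hi hr
        have hQx : ∀ a, Q i a x = z a := fun a => wirePoly_correct (P i) x _ hi _
        have hz01 : ∀ a, z a = 0 ∨ z a = 1 := by
          intro a
          simp only [z, toF]
          split_ifs
          · right; rfl
          · left; rfl
        simp only [newP, Gate.val]
        simp only [badR] at hr
        cases hk : g.kind with
        | or =>
          simp only [hk] at hr ⊢
          by_cases h : ∃ a, z a = 1
          · rw [if_pos h] at hr
            simp only [Finset.mem_filter, Finset.mem_univ, true_and] at hr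
            have h1 : g.wires.any (wireVal x (Circuit.vals p x C)) = true := by
              obtain ⟨a, ha⟩ := h
              rw [List.any_eq_true]
              refine ⟨g.wires.get a, List.get_mem _ _, ?_⟩
              by_contra hne
              rw [Bool.not_eq_true] at hne
              simp only [z, hne, toF, Bool.false_eq_true, if_false] at ha
              exact zero_ne_one ha
            rw [h1]
            rw [orApprox_one (Q i) r x (by simpa only [hQx] using hr)]
            simp [toF]
          · have h0 : ∀ a, z a = 0 := fun a => (hz01 a).resolve_right fun h1 => h ⟨a, h1⟩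
            have h1 : g.wires.any (wireVal x (Circuit.vals p x C)) = false := by
              rw [List.any_eq_false]
              intro w hw
              obtain ⟨a, rfl⟩ := List.get_of_mem hw
              rw [Bool.not_eq_true]
              exact (toF_eq_zero_iff _).mp (h0 a)
            rw [h1, orApprox_zero (Q i) r x (fun a => by rw [hQx, h0])]
            simp [toF]
        | and =>
          simp only [hk] at hr ⊢
          simp only [Pi.sub_apply, Pi.one_apply]
          by_cases h : ∃ a, 1 - z a = 1
          · rw [if_pos h] at hr
            simp only [Finset.mem_filter, Finset.mem_univ, true_and] at hr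
            have h1 : g.wires.all (wireVal x (Circuit.vals p x C)) = false := by
              obtain ⟨a, ha⟩ := h
              rw [List.all_eq_false]
              refine ⟨g.wires.get a, List.get_mem _ _, ?_⟩
              have hza : z a = 0 := by
                have := sub_eq_self.mp ha
                exact this
              rw [Bool.not_eq_true]
              exact (toF_eq_zero_iff _).mp hza
            rw [h1]
            rw [orApprox_one (fun a => 1 - Q i a) r x (by simpa only [Pi.sub_apply, Pi.one_apply, hQx] using hr)]
            simp [toF]
          · have h0 : ∀ a, z a = 1 := fun a => by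
              rcases hz01 a with h1 | h1
              · exact absurd ⟨a, by rw [h1, sub_zero]⟩ h
              · exact h1
            have h1 : g.wires.all (wireVal x (Circuit.vals p x C)) = true := by
              rw [List.all_eq_true]
              intro w hw
              obtain ⟨a, rfl⟩ := List.get_of_mem hw
              by_contra hne
              rw [Bool.not_eq_true] at hne
              have := h0 a
              simp only [z, hne, toF, Bool.false_eq_true, if_false] at this
              exact zero_ne_one this
            rw [h1, orApprox_zero (fun a => 1 - Q i a) r x (fun a => by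
              simp only [Pi.sub_apply, Pi.one_apply]
              rw [hQx, h0, sub_self])]
            simp [toF]
        | mod =>
          simp only
          simp only [Pi.sub_apply, Pi.one_apply, Pi.pow_apply, Finset.sum_apply, hQx]
          have hsum : ∑ a, z a = ((g.wires.countP (wireVal x (Circuit.vals p x C)) : ℕ) : ZMod p) := by
            have h1 : ∑ a, z a = (g.wires.map (fun w => toF p (wireVal x (Circuit.vals p x C) w))).sum := by
              rw [← List.sum_ofFn]
              congr 1
              apply List.ext_getElem
              · simp [hL]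
              · intro n h1 h2
                simp [z]
            rw [h1]
            generalize g.wires = l
            induction l with
            | nil => simp
            | cons w l ihl =>
              rw [List.map_cons, List.sum_cons, ihl, List.countP_cons]
              cases hw : wireVal x (Circuit.vals p x C) w
              · simp [toF]
              · simp [toF]; ring
          rw [hsum]
          by_cases hdiv : p ∣ g.wires.countP (wireVal x (Circuit.vals p x C))
          · have h0 : ((g.wires.countP (wireVal x (Circuit.vals p x C)) : ℕ) : ZMod p) = 0 :=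
              (ZMod.natCast_eq_zero_iff _ _).mpr hdiv
            have hp1 : p - 1 ≠ 0 := by
              have := hp.out.two_le
              omega
            rw [h0, zero_pow hp1]
            simp [hdiv, toF]
          · have h0 : ((g.wires.countP (wireVal x (Circuit.vals p x C)) : ℕ) : ZMod p) ≠ 0 := by
              intro h
              exact hdiv ((ZMod.natCast_eq_zero_iff _ _).mp h)
            rw [ZMod.pow_card_sub_one_eq_one h0]
            simp [hdiv, toF]
      -- counting the bad indices
      have hx := hP2 x
      rw [Nat.card_eq_fintype_card, Fintype.card_subtype] at hx ⊢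
      have hsub : (Finset.univ.filter fun ir : I × R =>
          ¬ ((newP ir :: P ir.1).map (fun f => f x) = (Circuit.vals p x (g :: C)).map (toF p))) ⊆
          ((Finset.univ.filter fun i : I => ¬ ((P i).map (fun f => f x) = (Circuit.vals p x C).map (toF p))) ×ˢ
            (Finset.univ : Finset R)) ∪ ((Finset.univ : Finset I) ×ˢ badR) := by
        intro ir hir
        simp only [Finset.mem_filter, Finset.mem_univ, true_and] at hir
        simp only [Finset.mem_union, Finset.mem_product, Finset.mem_filter, Finset.mem_univ, true_and, and_true]
        by_contra hno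
        rw [not_or, not_not] at hno
        apply hir
        simp only [Circuit.vals, List.map_cons]
        rw [hno.1, hcorrect ir.1 ir.2 hno.1 hno.2]
      have hc := (Finset.card_le_card hsub).trans (Finset.card_union_le _ _)
      rw [Finset.card_product, Finset.card_product, Finset.card_univ, Finset.card_univ] at hc
      rw [Fintype.card_prod, List.length_cons]
      calc _ ≤ 2 ^ k0 * ((Finset.univ.filter fun i : I => ¬ ((P i).map (fun f => f x) = (Circuit.vals p x C).map (toF p))).card * Fintype.card R +
            Fintype.card I * badR.card) := Nat.mul_le_mul_left _ hc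
        _ = (2 ^ k0 * (Finset.univ.filter fun i : I => ¬ ((P i).map (fun f => f x) = (Circuit.vals p x C).map (toF p))).card) * Fintype.card R +
            Fintype.card I * (2 ^ k0 * badR.card) := by ring
        _ ≤ (List.length C * Fintype.card I) * Fintype.card R + Fintype.card I * Fintype.card R := by
            apply Nat.add_le_add
            · exact Nat.mul_le_mul_right _ hx
            · exact Nat.mul_le_mul_left _ hbadR
        _ = (List.length C + 1) * (Fintype.card I * Fintype.card R) := by ring

end approx

end Pool.Agent.Lib20
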