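import Pool.Agent.Lib_helper20.LowDeg

namespace Pool.Agent.Lib20

open Finset

/-- Rank lemma on `Fin n`: a family of monomials independent on `S`, as large as `S`,
with average degree at most `n / 2`. -/
lemma rank_fin (F : Type) [Field F] (n : ℕ) (S : Finset (Fin n → Bool)) :
    ∃ A : Finset (Finset (Fin n)), A.card = S.card ∧ 2 * ∑ T ∈ A, T.card ≤ n * S.card ∧
      ∀ c : Finset (Fin n) → F, (∀ x ∈ S, ∑ T ∈ A, c T * mono F T x = 0) → ∀ T ∈ A, c T = 0 := by
  classical
  induction n with
  | zero =>
    by_cases hS : S.Nonempty
    · refine ⟨{∅}, ?_, by simp, ?_⟩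
      · obtain ⟨x, hx⟩ := hS
        have : S = {x} := by
          apply Finset.eq_singleton_iff_unique_mem.mpr
          exact ⟨hx, fun y _ => Subsingleton.elim _ _⟩
        rw [this]; simp
      · intro c hc T hT
        rw [Finset.mem_singleton] at hT
        subst hT
        obtain ⟨x, hx⟩ := hS
        have := hc x hx
        simpa [mono] using this
    · rw [Finset.not_nonempty_iff_eq_empty] at hS
      subst hS
      exact ⟨∅, by simp, by simp, by simp⟩
  | succ n ih =>
    set S0 : Finset (Fin n → Bool) := Finset.univ.filter fun y => (Fin.cons false y : Fin (n+1) → Bool) ∈ S with hS0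
    set S1 : Finset (Fin n → Bool) := Finset.univ.filter fun y => (Fin.cons true y : Fin (n+1) → Bool) ∈ S with hS1
    have hcard : S0.card + S1.card = S.card := by
      have hinj : ∀ b : Bool, Function.Injective (fun y : Fin n → Bool => (Fin.cons b y : Fin (n+1) → Bool)) := by
        intro b y z h
        exact (Fin.cons_inj.mp h).2
      have h0 : S0.card = (S.filter fun x => x 0 = false).card := by
        rw [← Finset.card_image_of_injective S0 (hinj false)]
        congr 1
        ext x
        simp only [Finset.mem_image, Finset.mem_filter, hS0, Finset.mem_univ, true_and]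
        constructor
        · rintro ⟨y, hy, rfl⟩
          exact ⟨hy, by simp⟩
        · rintro ⟨hx, hx0⟩
          refine ⟨Fin.tail x, ?_, ?_⟩
          · rw [← hx0, Fin.cons_self_tail]; exact hx
          · rw [← hx0, Fin.cons_self_tail]
      have h1 : S1.card = (S.filter fun x => ¬ x 0 = false).card := by
        rw [← Finset.card_image_of_injective S1 (hinj true)]
        congr 1
        ext x
        simp only [Finset.mem_image, Finset.mem_filter, hS1, Finset.mem_univ, true_and]
        constructor
        · rintro ⟨y, hy, rfl⟩
          exact ⟨hy, by simp⟩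
        · rintro ⟨hx, hx0⟩
          have hx1 : x 0 = true := by simpa using hx0
          refine ⟨Fin.tail x, ?_, ?_⟩
          · rw [← hx1, Fin.cons_self_tail]; exact hx
          · rw [← hx1, Fin.cons_self_tail]
      rw [h0, h1]
      exact Finset.card_filter_add_card_filter_not _
    obtain ⟨A, hA1, hA2, hA3⟩ := ih (S0 ∪ S1)
    obtain ⟨B, hB1, hB2, hB3⟩ := ih (S0 ∩ S1)
    have hUI : (S0 ∪ S1).card + (S0 ∩ S1).card = S.card := by
      rw [Finset.card_union_add_card_inter, hcard]
    -- the two embeddings of sets
    let f : Finset (Fin n) → Finset (Fin (n+1)) := fun T => T.map (Fin.succEmb n)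
    let g : Finset (Fin n) → Finset (Fin (n+1)) := fun T => insert 0 (T.map (Fin.succEmb n))
    have h0f : ∀ T, (0 : Fin (n+1)) ∉ f T := by
      intro T h
      simp only [f, Finset.mem_map, Fin.coe_succEmb] at h
      obtain ⟨a, _, ha⟩ := h
      exact Fin.succ_ne_zero a ha
    have hfinj : Function.Injective f := fun a b h => Finset.map_injective _ h
    have hginj : Function.Injective g := by
      intro a b h
      apply hfinj
      have h1 : (g a).erase 0 = f a := by
        simp only [g]
        exact Finset.erase_insert (h0f a)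
      have h2 : (g b).erase 0 = f b := by
        simp only [g]
        exact Finset.erase_insert (h0f b)
      rw [← h1, ← h2, h]
    have hdisj : Disjoint (A.image f) (B.image g) := by
      rw [Finset.disjoint_left]
      intro T h1 h2
      obtain ⟨a, _, rfl⟩ := Finset.mem_image.mp h1
      obtain ⟨b, _, hb⟩ := Finset.mem_image.mp h2
      apply h0f a
      rw [← hb]
      simp [g]
    have hfcard : ∀ T, (f T).card = T.card := fun T => Finset.card_map _
    have hgcard : ∀ T, (g T).card = T.card + 1 := fun T => by
      simp only [g]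
      rw [Finset.card_insert_of_notMem (h0f T), Finset.card_map]
    refine ⟨A.image f ∪ B.image g, ?_, ?_, ?_⟩
    · rw [Finset.card_union_of_disjoint hdisj, Finset.card_image_of_injective _ hfinj,
        Finset.card_image_of_injective _ hginj, hA1, hB1, hUI]
    · rw [Finset.sum_union hdisj, Finset.sum_image (fun a _ b _ h => hfinj h),
        Finset.sum_image (fun a _ b _ h => hginj h)]
      simp only [hfcard, hgcard]
      rw [Finset.sum_add_distrib, Finset.sum_const, smul_eq_mul, mul_one, hB1]
      have hle : (S0 ∩ S1).card ≤ (S0 ∪ S1).card :=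
        Finset.card_le_card (fun x hx => Finset.mem_union_left _ (Finset.mem_inter.mp hx).1)
      have h3 : (n + 1) * S.card = n * (S0 ∪ S1).card + n * (S0 ∩ S1).card + ((S0 ∪ S1).card + (S0 ∩ S1).card) := by
        rw [← hUI]; ring
      rw [h3]
      linarith
    · intro c hc
      have key : ∀ (b : Bool) (y : Fin n → Bool), (Fin.cons b y : Fin (n+1) → Bool) ∈ S →
          (∑ T ∈ A, c (f T) * mono F T y) + (if b = true then ∑ T ∈ B, c (g T) * mono F T y else 0) = 0 := by
        intro b y hy
        have h := hc _ hy
        rw [Finset.sum_union hdisj, Finset.sum_image (fun a _ b _ h => hfinj h),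
          Finset.sum_image (fun a _ b _ h => hginj h)] at h
        have e1 : ∀ T, mono F (f T) (Fin.cons b y : Fin (n+1) → Bool) = mono F T y := by
          intro T
          simp only [mono, f]
          congr 1
          simp
        have e2 : ∀ T, mono F (g T) (Fin.cons b y : Fin (n+1) → Bool) = if b = true then mono F T y else 0 := by
          intro T
          simp only [mono, g]
          by_cases hb : b = true
          · subst hb
            simp
          · have : b = false := by simpa using hb
            subst this
            simp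
        simp only [e1, e2] at h
        by_cases hb : b = true
        · simpa [hb] using h
        · simpa [hb] using h
      have hB0 : ∀ T ∈ B, c (g T) = 0 := by
        apply hB3 (fun T => c (g T))
        intro y hy
        have hy0 : (Fin.cons false y : Fin (n+1) → Bool) ∈ S := (Finset.mem_filter.mp (Finset.mem_inter.mp hy).1).2
        have hy1 : (Fin.cons true y : Fin (n+1) → Bool) ∈ S := (Finset.mem_filter.mp (Finset.mem_inter.mp hy).2).2
        have k0 := key false y hy0
        have k1 := key true y hy1
        simp only [Bool.false_eq_true, if_false, add_zero] at k0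
        simp only [if_true] at k1
        rw [k0, zero_add] at k1
        exact k1
      have hA0 : ∀ T ∈ A, c (f T) = 0 := by
        apply hA3 (fun T => c (f T))
        intro y hy
        rcases Finset.mem_union.mp hy with h | h
        · have k0 := key false y (Finset.mem_filter.mp h).2
          simpa using k0
        · have k1 := key true y (Finset.mem_filter.mp h).2
          simp only [if_true] at k1
          have : ∑ T ∈ B, c (g T) * mono F T y = 0 := by
            apply Finset.sum_eq_zero
            intro T hT
            rw [hB0 T hT, zero_mul]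
          rw [this, add_zero] at k1
          exact k1
      intro T hT
      rcases Finset.mem_union.mp hT with h | h
      · obtain ⟨a, ha, rfl⟩ := Finset.mem_image.mp h
        exact hA0 a ha
      · obtain ⟨a, ha, rfl⟩ := Finset.mem_image.mp h
        exact hB0 a ha

/-- Rank lemma over an arbitrary finite set of coordinates. -/
lemma rank_lemma (F : Type) [Field F] {ι : Type} [Fintype ι] [DecidableEq ι] (S : Finset (ι → Bool)) :
    ∃ A : Finset (Finset ι), A.card = S.card ∧ 2 * ∑ T ∈ A, T.card ≤ Fintype.card ι * S.card ∧
      ∀ c : Finset ι → F, (∀ x ∈ S, ∑ T ∈ A, c T * mono F T x = 0) → ∀ T ∈ A, c T = 0 := by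
  classical
  let e := Fintype.equivFin ι
  let E : (ι → Bool) ≃ (Fin (Fintype.card ι) → Bool) := Equiv.arrowCongr e (Equiv.refl Bool)
  obtain ⟨A, h1, h2, h3⟩ := rank_fin F (Fintype.card ι) (S.map E.toEmbedding)
  rw [Finset.card_map] at h1 h2
  let φ : Finset (Fin (Fintype.card ι)) ↪ Finset ι :=
    ⟨fun T => T.map e.symm.toEmbedding, fun a b h => Finset.map_injective _ h⟩
  refine ⟨A.map φ, ?_, ?_, ?_⟩
  · rw [Finset.card_map, h1]
  · rw [Finset.sum_map]
    have hφ : ∀ T, (φ T).card = T.card := fun T => Finset.card_map _
    simp only [hφ]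
    exact h2
  · intro c hc T hT
    obtain ⟨T', hT', rfl⟩ := Finset.mem_map.mp hT
    apply h3 (fun T => c (φ T)) _ T' hT'
    intro y hy
    obtain ⟨x, hx, rfl⟩ := Finset.mem_map.mp hy
    have := hc x hx
    rw [Finset.sum_map] at this
    rw [← this]
    apply Finset.sum_congr rfl
    intro T _
    congr 1
    have hiff : (∀ i ∈ T, (E.toEmbedding x) i = true) ↔ ∀ i ∈ φ T, x i = true := by
      constructor
      · intro h i hi
        obtain ⟨j, hj, rfl⟩ := Finset.mem_map.mp hi
        exact h j hj
      · intro h i hi
        exact h _ (Finset.mem_map.mpr ⟨i, hi, rfl⟩)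
    simp only [mono]
    by_cases hh : ∀ i ∈ φ T, x i = true
    · rw [if_pos hh, if_pos (hiff.mpr hh)]
    · rw [if_neg hh, if_neg (fun h => hh (hiff.mp h))]

/-- Robust vanishing lemma. If `q` has degree at most `D`, every point of the cube outside `Z`
has weight at least `κ`, and `2κ > card ι + 2 D`, then `q` cannot be nonzero
somewhere while being nonzero on few points of `Z`. -/
lemma robust {F : Type} [Field F] {ι : Type} [Fintype ι] [DecidableEq ι] {D κ : ℕ}
    (Z : Finset (ι → Bool)) (hZ : ∀ x, x ∉ Z → κ ≤ wt x) (q : (ι → Bool) → F) (hq : q ∈ LD F ι D)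
    (hκ : Fintype.card ι + 2 * D < 2 * κ) (S : Finset (ι → Bool)) (hS : ∀ x, x ∈ S ↔ q x ≠ 0) :
    S.card ≤ (Fintype.card ι + 1) * (S ∩ Z).card := by
  classical
  by_contra hcon
  rw [not_le] at hcon
  obtain ⟨A, hA1, hA2, hA3⟩ := rank_lemma F S
  set N := Fintype.card ι with hN
  set D1 := κ - D - 1 with hD1
  have hD1' : D1 + 1 = κ - D := by omega
  set K := A.filter fun T => T.card ≤ D1 with hK
  -- many monomials of degree at most D1
  have hmark : (D1 + 1) * (A.card - K.card) ≤ ∑ T ∈ A, T.card := by
    have h1 : A.card - K.card = (A.filter fun T => ¬ T.card ≤ D1).card := by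
      have h0 := Finset.card_filter_add_card_filter_not (s := A) (fun T : Finset ι => T.card ≤ D1)
      have h00 : K.card + (A.filter fun T => ¬ T.card ≤ D1).card = A.card := h0
      exact (Nat.eq_sub_of_add_eq' h00).symm
    rw [h1]
    calc (D1 + 1) * (A.filter fun T => ¬ T.card ≤ D1).card
        = ∑ T ∈ A.filter (fun T => ¬ T.card ≤ D1), (D1 + 1) := by
          rw [Finset.sum_const, smul_eq_mul, mul_comm]
      _ ≤ ∑ T ∈ A.filter (fun T => ¬ T.card ≤ D1), T.card := by
          apply Finset.sum_le_sum
          intro T hT
          have := (Finset.mem_filter.mp hT).2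
          omega
      _ ≤ ∑ T ∈ A, T.card := Finset.sum_le_sum_of_subset (Finset.filter_subset _ _)
  have hKle : K.card ≤ A.card := Finset.card_filter_le _ _
  have hScard : S.card ≤ (N + 1) * K.card := by
    have h2 : (N + 1) * (A.card - K.card) ≤ N * S.card := by
      calc (N + 1) * (A.card - K.card) ≤ (2 * (D1 + 1)) * (A.card - K.card) := by
            apply Nat.mul_le_mul_right
            omega
        _ = 2 * ((D1 + 1) * (A.card - K.card)) := by ring
        _ ≤ 2 * ∑ T ∈ A, T.card := Nat.mul_le_mul_left _ hmark
        _ ≤ N * S.card := hA2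
    rw [hA1] at h2 hKle
    obtain ⟨e, he⟩ := Nat.exists_eq_add_of_le hKle
    rw [he] at h2 ⊢
    have h3 : K.card + e - K.card = e := by omega
    rw [h3] at h2
    nlinarith
  have hlt : (S ∩ Z).card < K.card := by
    by_contra h
    rw [not_lt] at h
    have : (N + 1) * K.card ≤ (N + 1) * (S ∩ Z).card := Nat.mul_le_mul_left _ h
    omega
  -- a combination of the low-degree monomials vanishing on `S ∩ Z`
  let L : (K → F) →ₗ[F] ((S ∩ Z : Finset (ι → Bool)) → F) :=
    { toFun := fun c b => ∑ T : K, c T * mono F T.1 b.1
      map_add' := by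
        intro c d; funext b
        simp only [Pi.add_apply, add_mul, Finset.sum_add_distrib]
      map_smul' := by
        intro a c; funext b
        simp only [Pi.smul_apply, smul_eq_mul, RingHom.id_apply, Finset.mul_sum, mul_assoc] }
  have hker : LinearMap.ker L ≠ ⊥ := by
    apply LinearMap.ker_ne_bot_of_finrank_lt
    rw [Module.finrank_fintype_fun_eq_card, Module.finrank_fintype_fun_eq_card,
      Fintype.card_coe, Fintype.card_coe]
    exact hlt
  obtain ⟨c, hcker, hc0⟩ := (Submodule.ne_bot_iff _).mp hker
  let c' : Finset ι → F := fun T => if h : T ∈ K then c ⟨T, h⟩ else 0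
  let r : (ι → Bool) → F := fun x => ∑ T ∈ K, c' T * mono F T x
  have hrsum : ∀ x, r x = ∑ T : K, c T * mono F T.1 x := by
    intro x
    simp only [r]
    rw [← Finset.sum_coe_sort K (fun T => c' T * mono F T x)]
    apply Finset.sum_congr rfl
    intro T _
    simp [c']
  have hrA : ∀ x, r x = ∑ T ∈ A, c' T * mono F T x := by
    intro x
    simp only [r]
    apply Finset.sum_subset (Finset.filter_subset _ _)
    intro T _ hT
    simp only [c']
    rw [dif_neg hT, zero_mul]
  have hrvan : ∀ x ∈ S ∩ Z, r x = 0 := by
    intro x hx
    rw [hrsum]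
    have := congrFun (LinearMap.mem_ker.mp hcker) ⟨x, hx⟩
    simpa [L] using this
  have hrS : ∃ x ∈ S, r x ≠ 0 := by
    by_contra hno
    push Not at hno
    have h4 := hA3 c' (fun x hx => by rw [← hrA]; exact hno x hx)
    apply hc0
    funext T
    have h5 := h4 T.1 (Finset.mem_filter.mp T.2).1
    simpa [c'] using h5
  obtain ⟨x0, hx0S, hx0⟩ := hrS
  have hrLD : r ∈ LD F ι D1 := by
    have : r = ∑ T ∈ K, c' T • mono F T := by
      funext x
      simp [r, Finset.sum_apply]
    rw [this]
    apply Submodule.sum_mem
    intro T hT
    exact Submodule.smul_mem _ _ (mono_mem_LD (Finset.mem_filter.mp hT).2)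
  have hprod : q * r ∈ LD F ι (D + D1) := mul_mem_LD hq hrLD
  have hprod0 : q * r ≠ 0 := by
    intro h
    have := congrFun h x0
    simp only [Pi.mul_apply, Pi.zero_apply, mul_eq_zero] at this
    rcases this with h | h
    · exact ((hS x0).mp hx0S) h
    · exact hx0 h
  obtain ⟨y, hy, hwt⟩ := exists_low_point hprod hprod0
  have hyZ : y ∉ Z := by
    intro hyZ
    apply hy
    rw [Pi.mul_apply]
    by_cases hqy : q y = 0
    · rw [hqy, zero_mul]
    · rw [hrvan y (Finset.mem_inter.mpr ⟨(hS y).mpr hqy, hyZ⟩), mul_zero]
  have := hZ y hyZ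
  omega

end Pool.Agent.Lib20
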