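import Pool.Agent.Lib_helper20.AC0Defs
import Pool.Agent.Lib_helper20.FormDefs

/-!
Every nondeterministic circuit is equivalent to a depth-three formula verifier in which
every witness bit is read at most twice.
-/

namespace Pool.Agent.Lib20

open Finset

/-- Circuits with two-input NAND gates: the list of the gates, newest gate first. In `g :: C`
the source `Src.gate k` of an input of `g` is the gate at position `k` of `C`. -/
abbrev NandCircuit (ι : Type) := List (Src ι × Src ι)

/-- Values of all gates. -/
def NandCircuit.vals {ι : Type} (x : ι → Bool) : NandCircuit ι → List Bool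
  | [] => []
  | g :: C => (!(g.1.val x (NandCircuit.vals x C) && g.2.val x (NandCircuit.vals x C))) ::
      NandCircuit.vals x C

/-- Output of a circuit: the value of its newest gate. -/
def NandCircuit.eval {ι : Type} (C : NandCircuit ι) (x : ι → Bool) : Bool :=
  (NandCircuit.vals x C).headD false

/-- Literals: constants, input literals, variable literals. -/
abbrev Lit (ι V : Type) := (Bool ⊕ (ι × Bool)) ⊕ (V × Bool)

def litVal {ι V : Type} (x : ι → Bool) (z : V → Bool) : Lit ι V → Bool
  | .inl (.inl b) => b
  | .inl (.inr (i, b)) => x i == b
  | .inr (v, b) => z v == b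

/-- Leaf attached to an occurrence `o` of a literal. -/
def leafOf {ι V κ : Type} (o : κ) : Lit ι V → Form ι κ
  | .inl (.inl b) => Form.const b
  | .inl (.inr (i, b)) => if b = true then Form.inp i else Form.neg (Form.inp i)
  | .inr _ => Form.wit o

lemma leafOf_reads {ι V κ : Type} [DecidableEq κ] (o k : κ) (l : Lit ι V) :
    Form.reads k (leafOf o l) ≤ if o = k then 1 else 0 := by
  rcases l with (b | ⟨i, b⟩) | v
  · simp [leafOf, Form.reads]
  · cases b <;> simp [leafOf, Form.reads]
  · simp [leafOf, Form.reads]

lemma leafOf_size {ι V κ : Type} (o : κ) (l : Lit ι V) : Form.size (leafOf o l) = 1 := by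
  rcases l with (b | ⟨i, b⟩) | v
  · simp [leafOf, Form.size]
  · cases b <;> simp [leafOf, Form.size]
  · simp [leafOf, Form.size]

lemma leafOf_depth {ι V κ : Type} (o : κ) (l : Lit ι V) : Form.depth (leafOf o l) = 0 := by
  rcases l with (b | ⟨i, b⟩) | v
  · simp [leafOf, Form.depth]
  · cases b <;> simp [leafOf, Form.depth]
  · simp [leafOf, Form.depth]

/-- Conversion of a CNF with three literals per clause. -/
lemma read_twice {ι V : Type} (M W : ℕ) (cl : Fin M → Fin 3 → Lit ι V) (e : Fin W ≃ V) :
    ∃ φ : Form ι (Fin (M * 3)), (∀ k, Form.reads k φ ≤ 2) ∧ Form.depth φ ≤ 3 ∧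
      Form.size φ ≤ 1 + M * 4 + W * (6 * M + 3) ∧
      ∀ (p : ℕ) (x : ι → Bool), (∃ z : V → Bool, ∀ c, ∃ s, litVal x z (cl c s) = true) ↔
        ∃ y, Form.eval p x y φ = true := by
  classical
  let lit : Fin (M * 3) → Lit ι V := fun o => cl (finProdFinEquiv.symm o).1 (finProdFinEquiv.symm o).2
  let A : V → Bool → Form ι (Fin (M * 3)) := fun v b =>
    Form.and (M * 3) fun o => if lit o = .inr (v, b) then Form.neg (Form.wit o) else Form.const true
  let Cl : Fin M → Form ι (Fin (M * 3)) := fun c => Form.or 3 fun s => leafOf (finProdFinEquiv (c, s)) (cl c s)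
  let Co : Fin W → Form ι (Fin (M * 3)) := fun v => Form.or 2 ![A (e v) true, A (e v) false]
  have hA : ∀ v b k, Form.reads k (A v b) ≤ if lit k = .inr (v, b) then 1 else 0 := by
    intro v b k
    simp only [A, Form.reads]
    calc ∑ o, Form.reads k (if lit o = .inr (v, b) then Form.neg (Form.wit o) else Form.const true : Form ι (Fin (M * 3)))
        = ∑ o, if o = k then (if lit k = .inr (v, b) then 1 else 0) else 0 := by
          apply Finset.sum_congr rfl
          intro o _
          by_cases hok : o = k
          · subst hok
            by_cases h : lit o = .inr (v, b)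
            · simp [h, Form.reads]
            · simp [h, Form.reads]
          · by_cases h : lit o = .inr (v, b)
            · simp [h, Form.reads, hok]
            · simp [h, Form.reads, hok]
      _ = _ := by simp
      _ ≤ _ := le_rfl
  have hAsize : ∀ v b, Form.size (A v b) = 1 + M * 3 := by
    intro v b
    simp only [A, Form.size]
    congr 1
    calc ∑ o, Form.size (if lit o = .inr (v, b) then Form.neg (Form.wit o) else Form.const true : Form ι (Fin (M * 3)))
        = ∑ _o : Fin (M * 3), 1 := by
          apply Finset.sum_congr rfl
          intro o _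
          split_ifs <;> simp [Form.size]
      _ = _ := by simp
  have hAdepth : ∀ v b, Form.depth (A v b) ≤ 1 := by
    intro v b
    simp only [A, Form.depth]
    have : (Finset.univ.sup fun o => Form.depth (if lit o = .inr (v, b) then Form.neg (Form.wit o) else Form.const true : Form ι (Fin (M * 3)))) ≤ 0 := by
      apply Finset.sup_le
      intro o _
      split_ifs <;> simp [Form.depth]
    omega
  refine ⟨Form.and (M + W) (Fin.addCases Cl Co), ?_, ?_, ?_, ?_⟩
  · intro k
    simp only [Form.reads]
    rw [Fin.sum_univ_add]
    simp only [Fin.addCases_left, Fin.addCases_right]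
    have h1 : ∑ c, Form.reads k (Cl c) ≤ 1 := by
      calc ∑ c, Form.reads k (Cl c) ≤ ∑ c, ∑ s, if finProdFinEquiv (c, s) = k then 1 else 0 := by
            apply Finset.sum_le_sum
            intro c _
            simp only [Cl, Form.reads]
            exact Finset.sum_le_sum fun s _ => leafOf_reads _ _ _
        _ = ∑ cs : Fin M × Fin 3, if finProdFinEquiv cs = k then 1 else 0 := by
            rw [Fintype.sum_prod_type]
        _ = ∑ o : Fin (M * 3), if o = k then 1 else 0 :=
            Equiv.sum_comp finProdFinEquiv (fun o => if o = k then 1 else 0)
        _ ≤ 1 := by simp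
    have h2 : ∑ v, Form.reads k (Co v) ≤ 1 := by
      calc ∑ v, Form.reads k (Co v) ≤ ∑ v, ((if lit k = .inr (e v, true) then 1 else 0) +
            (if lit k = .inr (e v, false) then 1 else 0)) := by
            apply Finset.sum_le_sum
            intro v _
            simp only [Co, Form.reads, Fin.sum_univ_two, Matrix.cons_val_zero, Matrix.cons_val_one]
            exact Nat.add_le_add (hA _ _ _) (hA _ _ _)
        _ ≤ 1 := by
            rcases hl : lit k with l | ⟨v0, b0⟩
            · simp
            · have : ∀ v, ((if (Sum.inr (v0, b0) : Lit ι V) = .inr (e v, true) then 1 else 0) +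
                  (if (Sum.inr (v0, b0) : Lit ι V) = .inr (e v, false) then 1 else 0)) ≤
                  if v = e.symm v0 then 1 else 0 := by
                intro v
                by_cases hv : v = e.symm v0
                · subst hv
                  cases b0 <;> simp
                · have hv' : v0 ≠ e v := by
                    intro h; apply hv; rw [h]; simp
                  simp [hv', hv]
              calc _ ≤ ∑ v, if v = e.symm v0 then 1 else 0 := Finset.sum_le_sum fun v _ => this v
                _ ≤ 1 := by simp
    omega
  · simp only [Form.depth]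
    have : (Finset.univ.sup fun i => Form.depth (Fin.addCases (motive := fun _ => Form ι (Fin (M * 3))) Cl Co i)) ≤ 2 := by
      apply Finset.sup_le
      intro i _
      refine Fin.addCases (fun c => ?_) (fun v => ?_) i
      · rw [Fin.addCases_left]
        simp only [Cl, Form.depth]
        have : (Finset.univ.sup fun s => Form.depth (leafOf (finProdFinEquiv (c, s)) (cl c s))) ≤ 0 := by
          apply Finset.sup_le
          intro s _
          rw [leafOf_depth]
        omega
      · rw [Fin.addCases_right]
        simp only [Co, Form.depth]
        refine Nat.add_le_add_left (Finset.sup_le (a := 1) ?_) 1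
        intro s _
        fin_cases s
        · exact hAdepth _ _
        · exact hAdepth _ _
    omega
  · simp only [Form.size]
    rw [Fin.sum_univ_add]
    simp only [Fin.addCases_left, Fin.addCases_right]
    have h1 : ∑ c, Form.size (Cl c) = M * 4 := by
      have : ∀ c, Form.size (Cl c) = 4 := by
        intro c
        simp [Cl, Form.size, leafOf_size]
      simp [this]
    have h2 : ∑ v, Form.size (Co v) = W * (6 * M + 3) := by
      have : ∀ v, Form.size (Co v) = 6 * M + 3 := by
        intro v
        simp only [Co, Form.size, Fin.sum_univ_two, Matrix.cons_val_zero, Matrix.cons_val_one, hAsize]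
        ring
      simp [this]
    rw [h1, h2]
    omega
  · intro p x
    have hev : ∀ y, Form.eval p x y (Form.and (M + W) (Fin.addCases Cl Co)) = true ↔
        (∀ c, ∃ s, Form.eval p x y (leafOf (finProdFinEquiv (c, s)) (cl c s)) = true) ∧
        ∀ v, ∃ b, ∀ o, lit o = .inr (v, b) → y o = false := by
      intro y
      have hAe : ∀ v b, Form.eval p x y (A v b) = true ↔ ∀ o, lit o = .inr (v, b) → y o = false := by
        intro v b
        simp only [A, Form.eval, decide_eq_true_eq]
        apply forall_congr'
        intro o
        by_cases h : lit o = .inr (v, b)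
        · simp [h, Form.eval]
        · simp [h, Form.eval]
      simp only [Form.eval, decide_eq_true_eq]
      constructor
      · intro h
        constructor
        · intro c
          have h2 := h (Fin.castAdd W c)
          rw [Fin.addCases_left] at h2
          simpa only [Cl, Form.eval, decide_eq_true_eq] using h2
        · intro v
          have h2 := h (Fin.natAdd M (e.symm v))
          rw [Fin.addCases_right] at h2
          simp only [Co, Form.eval, decide_eq_true_eq, Equiv.apply_symm_apply] at h2
          obtain ⟨s, hs⟩ := h2
          fin_cases s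
          · exact ⟨true, (hAe v true).mp hs⟩
          · exact ⟨false, (hAe v false).mp hs⟩
      · rintro ⟨h1, h2⟩ i
        refine Fin.addCases (fun c => ?_) (fun v => ?_) i
        · rw [Fin.addCases_left]
          simpa only [Cl, Form.eval, decide_eq_true_eq] using h1 c
        · rw [Fin.addCases_right]
          simp only [Co, Form.eval, decide_eq_true_eq]
          obtain ⟨b, hb⟩ := h2 (e v)
          cases b
          · exact ⟨1, (hAe (e v) false).mpr hb⟩
          · exact ⟨0, (hAe (e v) true).mpr hb⟩
    simp only [hev]
    constructor
    · rintro ⟨z, hz⟩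
      refine ⟨fun o => litVal x z (lit o), ?_, ?_⟩
      · intro c
        obtain ⟨s, hs⟩ := hz c
        refine ⟨s, ?_⟩
        have hlit : lit (finProdFinEquiv (c, s)) = cl c s := by
          simp only [lit, Equiv.symm_apply_apply]
        rcases hcl : cl c s with (b | ⟨i, b⟩) | v
        · rw [hcl] at hs
          simpa [leafOf, Form.eval, litVal] using hs
        · rw [hcl] at hs
          simp only [litVal, beq_iff_eq] at hs
          cases b
          · simp [leafOf, Form.eval, hs]
          · simp [leafOf, Form.eval, hs]
        · simp only [leafOf, Form.eval, hlit]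
          exact hs
      · intro v
        refine ⟨!(z v), ?_⟩
        intro o ho
        show litVal x z (lit o) = false
        rw [ho]
        simp [litVal]
    · rintro ⟨y, hy1, hy2⟩
      choose b hb using hy2
      refine ⟨fun v => !(b v), ?_⟩
      intro c
      obtain ⟨s, hs⟩ := hy1 c
      refine ⟨s, ?_⟩
      have hlit : lit (finProdFinEquiv (c, s)) = cl c s := by
        simp only [lit, Equiv.symm_apply_apply]
      rcases hcl : cl c s with (b' | ⟨i, b'⟩) | ⟨v, b'⟩
      · rw [hcl] at hs
        simpa [leafOf, Form.eval, litVal] using hs
      · rw [hcl] at hs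
        cases b'
        · simpa [leafOf, Form.eval, litVal] using hs
        · simpa [leafOf, Form.eval, litVal] using hs
      · rw [hcl] at hs hlit
        simp only [leafOf, Form.eval] at hs
        simp only [litVal, beq_iff_eq]
        by_contra hne
        have hbb : b v = b' := by
          cases h1 : b v <;> cases h2 : b' <;> simp_all
        have := hb v (finProdFinEquiv (c, s)) (by rw [hlit, hbb])
        rw [this] at hs
        exact Bool.noConfusion hs

/-- Every nondeterministic NAND circuit with `q` witness bits has an equivalent formula verifier of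
depth at most three and quadratic size in which every witness bit is read at most twice. -/
lemma nand_read_twice {ι : Type} (q : ℕ) (C : NandCircuit (ι ⊕ Fin q)) :
    ∃ (r : ℕ) (φ : Form ι (Fin r)), (∀ k, Form.reads k φ ≤ 2) ∧ Form.depth φ ≤ 3 ∧
      Form.size φ ≤ 30 * (List.length C + q + 1) ^ 2 ∧
      ∀ (p : ℕ) (x : ι → Bool), (∃ y : Fin q → Bool, NandCircuit.eval C (Sum.elim x y) = true) ↔
        ∃ y, Form.eval p x y φ = true := by
  classical
  obtain ⟨N, hN⟩ : ∃ N, N = List.length C := ⟨_, rfl⟩
  -- the gate with index `k`, counted from the oldest one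
  let G : ℕ → Src (ι ⊕ Fin q) × Src (ι ⊕ Fin q) := fun k => C.getD (N - (k + 1)) (.const false, .const false)
  let vs : (ℕ → Bool) → ℕ → List Bool := fun zz k => ((List.range k).map zz).reverse
  have hvs0 : ∀ zz, vs zz 0 = [] := fun zz => rfl
  have hvs1 : ∀ zz k, vs zz (k + 1) = zz k :: vs zz k := by
    intro zz k
    simp only [vs]
    rw [List.range_succ, List.map_append, List.reverse_append]
    rfl
  have hvsget : ∀ zz k j, (vs zz k).getD j false = if j < k then zz (k - 1 - j) else false := by
    intro zz k
    induction k with
    | zero => intro j; simp [vs]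
    | succ k ih =>
      intro j
      rw [hvs1]
      cases j with
      | zero => simp
      | succ j =>
        rw [List.getD_cons_succ, ih j]
        by_cases hj : j < k
        · rw [if_pos hj, if_pos (by omega)]
          congr 1
          omega
        · rw [if_neg hj, if_neg (by omega)]
  -- the values of the gates
  have hA : ∀ (X : ι ⊕ Fin q → Bool) (zz : ℕ → Bool),
      (∀ k < N, zz k = !((G k).1.val X (vs zz k) && (G k).2.val X (vs zz k))) →
      ∀ k ≤ N, NandCircuit.vals X (C.drop (N - k)) = vs zz k := by
    intro X zz h k
    induction k with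
    | zero =>
      intro _
      rw [Nat.sub_zero, hN, List.drop_length]
      rfl
    | succ k ih =>
      intro hk
      have hlt : N - (k + 1) < C.length := by omega
      rw [List.drop_eq_getElem_cons hlt, show N - (k + 1) + 1 = N - k by omega]
      simp only [NandCircuit.vals]
      rw [ih (by omega), hvs1, h k (by omega)]
      simp only [G, List.getD_eq_getElem?_getD, List.getElem?_eq_getElem hlt, Option.getD_some]
  have hB : ∀ (X : ι ⊕ Fin q → Bool), ∃ zz : ℕ → Bool,
      ∀ k < N, zz k = !((G k).1.val X (vs zz k) && (G k).2.val X (vs zz k)) := by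
    intro X
    let zz : ℕ → Bool := fun k => (NandCircuit.vals X (C.drop (N - (k + 1)))).headD false
    have h : ∀ k ≤ N, NandCircuit.vals X (C.drop (N - k)) = vs zz k := by
      intro k
      induction k with
      | zero =>
        intro _
        rw [Nat.sub_zero, hN, List.drop_length]
        rfl
      | succ k ih =>
        intro hk
        have hlt : N - (k + 1) < C.length := by omega
        rw [hvs1]
        have e : NandCircuit.vals X (C.drop (N - (k + 1))) = zz k :: NandCircuit.vals X (C.drop (N - k)) := by
          simp only [zz]
          rw [List.drop_eq_getElem_cons hlt, show N - (k + 1) + 1 = N - k by omega]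
          rfl
        rw [e, ih (by omega)]
    refine ⟨zz, ?_⟩
    intro k hk
    have hlt : N - (k + 1) < C.length := by omega
    have e : zz k = !((G k).1.val X (NandCircuit.vals X (C.drop (N - k))) &&
        (G k).2.val X (NandCircuit.vals X (C.drop (N - k)))) := by
      simp only [zz, G, List.getD_eq_getElem?_getD, List.getElem?_eq_getElem hlt, Option.getD_some]
      rw [List.drop_eq_getElem_cons hlt, show N - (k + 1) + 1 = N - k by omega]
      rfl
    rw [e, h k (by omega)]
  -- literals
  let V := Fin (N + 1) ⊕ Fin q
  let L : ℕ → Src (ι ⊕ Fin q) → Bool → Lit ι V := fun k s b =>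
    match s with
    | .const c => .inl (.inl (c == b))
    | .input (.inl i) => .inl (.inr (i, b))
    | .input (.inr j) => .inr (.inr j, b)
    | .gate j => if j < k then .inr (.inl (Fin.ofNat (N + 1) (k - 1 - j)), b) else .inl (.inl (false == b))
  have hL : ∀ (x : ι → Bool) (z : V → Bool) (k : ℕ), k ≤ N → ∀ s b, litVal x z (L k s b) =
      (s.val (Sum.elim x (fun j => z (.inr j))) (vs (fun k => z (.inl (Fin.ofNat (N + 1) k))) k) == b) := by
    intro x z k hk s b
    cases s with
    | const c => rfl
    | input i =>
      cases i with
      | inl i => rfl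
      | inr j => rfl
    | gate j =>
      simp only [L, Src.val]
      rw [hvsget]
      split_ifs <;> rfl
  -- the clauses
  let K := (Fin N × Fin 3) ⊕ Unit
  let cl : K → Fin 3 → Lit ι V := fun c =>
    match c with
    | .inl (k, 0) => ![.inr (.inl (Fin.ofNat (N + 1) k), false), L k (G k).1 false, L k (G k).2 false]
    | .inl (k, 1) => ![.inr (.inl (Fin.ofNat (N + 1) k), true), L k (G k).1 true, L k (G k).1 true]
    | .inl (k, 2) => ![.inr (.inl (Fin.ofNat (N + 1) k), true), L k (G k).2 true, L k (G k).2 true]
    | .inr _ => fun _ => L N (.gate 0) true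
  have hcl : ∀ (x : ι → Bool) (z : V → Bool), (∀ c, ∃ s, litVal x z (cl c s) = true) ↔
      (∀ k < N, z (.inl (Fin.ofNat (N + 1) k)) = !((G k).1.val (Sum.elim x (fun j => z (.inr j)))
        (vs (fun k => z (.inl (Fin.ofNat (N + 1) k))) k) && (G k).2.val (Sum.elim x (fun j => z (.inr j)))
        (vs (fun k => z (.inl (Fin.ofNat (N + 1) k))) k))) ∧
      (vs (fun k => z (.inl (Fin.ofNat (N + 1) k))) N).getD 0 false = true := by
    intro x z
    have hout : litVal x z (L N (.gate 0) true) =
        (vs (fun k => z (.inl (Fin.ofNat (N + 1) k))) N).getD 0 false := by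
      exact (hL x z N le_rfl (.gate 0) true).trans (by simp [Src.val])
    constructor
    · intro h
      refine ⟨?_, ?_⟩
      · intro k hk
        obtain ⟨s0, h0⟩ := h (.inl (⟨k, hk⟩, 0))
        obtain ⟨s1, h1⟩ := h (.inl (⟨k, hk⟩, 1))
        obtain ⟨s2, h2⟩ := h (.inl (⟨k, hk⟩, 2))
        simp only [cl] at h0 h1 h2
        have e1 := fun b => hL x z k hk.le (G k).1 b
        have e2 := fun b => hL x z k hk.le (G k).2 b
        generalize (G k).1.val (Sum.elim x (fun j => z (.inr j))) (vs (fun k => z (.inl (Fin.ofNat (N + 1) k))) k) = a1 at *
        generalize (G k).2.val (Sum.elim x (fun j => z (.inr j))) (vs (fun k => z (.inl (Fin.ofNat (N + 1) k))) k) = a2 at *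
        have h0' : z (.inl (Fin.ofNat (N + 1) k)) = false ∨ a1 = false ∨ a2 = false := by
          fin_cases s0
          · left; simpa [litVal] using h0
          · right; left
            have := (e1 false).symm.trans h0
            simpa using this
          · right; right
            have := (e2 false).symm.trans h0
            simpa using this
        have h1' : z (.inl (Fin.ofNat (N + 1) k)) = true ∨ a1 = true := by
          fin_cases s1
          · left; simpa [litVal] using h1
          · right
            have := (e1 true).symm.trans h1
            simpa using this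
          · right
            have := (e1 true).symm.trans h1
            simpa using this
        have h2' : z (.inl (Fin.ofNat (N + 1) k)) = true ∨ a2 = true := by
          fin_cases s2
          · left; simpa [litVal] using h2
          · right
            have := (e2 true).symm.trans h2
            simpa using this
          · right
            have := (e2 true).symm.trans h2
            simpa using this
        generalize z (.inl (Fin.ofNat (N + 1) k)) = zk at *
        cases a1 <;> cases a2 <;> cases zk <;> simp_all
      · obtain ⟨s, hs⟩ := h (.inr ())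
        rw [← hout]
        exact hs
    · rintro ⟨h1, h2⟩ c
      rcases c with ⟨k, j⟩ | u
      · have hk := h1 k.val k.isLt
        have e1 := fun b => hL x z k.val k.isLt.le (G k).1 b
        have e2 := fun b => hL x z k.val k.isLt.le (G k).2 b
        generalize (G k).1.val (Sum.elim x (fun j => z (.inr j))) (vs (fun k => z (.inl (Fin.ofNat (N + 1) k))) k) = a1 at *
        generalize (G k).2.val (Sum.elim x (fun j => z (.inr j))) (vs (fun k => z (.inl (Fin.ofNat (N + 1) k))) k) = a2 at *
        fin_cases j
        · cases a1
          · exact ⟨1, by simpa [cl] using e1 false⟩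
          · cases a2
            · exact ⟨2, by simpa [cl] using e2 false⟩
            · exact ⟨0, by simpa [cl, litVal] using hk⟩
        · cases a1
          · exact ⟨0, by simpa [cl, litVal] using hk⟩
          · exact ⟨1, by simpa [cl] using e1 true⟩
        · cases a2
          · exact ⟨0, by simpa [cl, litVal] using hk⟩
          · exact ⟨1, by simpa [cl] using e2 true⟩
      · refine ⟨0, ?_⟩
        simp only [cl]
        rw [hout]
        exact h2
  -- conclusion
  have hKcard : Fintype.card K = 3 * N + 1 := by
    simp only [K, Fintype.card_sum, Fintype.card_prod, Fintype.card_fin, Fintype.card_unit]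
    ring
  have hVcard : Fintype.card V = N + 1 + q := by
    simp [V]
  let eK : Fin (3 * N + 1) ≃ K := (finCongr hKcard.symm).trans (Fintype.equivFin K).symm
  let eV : Fin (N + 1 + q) ≃ V := (finCongr hVcard.symm).trans (Fintype.equivFin V).symm
  obtain ⟨φ, hφ1, hφ2, hφ3, hφ4⟩ := read_twice (3 * N + 1) (N + 1 + q) (fun c => cl (eK c)) eV
  refine ⟨_, φ, hφ1, hφ2, ?_, ?_⟩
  · refine hφ3.trans ?_
    rw [← hN]
    nlinarith
  · intro p x
    rw [← hφ4 p x]
    have hiff : ∀ z : V → Bool, (∀ c, ∃ s, litVal x z (cl (eK c) s) = true) ↔
        ∀ c, ∃ s, litVal x z (cl c s) = true := by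
      intro z
      exact eK.forall_congr_left (p := fun c => ∃ s, litVal x z (cl (eK c) s) = true) |>.trans (by simp)
    simp only [hiff, hcl]
    constructor
    · rintro ⟨y, hy⟩
      obtain ⟨zz, hzz⟩ := hB (Sum.elim x y)
      have hvals := hA (Sum.elim x y) zz hzz N le_rfl
      rw [Nat.sub_self, List.drop_zero] at hvals
      let z : V → Bool := Sum.elim (fun k => zz k.val) y
      have hz : ∀ k ≤ N, vs (fun k => z (.inl (Fin.ofNat (N + 1) k))) k = vs zz k := by
        intro k hk
        simp only [vs]
        congr 1
        apply List.map_congr_left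
        intro a ha
        have : a < k := List.mem_range.mp ha
        simp only [z, Sum.elim_inl, Fin.val_ofNat]
        rw [Nat.mod_eq_of_lt (by omega)]
      refine ⟨z, ?_, ?_⟩
      · intro k hk
        rw [hz k hk.le]
        have : z (.inl (Fin.ofNat (N + 1) k)) = zz k := by
          simp only [z, Sum.elim_inl, Fin.val_ofNat]
          rw [Nat.mod_eq_of_lt (by omega)]
        rw [this]
        exact hzz k hk
      · rw [hz N le_rfl, ← hvals]
        rw [NandCircuit.eval] at hy
        cases hv : NandCircuit.vals (Sum.elim x y) C with
        | nil => rw [hv] at hy; simp at hy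
        | cons a l => rw [hv] at hy; simpa using hy
    · rintro ⟨z, hz1, hz2⟩
      refine ⟨fun j => z (.inr j), ?_⟩
      have hvals := hA (Sum.elim x (fun j => z (.inr j))) (fun k => z (.inl (Fin.ofNat (N + 1) k))) hz1 N le_rfl
      rw [Nat.sub_self, List.drop_zero] at hvals
      rw [NandCircuit.eval, hvals]
      cases hv : vs (fun k => z (.inl (Fin.ofNat (N + 1) k))) N with
      | nil => rw [hv] at hz2; simp at hz2
      | cons a l => rw [hv] at hz2; simpa using hz2

end Pool.Agent.Lib20
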