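import Pool.Agent.Lib_helper20.MajTwice

/-!
The number of accepting settings of the random bits of a circuit is the number of solutions of a
CNF with three literals per clause.
-/

namespace Pool.Agent.Lib20

open Finset

/-- Every NAND circuit with `q` random bits has a CNF with as many solutions as there are
accepting settings of the random bits. -/
lemma tseitin_count {ι : Type} (q : ℕ) (C : NandCircuit (ι ⊕ Fin q)) :
    ∃ (M n : ℕ) (cl : Fin M → Fin 3 → Lit ι (Fin n)), 1 ≤ M ∧ M ≤ 3 * List.length C + 2 ∧
      n = List.length C + 1 + q ∧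
      ∀ (x : ι → Bool), (solC cl x).card =
        (Finset.univ.filter fun y : Fin q → Bool => NandCircuit.eval C (Sum.elim x y) = true).card := by
  classical
  obtain ⟨N, hN⟩ : ∃ N, N = List.length C := ⟨_, rfl⟩
  -- the gate with index `k`, counted from the oldest one
  let G : ℕ → Src (ι ⊕ Fin q) × Src (ι ⊕ Fin q) := fun k => C.getD (N - (k + 1)) (.const false, .const false)
  let vs : (ℕ → Bool) → ℕ → List Bool := fun zz k => ((List.range k).map zz).reverse
  have hvs0 : ∀ zz, vs zz 0 = [] := fun zz => rfl
  have hvs1 : ∀ zz k, vs zz (k + 1) = zz k :: vs zz k := by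
    intro zz k
    simp only [vs]
    rw [List.range_succ, List.map_append, List.reverse_append]
    rfl
  have hvsget : ∀ zz k j, (vs zz k).getD j false = if j < k then zz (k - 1 - j) else false := by
    intro zz k
    induction k with
    | zero => intro j; simp [vs]
    | succ k ih =>
      intro j
      rw [hvs1]
      cases j with
      | zero => simp
      | succ j =>
        rw [List.getD_cons_succ, ih j]
        by_cases hj : j < k
        · rw [if_pos hj, if_pos (by omega)]
          congr 1
          omega
        · rw [if_neg hj, if_neg (by omega)]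
  -- the values of the gates
  have hA : ∀ (X : ι ⊕ Fin q → Bool) (zz : ℕ → Bool),
      (∀ k < N, zz k = !((G k).1.val X (vs zz k) && (G k).2.val X (vs zz k))) →
      ∀ k ≤ N, NandCircuit.vals X (C.drop (N - k)) = vs zz k := by
    intro X zz h k
    induction k with
    | zero =>
      intro _
      rw [Nat.sub_zero, hN, List.drop_length]
      rfl
    | succ k ih =>
      intro hk
      have hlt : N - (k + 1) < C.length := by omega
      rw [List.drop_eq_getElem_cons hlt, show N - (k + 1) + 1 = N - k by omega]
      simp only [NandCircuit.vals]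
      rw [ih (by omega), hvs1, h k (by omega)]
      simp only [G, List.getD_eq_getElem?_getD, List.getElem?_eq_getElem hlt, Option.getD_some]
  have hB : ∀ (X : ι ⊕ Fin q → Bool), ∃ zz : ℕ → Bool,
      ∀ k < N, zz k = !((G k).1.val X (vs zz k) && (G k).2.val X (vs zz k)) := by
    intro X
    let zz : ℕ → Bool := fun k => (NandCircuit.vals X (C.drop (N - (k + 1)))).headD false
    have h : ∀ k ≤ N, NandCircuit.vals X (C.drop (N - k)) = vs zz k := by
      intro k
      induction k with
      | zero =>
        intro _
        rw [Nat.sub_zero, hN, List.drop_length]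
        rfl
      | succ k ih =>
        intro hk
        have hlt : N - (k + 1) < C.length := by omega
        rw [hvs1]
        have e : NandCircuit.vals X (C.drop (N - (k + 1))) = zz k :: NandCircuit.vals X (C.drop (N - k)) := by
          simp only [zz]
          rw [List.drop_eq_getElem_cons hlt, show N - (k + 1) + 1 = N - k by omega]
          rfl
        rw [e, ih (by omega)]
    refine ⟨zz, ?_⟩
    intro k hk
    have hlt : N - (k + 1) < C.length := by omega
    have e : zz k = !((G k).1.val X (NandCircuit.vals X (C.drop (N - k))) &&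
        (G k).2.val X (NandCircuit.vals X (C.drop (N - k)))) := by
      simp only [zz, G, List.getD_eq_getElem?_getD, List.getElem?_eq_getElem hlt, Option.getD_some]
      rw [List.drop_eq_getElem_cons hlt, show N - (k + 1) + 1 = N - k by omega]
      rfl
    rw [e, h k (by omega)]
  have hU : ∀ (X : ι ⊕ Fin q → Bool) (zz zz' : ℕ → Bool),
      (∀ k < N, zz k = !((G k).1.val X (vs zz k) && (G k).2.val X (vs zz k))) →
      (∀ k < N, zz' k = !((G k).1.val X (vs zz' k) && (G k).2.val X (vs zz' k))) →
      ∀ k < N, zz k = zz' k := by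
    intro X zz zz' h h' k hk
    have e : vs zz (k + 1) = vs zz' (k + 1) := by
      rw [← hA X zz h (k + 1) (by omega), ← hA X zz' h' (k + 1) (by omega)]
    rw [hvs1, hvs1] at e
    exact (List.cons.inj e).1
  -- literals
  let V := Fin (N + 1) ⊕ Fin q
  let L : ℕ → Src (ι ⊕ Fin q) → Bool → Lit ι V := fun k s b =>
    match s with
    | .const c => .inl (.inl (c == b))
    | .input (.inl i) => .inl (.inr (i, b))
    | .input (.inr j) => .inr (.inr j, b)
    | .gate j => if j < k then .inr (.inl (Fin.ofNat (N + 1) (k - 1 - j)), b) else .inl (.inl (false == b))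
  have hL : ∀ (x : ι → Bool) (z : V → Bool) (k : ℕ), k ≤ N → ∀ s b, litVal x z (L k s b) =
      (s.val (Sum.elim x (fun j => z (.inr j))) (vs (fun k => z (.inl (Fin.ofNat (N + 1) k))) k) == b) := by
    intro x z k hk s b
    cases s with
    | const c => rfl
    | input i =>
      cases i with
      | inl i => rfl
      | inr j => rfl
    | gate j =>
      simp only [L, Src.val]
      rw [hvsget]
      split_ifs <;> rfl
  -- the clauses
  let K := (Fin N × Fin 3) ⊕ Bool
  let cl : K → Fin 3 → Lit ι V := fun c =>
    match c with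
    | .inl (k, 0) => ![.inr (.inl (Fin.ofNat (N + 1) k), false), L k (G k).1 false, L k (G k).2 false]
    | .inl (k, 1) => ![.inr (.inl (Fin.ofNat (N + 1) k), true), L k (G k).1 true, L k (G k).1 true]
    | .inl (k, 2) => ![.inr (.inl (Fin.ofNat (N + 1) k), true), L k (G k).2 true, L k (G k).2 true]
    | .inr true => fun _ => L N (.gate 0) true
    | .inr false => fun _ => .inr (.inl (Fin.ofNat (N + 1) N), false)
  have hcl : ∀ (x : ι → Bool) (z : V → Bool), (∀ c, ∃ s, litVal x z (cl c s) = true) ↔
      (∀ k < N, z (.inl (Fin.ofNat (N + 1) k)) = !((G k).1.val (Sum.elim x (fun j => z (.inr j)))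
        (vs (fun k => z (.inl (Fin.ofNat (N + 1) k))) k) && (G k).2.val (Sum.elim x (fun j => z (.inr j)))
        (vs (fun k => z (.inl (Fin.ofNat (N + 1) k))) k))) ∧
      (vs (fun k => z (.inl (Fin.ofNat (N + 1) k))) N).getD 0 false = true ∧
      z (.inl (Fin.ofNat (N + 1) N)) = false := by
    intro x z
    have hout : litVal x z (L N (.gate 0) true) =
        (vs (fun k => z (.inl (Fin.ofNat (N + 1) k))) N).getD 0 false := by
      exact (hL x z N le_rfl (.gate 0) true).trans (by simp [Src.val])
    constructor
    · intro h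
      refine ⟨?_, ?_, ?_⟩
      · intro k hk
        obtain ⟨s0, h0⟩ := h (.inl (⟨k, hk⟩, 0))
        obtain ⟨s1, h1⟩ := h (.inl (⟨k, hk⟩, 1))
        obtain ⟨s2, h2⟩ := h (.inl (⟨k, hk⟩, 2))
        simp only [cl] at h0 h1 h2
        have e1 := fun b => hL x z k hk.le (G k).1 b
        have e2 := fun b => hL x z k hk.le (G k).2 b
        generalize (G k).1.val (Sum.elim x (fun j => z (.inr j))) (vs (fun k => z (.inl (Fin.ofNat (N + 1) k))) k) = a1 at *
        generalize (G k).2.val (Sum.elim x (fun j => z (.inr j))) (vs (fun k => z (.inl (Fin.ofNat (N + 1) k))) k) = a2 at *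
        have h0' : z (.inl (Fin.ofNat (N + 1) k)) = false ∨ a1 = false ∨ a2 = false := by
          fin_cases s0
          · left; simpa [litVal] using h0
          · right; left
            have := (e1 false).symm.trans h0
            simpa using this
          · right; right
            have := (e2 false).symm.trans h0
            simpa using this
        have h1' : z (.inl (Fin.ofNat (N + 1) k)) = true ∨ a1 = true := by
          fin_cases s1
          · left; simpa [litVal] using h1
          · right
            have := (e1 true).symm.trans h1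
            simpa using this
          · right
            have := (e1 true).symm.trans h1
            simpa using this
        have h2' : z (.inl (Fin.ofNat (N + 1) k)) = true ∨ a2 = true := by
          fin_cases s2
          · left; simpa [litVal] using h2
          · right
            have := (e2 true).symm.trans h2
            simpa using this
          · right
            have := (e2 true).symm.trans h2
            simpa using this
        generalize z (.inl (Fin.ofNat (N + 1) k)) = zk at *
        cases a1 <;> cases a2 <;> cases zk <;> simp_all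
      · obtain ⟨s, hs⟩ := h (.inr true)
        rw [← hout]
        exact hs
      · obtain ⟨s, hs⟩ := h (.inr false)
        simpa [cl, litVal] using hs
    · rintro ⟨h1, h2, h3⟩ c
      rcases c with ⟨k, j⟩ | u
      · have hk := h1 k.val k.isLt
        have e1 := fun b => hL x z k.val k.isLt.le (G k).1 b
        have e2 := fun b => hL x z k.val k.isLt.le (G k).2 b
        generalize (G k).1.val (Sum.elim x (fun j => z (.inr j))) (vs (fun k => z (.inl (Fin.ofNat (N + 1) k))) k) = a1 at *
        generalize (G k).2.val (Sum.elim x (fun j => z (.inr j))) (vs (fun k => z (.inl (Fin.ofNat (N + 1) k))) k) = a2 at *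
        fin_cases j
        · cases a1
          · exact ⟨1, by simpa [cl] using e1 false⟩
          · cases a2
            · exact ⟨2, by simpa [cl] using e2 false⟩
            · exact ⟨0, by simpa [cl, litVal] using hk⟩
        · cases a1
          · exact ⟨0, by simpa [cl, litVal] using hk⟩
          · exact ⟨1, by simpa [cl] using e1 true⟩
        · cases a2
          · exact ⟨0, by simpa [cl, litVal] using hk⟩
          · exact ⟨1, by simpa [cl] using e2 true⟩
      · cases u
        · refine ⟨0, ?_⟩
          simpa [cl, litVal] using h3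
        · refine ⟨0, ?_⟩
          simp only [cl]
          rw [hout]
          exact h2
  -- renaming
  have hKcard : Fintype.card K = 3 * N + 2 := by
    simp only [K, Fintype.card_sum, Fintype.card_prod, Fintype.card_fin, Fintype.card_bool]
    ring
  have hVcard : Fintype.card V = N + 1 + q := by
    simp [V]
  let eK : Fin (3 * N + 2) ≃ K := (finCongr hKcard.symm).trans (Fintype.equivFin K).symm
  let eV : Fin (N + 1 + q) ≃ V := (finCongr hVcard.symm).trans (Fintype.equivFin V).symm
  let ren : Lit ι V → Lit ι (Fin (N + 1 + q)) := fun l =>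
    match l with
    | .inl l => .inl l
    | .inr (v, b) => .inr (eV.symm v, b)
  have hren : ∀ (x : ι → Bool) (z : Fin (N + 1 + q) → Bool) (l : Lit ι V),
      litVal x z (ren l) = litVal x (fun v => z (eV.symm v)) l := by
    intro x z l
    rcases l with (b | ⟨i, b⟩) | ⟨v, b⟩ <;> rfl
  refine ⟨3 * N + 2, N + 1 + q, fun c s => ren (cl (eK c) s), by omega, by omega, by omega, ?_⟩
  intro x
  have hsol : ∀ z : Fin (N + 1 + q) → Bool, z ∈ solC (fun c s => ren (cl (eK c) s)) x ↔
      ∀ c, ∃ s, litVal x (fun v => z (eV.symm v)) (cl c s) = true := by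
    intro z
    simp only [solC, Finset.mem_filter, Finset.mem_univ, true_and, hren]
    constructor
    · intro h c
      have := h (eK.symm c)
      rwa [Equiv.apply_symm_apply] at this
    · intro h c
      exact h _
  apply Finset.card_bij (fun z _ => fun j => z (eV.symm (.inr j)))
  · intro z hz
    rw [hsol, hcl] at hz
    obtain ⟨hz1, hz2, hz3⟩ := hz
    rw [Finset.mem_filter]
    refine ⟨Finset.mem_univ _, ?_⟩
    have hvals := hA (Sum.elim x (fun j => z (eV.symm (.inr j))))
      (fun k => z (eV.symm (.inl (Fin.ofNat (N + 1) k)))) hz1 N le_rfl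
    rw [Nat.sub_self, List.drop_zero] at hvals
    rw [NandCircuit.eval, hvals]
    cases hv : vs (fun k => z (eV.symm (.inl (Fin.ofNat (N + 1) k)))) N with
    | nil => rw [hv] at hz2; simp at hz2
    | cons a l => rw [hv] at hz2; simpa using hz2
  · intro z hz z' hz' hzz
    rw [hsol, hcl] at hz hz'
    obtain ⟨hz1, hz2, hz3⟩ := hz
    obtain ⟨hz1', hz2', hz3'⟩ := hz'
    have hq : ∀ j, z (eV.symm (.inr j)) = z' (eV.symm (.inr j)) := fun j => congrFun hzz j
    have hfun : (fun j => z (eV.symm (.inr j))) = (fun j => z' (eV.symm (.inr j))) := hzz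
    have hg : ∀ k < N, z (eV.symm (.inl (Fin.ofNat (N + 1) k))) =
        z' (eV.symm (.inl (Fin.ofNat (N + 1) k))) := by
      apply hU (Sum.elim x (fun j => z (eV.symm (.inr j))))
        (fun k => z (eV.symm (.inl (Fin.ofNat (N + 1) k))))
        (fun k => z' (eV.symm (.inl (Fin.ofNat (N + 1) k)))) hz1
      rw [hfun]
      exact hz1'
    funext i
    obtain ⟨v, rfl⟩ : ∃ v, i = eV.symm v := ⟨eV i, by simp⟩
    rcases v with k | j
    · by_cases hk : k.val < N
      · have := hg k.val hk
        have e : Fin.ofNat (N + 1) k.val = k := by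
          apply Fin.ext
          rw [Fin.val_ofNat]
          exact Nat.mod_eq_of_lt (by omega)
        rw [e] at this
        exact this
      · have e : Fin.ofNat (N + 1) N = k := by
          apply Fin.ext
          rw [Fin.val_ofNat, Nat.mod_eq_of_lt (by omega)]
          have := k.isLt
          omega
        rw [e] at hz3 hz3'
        rw [hz3, hz3']
    · exact hq j
  · intro y hy
    rw [Finset.mem_filter] at hy
    have hy2 := hy.2
    obtain ⟨zz, hzz⟩ := hB (Sum.elim x y)
    have hvals := hA (Sum.elim x y) zz hzz N le_rfl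
    rw [Nat.sub_self, List.drop_zero] at hvals
    let z : V → Bool := Sum.elim (fun k => if k.val < N then zz k.val else false) y
    have hz : ∀ k ≤ N, vs (fun k => z (.inl (Fin.ofNat (N + 1) k))) k = vs zz k := by
      intro k hk
      simp only [vs]
      congr 1
      apply List.map_congr_left
      intro a ha
      have : a < k := List.mem_range.mp ha
      simp only [z, Sum.elim_inl, Fin.val_ofNat]
      rw [Nat.mod_eq_of_lt (by omega), if_pos (by omega)]
    refine ⟨fun i => z (eV i), ?_, ?_⟩
    · rw [hsol]
      have e1 : (fun v => z (eV (eV.symm v))) = z := by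
        funext v
        rw [Equiv.apply_symm_apply]
      rw [e1, hcl]
      refine ⟨?_, ?_, ?_⟩
      · intro k hk
        rw [hz k hk.le]
        have : z (.inl (Fin.ofNat (N + 1) k)) = zz k := by
          simp only [z, Sum.elim_inl, Fin.val_ofNat]
          rw [Nat.mod_eq_of_lt (by omega), if_pos hk]
        rw [this]
        exact hzz k hk
      · rw [hz N le_rfl, ← hvals]
        rw [NandCircuit.eval] at hy2
        cases hv : NandCircuit.vals (Sum.elim x y) C with
        | nil => rw [hv] at hy2; simp at hy2
        | cons a l => rw [hv] at hy2; simpa using hy2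
      · simp only [z, Sum.elim_inl, Fin.val_ofNat]
        rw [Nat.mod_eq_of_lt (by omega), if_neg (by omega)]
    · funext j
      show z (eV (eV.symm (.inr j))) = y j
      rw [Equiv.apply_symm_apply]
      rfl

/-- Every NAND circuit with `q` random bits which accepts by majority vote has an equivalent
formula of depth at most four and cubic size in which every random bit is read at most twice. -/
lemma nand_maj_read_twice {ι : Type} (q : ℕ) (C : NandCircuit (ι ⊕ Fin q)) :
    ∃ (r : ℕ) (ψ : Form ι (Fin r)), (∀ k, Form.reads k ψ ≤ 2) ∧ Form.depth ψ ≤ 4 ∧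
      Form.size ψ ≤ 400 * (List.length C + q + 1) ^ 3 ∧
      ∀ (p : ℕ) (x : ι → Bool), Form.MajAcc p x ψ ↔
        2 ^ q < 2 * (Finset.univ.filter fun y : Fin q → Bool =>
          NandCircuit.eval C (Sum.elim x y) = true).card := by
  obtain ⟨M, n, cl, hM, hM2, hn, hcount⟩ := tseitin_count q C
  obtain ⟨A, hA⟩ : ∃ A, A = List.length C + q + 1 := ⟨_, rfl⟩
  have hA1 : 1 ≤ A := by omega
  have hMA : M ≤ 3 * A := by omega
  have hnA : n = A := by omega
  have hqA : q ≤ A := by omega
  obtain ⟨k, hk⟩ : ∃ k, k = 3 * A + 5 := ⟨_, rfl⟩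
  have hk1 : (M * 3 * n) * (2 ^ q + 1) < 2 ^ k := by
    have h1 : M * 3 * n ≤ 9 * (A * A) := by
      rw [hnA]
      nlinarith
    have h2 : A < 2 ^ A := Nat.lt_two_pow_self
    have h3 : 2 ^ q ≤ 2 ^ A := Nat.pow_le_pow_right (by norm_num) hqA
    have h4 : 1 ≤ 2 ^ A := Nat.one_le_two_pow
    have h5 : 2 ^ k = 32 * (2 ^ A * 2 ^ A * 2 ^ A) := by
      rw [hk, pow_add, mul_comm 3 A, pow_mul]
      ring
    rw [h5]
    have h6 : A * A ≤ 2 ^ A * 2 ^ A := Nat.mul_le_mul h2.le h2.le
    have h7 : 2 ^ q + 1 ≤ 2 * 2 ^ A := by omega
    calc M * 3 * n * (2 ^ q + 1) ≤ (9 * (2 ^ A * 2 ^ A)) * (2 * 2 ^ A) :=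
          Nat.mul_le_mul (h1.trans (Nat.mul_le_mul_left _ h6)) h7
      _ = 18 * (2 ^ A * 2 ^ A * 2 ^ A) := by ring
      _ < 32 * (2 ^ A * 2 ^ A * 2 ^ A) := by
          apply Nat.mul_lt_mul_of_pos_right (by norm_num)
          positivity
  have hk2 : q ≤ k * (M * 3 * n) + 1 := by
    have : 1 ≤ M * 3 * n := by
      rw [hnA]
      exact Nat.mul_pos (by omega) (by omega)
    have : k ≤ k * (M * 3 * n) := Nat.le_mul_of_pos_right _ (by omega)
    omega
  obtain ⟨r, ψ, h1, h2, h3, h4⟩ := maj_read_twice M n k q hM cl hk1 hk2
  refine ⟨r, ψ, h1, h2, ?_, ?_⟩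
  · refine h3.trans ?_
    rw [← hA, hnA]
    have e1 : k * (M * 3 * A) + 1 - q ≤ k * (M * 3 * A) + 1 := Nat.sub_le _ _
    have e2 : k ≤ 8 * A := by omega
    have e3 : M * k ≤ 24 * (A * A) := by
      calc M * k ≤ (3 * A) * (8 * A) := Nat.mul_le_mul hMA e2
        _ = _ := by ring
    have e4 : M * (3 * k + 4) ≤ 72 * (A * A) + 12 * A := by
      calc M * (3 * k + 4) = 3 * (M * k) + 4 * M := by ring
        _ ≤ 3 * (24 * (A * A)) + 4 * (3 * A) := Nat.add_le_add (Nat.mul_le_mul_left _ e3)
            (Nat.mul_le_mul_left _ hMA)
        _ = _ := by ring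
    have e5 : A * (6 * (M * k) + 3) ≤ 144 * (A * A * A) + 3 * A := by
      calc A * (6 * (M * k) + 3) = 6 * (A * (M * k)) + 3 * A := by ring
        _ ≤ 6 * (A * (24 * (A * A))) + 3 * A :=
            Nat.add_le_add_right (Nat.mul_le_mul_left _ (Nat.mul_le_mul_left _ e3)) _
        _ = _ := by ring
    have e6 : k * (M * 3 * A) ≤ 72 * (A * A * A) := by
      calc k * (M * 3 * A) = 3 * (A * (M * k)) := by ring
        _ ≤ 3 * (A * (24 * (A * A))) := Nat.mul_le_mul_left _ (Nat.mul_le_mul_left _ e3)
        _ = _ := by ring
    have e7 : A ≤ A * A * A := by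
      calc A = A * 1 * 1 := by ring
        _ ≤ A * A * A := Nat.mul_le_mul (Nat.mul_le_mul_left _ hA1) hA1
    have e8 : A * A ≤ A * A * A := Nat.le_mul_of_pos_right _ (by omega)
    have e9 : 1 ≤ A * A * A := by omega
    have e10 : A ^ 3 = A * A * A := by ring
    rw [e10]
    omega
  · intro p x
    rw [h4, hcount]

end Pool.Agent.Lib20
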